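import Pool.Agent.L5helper32.GP.Roots
import Pool.Agent.L5helper32.GR.Indep

set_option autoImplicit false

open Finset MeasureTheory ProbabilityTheory

namespace Pool.Agent.L5helper32.GP

open Pool.Agent.L5helper32.GR (Root w pr sg Dep lev q)

/-- The factor of the jump at the prime `r`. -/
def fac (p : ℕ) (D : ℕ → ℕ → ℕ) (r v : ℕ) : ℕ := Nat.gcd (r ^ v) ((tr D r v + 1) ^ p - 1)

theorem tr_congr' {D D' : ℕ → ℕ → ℕ} {r v : ℕ} (h : ∀ k < v, D r k = D' r k) :
    tr D r v = tr D' r v := by
  unfold tr
  exact Finset.sum_congr rfl fun i hi => by rw [h i (mem_range.1 hi)]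

theorem fac_congr {p : ℕ} {D D' : ℕ → ℕ → ℕ} {r v : ℕ} (h : ∀ k < v, D r k = D' r k) :
    fac p D r v = fac p D' r v := by
  unfold fac
  rw [tr_congr' h]

/-- The product of independent factors: Markov's inequality. -/
theorem prob_prod {p : ℕ} (hp : p.Prime) {Ω : Type} [MeasurableSpace Ω] {μ : Measure Ω}
    [IsProbabilityMeasure μ] {T : ℕ × ℕ × ℕ → Ω → ℕ} (h : Res μ T) (c : ℕ) (v : ℕ → ℕ)
    (R : Finset ℕ) : (∀ r ∈ R, r.Prime) → ∀ G : ℝ, 0 < G →
      μ.real {ω | G ≤ ((∏ r ∈ R, fac p (res T ω c) r (v r) : ℕ) : ℝ)}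
        ≤ (∏ r ∈ R, (1 + 4 * p * (v r : ℝ))) / G := by
  classical
  induction R using Finset.induction_on with
  | empty =>
    intro _ G hG
    simp only [Finset.prod_empty, Nat.cast_one]
    rcases le_or_gt G 1 with h1 | h1
    · refine measureReal_le_one.trans ?_
      rw [le_div_iff₀ hG]; linarith
    · have : {ω : Ω | G ≤ 1} = ∅ := by
        ext ω; simp only [Set.mem_ofPred_eq, Set.mem_empty_iff_false, iff_false]; linarith
      rw [this, measureReal_empty]; positivity
  | insert a R ha ih =>
    intro hR G hG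
    have hap : a.Prime := hR a (mem_insert_self a R)
    have ih' := ih (fun r hr => hR r (mem_insert_of_mem hr))
    have ha0 : (0 : ℝ) < a := by exact_mod_cast hap.pos
    set B : ℝ := ∏ r ∈ R, (1 + 4 * p * (v r : ℝ)) with hB
    have hB0 : 0 ≤ B := Finset.prod_nonneg fun r _ => by positivity
    -- the union over the exponents
    have hsub : {ω | G ≤ ((∏ r ∈ insert a R, fac p (res T ω c) r (v r) : ℕ) : ℝ)} ⊆
        ⋃ k ∈ range (v a + 1), {ω | fac p (res T ω c) a (v a) = a ^ k ∧
          G / (a : ℝ) ^ k ≤ ((∏ r ∈ R, fac p (res T ω c) r (v r) : ℕ) : ℝ)} := by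
      intro ω hω
      simp only [Set.mem_ofPred_eq] at hω
      rw [Finset.prod_insert ha] at hω
      obtain ⟨k, hk, hk2⟩ := (Nat.dvd_prime_pow hap).1
        (show fac p (res T ω c) a (v a) ∣ a ^ (v a) from Nat.gcd_dvd_left _ _)
      simp only [Set.mem_iUnion]
      refine ⟨k, mem_range.2 (by omega), hk2, ?_⟩
      rw [hk2] at hω
      push_cast at hω ⊢
      rw [div_le_iff₀ (by positivity), mul_comm]
      exact hω
    have hterm : ∀ k ∈ range (v a + 1), μ.real {ω | fac p (res T ω c) a (v a) = a ^ k ∧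
          G / (a : ℝ) ^ k ≤ ((∏ r ∈ R, fac p (res T ω c) r (v r) : ℕ) : ℝ)}
        ≤ (if k = 0 then (1 : ℝ) else 4 * (p : ℝ)) * (B / G) := by
      intro k hk
      have hk' : k ≤ v a := by have := mem_range.1 hk; omega
      have hind := GR.dep_indep (μ := μ) h.meas h.indep
        (S := ({c} : Finset ℕ) ×ˢ ({a} : Finset ℕ) ×ˢ range (v a))
        (S' := ({c} : Finset ℕ) ×ˢ R ×ˢ range (R.sup v))
        (by
          rw [Finset.disjoint_left]
          rintro ⟨x, y, z⟩ h1 h2
          simp only [mem_product, mem_singleton] at h1 h2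
          exact ha (h1.2.1 ▸ h2.2.1))
        (A := {f : ℕ × ℕ × ℕ → ℕ | fac p (fun r k => f (c, r, k)) a (v a) = a ^ k})
        (B := {f : ℕ × ℕ × ℕ → ℕ |
          G / (a : ℝ) ^ k ≤ ((∏ r ∈ R, fac p (fun r k => f (c, r, k)) r (v r) : ℕ) : ℝ)})
        (by
          intro f g hfg
          have : fac p (fun r k => f (c, r, k)) a (v a) = fac p (fun r k => g (c, r, k)) a (v a) := by
            apply fac_congr
            intro k hk
            exact hfg (c, a, k) (by simp [hk])
          simp only [Set.mem_ofPred_eq, this])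
        (by
          intro f g hfg
          have : ∏ r ∈ R, fac p (fun r k => f (c, r, k)) r (v r)
              = ∏ r ∈ R, fac p (fun r k => g (c, r, k)) r (v r) := by
            apply Finset.prod_congr rfl
            intro r hr
            apply fac_congr
            intro k hk
            refine hfg (c, r, k) ?_
            simp only [mem_product, mem_singleton, mem_range, true_and]
            exact ⟨hr, lt_of_lt_of_le hk (Finset.le_sup hr)⟩
          simp only [Set.mem_ofPred_eq, this])
      have e1 : μ.real {ω | fac p (res T ω c) a (v a) = a ^ k ∧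
          G / (a : ℝ) ^ k ≤ ((∏ r ∈ R, fac p (res T ω c) r (v r) : ℕ) : ℝ)}
          = μ.real {ω | fac p (res T ω c) a (v a) = a ^ k} *
            μ.real {ω | G / (a : ℝ) ^ k ≤ ((∏ r ∈ R, fac p (res T ω c) r (v r) : ℕ) : ℝ)} := hind
      rw [e1]
      have h2 := ih' (G / (a : ℝ) ^ k) (by positivity)
      have h3 : μ.real {ω | fac p (res T ω c) a (v a) = a ^ k} * (a : ℝ) ^ k
          ≤ (if k = 0 then (1 : ℝ) else 4 * (p : ℝ)) := by
        split_ifs with h0
        · subst h0
          rw [pow_zero ((a : ℝ)), mul_one]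
          exact measureReal_le_one
        · have h4 : μ.real {ω | fac p (res T ω c) a (v a) = a ^ k} ≤ 4 * p / (a : ℝ) ^ k := by
            refine le_trans (measureReal_mono ?_ (measure_ne_top _ _)) (prob_factor hp h c (v a) k hk' hap)
            intro ω hω
            simp only [Set.mem_ofPred_eq] at hω ⊢
            rw [← hω]
            exact Nat.gcd_dvd_right _ _
          rwa [le_div_iff₀ (by positivity)] at h4
      have h5 : (∏ r ∈ R, (1 + 4 * p * (v r : ℝ))) / (G / (a : ℝ) ^ k) = (a : ℝ) ^ k * (B / G) := by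
        rw [← hB]; field_simp
      rw [h5] at h2
      calc μ.real {ω | fac p (res T ω c) a (v a) = a ^ k} *
            μ.real {ω | G / (a : ℝ) ^ k ≤ ((∏ r ∈ R, fac p (res T ω c) r (v r) : ℕ) : ℝ)}
          ≤ μ.real {ω | fac p (res T ω c) a (v a) = a ^ k} * ((a : ℝ) ^ k * (B / G)) :=
            mul_le_mul_of_nonneg_left h2 measureReal_nonneg
        _ = (μ.real {ω | fac p (res T ω c) a (v a) = a ^ k} * (a : ℝ) ^ k) * (B / G) := by ring
        _ ≤ _ := mul_le_mul_of_nonneg_right h3 (by positivity)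
    refine (measureReal_mono hsub (measure_ne_top _ _)).trans
      ((measureReal_biUnion_finset_le _ _).trans ((Finset.sum_le_sum hterm).trans ?_))
    rw [← Finset.sum_mul, Finset.sum_range_succ']
    simp only [Nat.add_eq_zero_iff, one_ne_zero, and_false, if_false, if_true, Finset.sum_const,
      card_range, nsmul_eq_mul]
    rw [Finset.prod_insert ha, ← hB]
    apply le_of_eq
    ring

/-- A large jump at a given place has a small probability. -/
theorem prob_jump {p : ℕ} (hp : p.Prime) {Ω : Type} [MeasurableSpace Ω] {μ : Measure Ω}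
    [IsProbabilityMeasure μ] {T : ℕ × ℕ × ℕ → Ω → ℕ} (h : Res μ T) (c n G : ℕ) (hG : 1 ≤ G) :
    μ.real {ω | G ≤ jump p (res T ω c) n}
      ≤ (∏ r ∈ n.primeFactors, (1 + 4 * p * (n.factorization r : ℝ))) / G := by
  have key := prob_prod hp h c (fun r => n.factorization r) n.primeFactors
    (fun r hr => Nat.prime_of_mem_primeFactors hr) (G : ℝ) (by exact_mod_cast hG)
  have e : {ω | (G : ℝ) ≤ ((∏ r ∈ n.primeFactors,
      fac p (res T ω c) r (n.factorization r) : ℕ) : ℝ)} = {ω | G ≤ jump p (res T ω c) n} := by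
    ext ω
    simp only [Set.mem_ofPred_eq, Nat.cast_le]
    rfl
  rw [e] at key
  exact key

end Pool.Agent.L5helper32.GP
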