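import Mathlib

set_option autoImplicit false

namespace Pool.Agent.L5helper33.Conv

open Finset

/-- The plane. -/
abbrev E := EuclideanSpace ℝ (Fin 2)

/-- Orientation determinant. -/
def ori (a b c : E) : ℝ := (b 0 - a 0) * (c 1 - a 1) - (b 1 - a 1) * (c 0 - a 0)

/-- The tilted first coordinate. -/
def el (ε : ℝ) (a : E) : ℝ := a 0 + ε * a 1

lemma ori_rot (a b c : E) : ori b c a = ori a b c := by unfold ori; ring

lemma trans1 {ε σ : ℝ} {a b c d : E} (h1 : el ε a < el ε b) (h2 : el ε b < el ε c)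
    (h3 : el ε c < el ε d) (h4 : 0 < σ * ori a b c) (h5 : 0 < σ * ori b c d) :
    0 < σ * ori a b d := by
  have key : (σ * ori a b d) * (el ε c - el ε b) = (σ * ori b c d) * (el ε b - el ε a) +
      (σ * ori a b c) * (el ε d - el ε b) := by
    unfold ori el; ring
  have pos : 0 < (σ * ori a b d) * (el ε c - el ε b) := by
    rw [key]
    have e1 : 0 < el ε b - el ε a := by linarith
    have e2 : 0 < el ε d - el ε b := by linarith
    positivity
  exact (mul_pos_iff_of_pos_right (by linarith)).mp pos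

lemma trans2 {ε σ : ℝ} {a b c d : E} (h1 : el ε a < el ε b) (h2 : el ε b < el ε c)
    (h3 : el ε c < el ε d) (h4 : 0 < σ * ori a b c) (h5 : 0 < σ * ori b c d) :
    0 < σ * ori a c d := by
  have key : (σ * ori a c d) * (el ε c - el ε b) = (σ * ori b c d) * (el ε c - el ε a) +
      (σ * ori a b c) * (el ε d - el ε c) := by
    unfold ori el; ring
  have pos : 0 < (σ * ori a c d) * (el ε c - el ε b) := by
    rw [key]
    have e1 : 0 < el ε c - el ε a := by linarith
    have e2 : 0 < el ε d - el ε c := by linarith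
    positivity
  exact (mul_pos_iff_of_pos_right (by linarith)).mp pos

/-- All triples, in the order of `el ε`, have orientation `σ`. -/
def AllOr (ε σ : ℝ) (K : Finset E) : Prop :=
  ∀ a ∈ K, ∀ b ∈ K, ∀ c ∈ K, el ε a < el ε b → el ε b < el ε c → 0 < σ * ori a b c

/-- Chains: `Ch ε σ X n x s` says that there is a chain with `n + 2` points, the last two being
`x` and `s`, all but `s` in `X`, with consecutive triples of orientation `σ`. -/
def Ch (ε σ : ℝ) (X : Set E) : ℕ → E → E → Prop
  | 0, x, s => x ∈ X ∧ el ε x < el ε s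
  | (n + 1), y, s => y ∈ X ∧ el ε y < el ε s ∧ ∃ x, Ch ε σ X n x y ∧ 0 < σ * ori x y s

lemma Ch.mem {ε σ : ℝ} {X : Set E} {n : ℕ} {x s : E} (h : Ch ε σ X n x s) : x ∈ X := by
  cases n with
  | zero => exact h.1
  | succ n => exact h.1

lemma Ch.lt {ε σ : ℝ} {X : Set E} {n : ℕ} {x s : E} (h : Ch ε σ X n x s) : el ε x < el ε s := by
  cases n with
  | zero => exact h.2
  | succ n => exact h.2.1

lemma Ch.mono {ε σ : ℝ} {X Y : Set E} (hXY : X ⊆ Y) {n : ℕ} : ∀ {x s : E}, Ch ε σ X n x s →
    Ch ε σ Y n x s := by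
  induction n with
  | zero => exact fun h => ⟨hXY h.1, h.2⟩
  | succ n ih =>
    rintro y s ⟨h1, h2, x, h3, h4⟩
    exact ⟨hXY h1, h2, x, ih h3, h4⟩

lemma Ch.toSet {ε σ : ℝ} {X : Set E} {n : ℕ} : ∀ {x s : E}, Ch ε σ X n x s →
    ∃ K : Finset E, K.card = n + 2 ∧ s ∈ K ∧ x ∈ K ∧ (∀ q ∈ K, q ∈ X ∨ q = s) ∧
      (∀ q ∈ K, q = s ∨ q = x ∨ el ε q < el ε x) ∧ AllOr ε σ K := by
  classical
  induction n with
  | zero =>
    rintro x s ⟨h1, h2⟩
    have hne : x ≠ s := fun h => by rw [h] at h2; exact lt_irrefl _ h2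
    refine ⟨{x, s}, by rw [card_pair hne], by simp, by simp, ?_, ?_, ?_⟩
    · intro q hq
      simp only [mem_insert, mem_singleton] at hq
      rcases hq with rfl | rfl
      · exact Or.inl h1
      · exact Or.inr rfl
    · intro q hq
      simp only [mem_insert, mem_singleton] at hq
      tauto
    · intro a ha b hb c hc hab hbc
      simp only [mem_insert, mem_singleton] at ha hb hc
      exfalso
      rcases ha with rfl | rfl <;> rcases hb with rfl | rfl <;> rcases hc with rfl | rfl <;>
        linarith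
  | succ n ih =>
    rintro y s ⟨h1, h2, x, h3, h4⟩
    obtain ⟨K, k1, k2, k3, k4, k5, k6⟩ := ih h3
    have hxy := h3.lt
    have ley : ∀ q ∈ K, el ε q ≤ el ε y := by
      intro q hq
      rcases k5 q hq with h | h | h
      · rw [h]
      · rw [h]; exact hxy.le
      · linarith
    have hs : s ∉ K := fun h => absurd (ley s h) (not_le.mpr h2)
    have cas : ∀ a ∈ K, el ε a < el ε y → 0 < σ * ori a y s := by
      intro a ha hay
      rcases k5 a ha with h | h | h
      · rw [h] at hay; exact absurd hay (lt_irrefl _)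
      · rw [h]; exact h4
      · exact trans2 h hxy h2 (k6 a ha x k3 y k2 h hxy) h4
    refine ⟨insert s K, ?_, mem_insert_self _ _, mem_insert_of_mem k2, ?_, ?_, ?_⟩
    · rw [card_insert_of_notMem hs, k1]
    · intro q hq
      rcases mem_insert.mp hq with h | h
      · exact Or.inr h
      · rcases k4 q h with h' | h'
        · exact Or.inl h'
        · left; rw [h']; exact h1
    · intro q hq
      rcases mem_insert.mp hq with h | h
      · exact Or.inl h
      · right
        rcases k5 q h with h' | h' | h'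
        · exact Or.inl h'
        · right; rw [h']; exact hxy
        · right; linarith
    · intro a ha b hb c hc hab hbc
      have hsmax : ∀ q ∈ insert s K, el ε q ≤ el ε s := by
        intro q hq
        rcases mem_insert.mp hq with h | h
        · rw [h]
        · linarith [ley q h]
      have hb' : b ∈ K := by
        rcases mem_insert.mp hb with h | h
        · rw [h] at hbc; exact absurd (hsmax c hc) (not_le.mpr hbc)
        · exact h
      have ha' : a ∈ K := by
        rcases mem_insert.mp ha with h | h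
        · rw [h] at hab; exact absurd (hsmax b hb) (not_le.mpr hab)
        · exact h
      rcases mem_insert.mp hc with h | h
      · rw [h]
        rcases eq_or_ne b y with hby | hby
        · rw [hby]
          rw [hby] at hab
          exact cas a ha' hab
        · have hblt : el ε b < el ε y := by
            rcases k5 b hb' with h' | h' | h'
            · exact absurd h' hby
            · rw [h']; exact hxy
            · linarith
          exact trans1 hab hblt h2 (k6 a ha' b hb' y k2 hab hblt) (cas b hb' hblt)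
      · exact k6 a ha' b hb' c h hab hbc

/-- The conclusion of the combinatorial part. -/
def Goal (ε : ℝ) (r q : ℕ) (P : Finset E) (χ : Sym2 E → Fin r) : Prop :=
  ∃ (σ : ℝ) (c : Fin r) (K : Finset E), (σ = 1 ∨ σ = -1) ∧ K ⊆ P ∧ K.card = q + 2 ∧
    AllOr ε σ K ∧ ∀ u ∈ K, ∀ v ∈ K, u ≠ v → χ s(u, v) = c

lemma goal_of_ch {ε : ℝ} {r q : ℕ} {P : Finset E} {χ : Sym2 E → Fin r} {σ : ℝ} {c : Fin r}
    {X : Set E} {x s : E} (hσ : σ = 1 ∨ σ = -1) (hch : Ch ε σ X q x s) (hX : X ⊆ ↑P)
    (hs : s ∈ P) (hclique : ∀ u ∈ X, ∀ v ∈ X, u ≠ v → χ s(u, v) = c)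
    (hxs : ∀ u ∈ X, χ s(u, s) = c) : Goal ε r q P χ := by
  obtain ⟨K, k1, k2, k3, k4, k5, k6⟩ := hch.toSet
  refine ⟨σ, c, K, hσ, ?_, k1, k6, ?_⟩
  · intro u hu
    rcases k4 u hu with h | h
    · exact hX h
    · rw [h]; exact hs
  · intro u hu v hv huv
    rcases k4 u hu with h | h
    · rcases k4 v hv with h' | h'
      · exact hclique u h v h' huv
      · rw [h']; exact hxs u h
    · rcases k4 v hv with h' | h'
      · rw [h, Sym2.eq_swap]; exact hxs v h'
      · exact absurd (h.trans h'.symm) huv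

lemma step_exists {Q : ℕ → Prop} {q : ℕ} (h0 : Q 0) (hq : ¬ Q q) :
    ∃ a, a < q ∧ Q a ∧ ¬ Q (a + 1) := by
  by_contra hno
  push Not at hno
  have : ∀ a, a ≤ q → Q a := by
    intro a
    induction a with
    | zero => exact fun _ => h0
    | succ a ih =>
      intro h
      exact hno a (by omega) (ih (by omega))
  exact hq (this q le_rfl)

lemma goal_of_ch' {ε : ℝ} {r q : ℕ} {P : Finset E} {χ : Sym2 E → Fin r} {σ : ℝ} {c : Fin r}
    {X : Set E} {s0 s : E} (hσ : σ = 1 ∨ σ = -1) (hch : Ch ε σ (insert s0 X) q s0 s)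
    (hX : X ⊆ ↑P) (hs0 : s0 ∈ P) (hs : s ∈ P)
    (hclique : ∀ u ∈ X, ∀ v ∈ X, u ≠ v → χ s(u, v) = c)
    (hXs0 : ∀ x ∈ X, χ s(x, s0) = c) (hXs : ∀ x ∈ X, χ s(x, s) = c)
    (hc : χ s(s0, s) = c) : Goal ε r q P χ := by
  refine goal_of_ch (c := c) hσ hch ?_ hs ?_ ?_
  · intro u hu
    rcases hu with rfl | hu
    · exact hs0
    · exact hX hu
  · intro u hu v hv huv
    rcases hu with hu | hu
    · rcases hv with hv | hv
      · exact absurd (hu.trans hv.symm) huv
      · rw [hu, Sym2.eq_swap]; exact hXs0 v hv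
    · rcases hv with hv | hv
      · rw [hv]; exact hXs0 u hu
      · exact hclique u hu v hv huv
  · intro u hu
    rcases hu with hu | hu
    · rw [hu]; exact hc
    · exact hXs u hu

lemma analysis {ε : ℝ} {r q : ℕ} {P : Finset E} {χ : Sym2 E → Fin r}
    (gp : ∀ a ∈ P, ∀ b ∈ P, ∀ c ∈ P, el ε a < el ε b → el ε b < el ε c → ori a b c ≠ 0)
    (hno : ¬ Goal ε r q P χ) {X : Set E} {c : Fin r} {k : Fin q → ℕ} {s0 s : E}
    (hs0 : s0 ∈ P) (hs : s ∈ P) (hX : X ⊆ ↑P)
    (hclique : ∀ u ∈ X, ∀ v ∈ X, u ≠ v → χ s(u, v) = c)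
    (hXs0 : ∀ x ∈ X, el ε x < el ε s0 ∧ χ s(x, s0) = c)
    (hXs : ∀ x ∈ X, el ε x < el ε s ∧ χ s(x, s) = c) (hlt : el ε s0 < el ε s)
    (hc : χ s(s0, s) = c)
    (hk : ∀ a, k a ≠ 0 → ∃ x, Ch ε 1 X a x s0 ∧ Ch ε (-1) X (k a - 1) x s0) :
    ∃ a : Fin q, Ch ε 1 (insert s0 X) a s0 s ∧ Ch ε (-1) (insert s0 X) (k a) s0 s := by
  have h0 : Ch ε 1 (insert s0 X) 0 s0 s := ⟨Set.mem_insert _ _, hlt⟩
  have hq' : ¬ Ch ε 1 (insert s0 X) q s0 s := fun h =>
    hno (goal_of_ch' (Or.inl rfl) h hX hs0 hs hclique (fun x hx => (hXs0 x hx).2)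
      (fun x hx => (hXs x hx).2) hc)
  obtain ⟨a, ha, ha1, ha2⟩ := step_exists (Q := fun n => Ch ε 1 (insert s0 X) n s0 s) h0 hq'
  refine ⟨⟨a, ha⟩, ha1, ?_⟩
  by_cases hka : k ⟨a, ha⟩ = 0
  · rw [hka]
    exact ⟨Set.mem_insert _ _, hlt⟩
  · obtain ⟨j, hj⟩ : ∃ j, k ⟨a, ha⟩ = j + 1 := ⟨k ⟨a, ha⟩ - 1, by omega⟩
    obtain ⟨x, hx1, hx2⟩ := hk _ hka
    have hxm := hx1.mem
    have hne := gp x (hX hxm) s0 hs0 s hs (hXs0 x hxm).1 hlt
    have hnpos : ¬ 0 < 1 * ori x s0 s := fun hpos =>
      ha2 ⟨Set.mem_insert _ _, hlt, x, hx1.mono (Set.subset_insert _ _), hpos⟩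
    have hneg : 0 < (-1) * ori x s0 s := by
      rw [one_mul, not_lt] at hnpos
      have := lt_of_le_of_ne hnpos hne
      linarith
    rw [hj]
    rw [hj] at hx2
    exact ⟨Set.mem_insert _ _, hlt, x, hx2.mono (Set.subset_insert _ _), hneg⟩

lemma core {ε : ℝ} {r q : ℕ} (hr : 2 ≤ r) (hq : 1 ≤ q) (P : Finset E) (χ : Sym2 E → Fin r)
    (gp : ∀ a ∈ P, ∀ b ∈ P, ∀ c ∈ P, el ε a < el ε b → el ε b < el ε c → ori a b c ≠ 0)
    (inj : ∀ a ∈ P, ∀ b ∈ P, el ε a = el ε b → a = b) :
    ∀ (m : ℕ) (S : Finset E) (X : Fin r → Set E) (k : Fin r → Fin q → ℕ),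
      (∑ c, ∑ a, k c a) + m = r * (q * q) → (∀ c a, k c a ≤ q) → S ⊆ P → (∀ c, X c ⊆ ↑P) →
      (∀ c, ∀ u ∈ X c, ∀ v ∈ X c, u ≠ v → χ s(u, v) = c) →
      (∀ c, ∀ x ∈ X c, ∀ s ∈ S, el ε x < el ε s ∧ χ s(x, s) = c) →
      (∀ c a, k c a ≠ 0 → ∀ s ∈ S, ∃ x, Ch ε 1 (X c) a x s ∧ Ch ε (-1) (X c) (k c a - 1) x s) →
      2 * (r * q) ^ m ≤ S.card → Goal ε r q P χ := by
  classical
  have hrq : 2 ≤ r * q := by nlinarith
  intro m
  induction m with
  | zero =>
    intro S X k hsum hkq hS hX hcl hXS hk hcard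
    by_contra hno
    have hcard2 : 1 < S.card := by
      have : 2 ≤ S.card := by simpa using hcard
      omega
    obtain ⟨s0, hs0, hmin⟩ := S.exists_min_image (el ε) (card_pos.mp (by omega))
    obtain ⟨s, hs, hne⟩ := exists_mem_ne hcard2 s0
    have hlt : el ε s0 < el ε s :=
      lt_of_le_of_ne (hmin s hs) (fun h => hne (inj _ (hS hs0) _ (hS hs) h).symm)
    obtain ⟨a, ha1, ha2⟩ := analysis gp hno (hS hs0) (hS hs) (hX _) (hcl _)
      (fun x hx => hXS _ x hx s0 hs0) (fun x hx => hXS _ x hx s hs) hlt rfl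
      (fun a ha => hk _ a ha s0 hs0)
    have hfull : k (χ s(s0, s)) a = q := by
      by_contra hlt'
      have h1 : k (χ s(s0, s)) a < q := lt_of_le_of_ne (hkq _ _) hlt'
      have h2 : ∑ c, ∑ a, k c a < ∑ c : Fin r, ∑ a : Fin q, q := by
        refine sum_lt_sum (fun c _ => sum_le_sum fun a _ => hkq c a) ⟨χ s(s0, s), mem_univ _, ?_⟩
        exact sum_lt_sum (fun a _ => hkq _ a) ⟨a, mem_univ _, h1⟩
      simp only [sum_const, card_univ, Fintype.card_fin, smul_eq_mul] at h2
      omega
    rw [hfull] at ha2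
    exact hno (goal_of_ch' (Or.inr rfl) ha2 (hX _) (hS hs0) (hS hs) (hcl _)
      (fun x hx => (hXS _ x hx s0 hs0).2) (fun x hx => (hXS _ x hx s hs).2) rfl)
  | succ m ih =>
    intro S X k hsum hkq hS hX hcl hXS hk hcard
    by_contra hno
    have hpow : 1 ≤ (r * q) ^ m := Nat.one_le_pow _ _ (by omega)
    have hcard' : 2 * (r * q) ^ m * (r * q) ≤ S.card := by
      rw [mul_assoc, ← pow_succ]; exact hcard
    have hcard2 : 1 < S.card := by nlinarith
    obtain ⟨s0, hs0, hmin⟩ := S.exists_min_image (el ε) (card_pos.mp (by omega))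
    have hlt : ∀ s ∈ S.erase s0, el ε s0 < el ε s := by
      intro s hs
      rw [mem_erase] at hs
      exact lt_of_le_of_ne (hmin s hs.2) (fun h => hs.1 (inj _ (hS hs0) _ (hS hs.2) h).symm)
    have han : ∀ s ∈ S.erase s0, ∃ a : Fin q,
        Ch ε 1 (insert s0 (X (χ s(s0, s)))) a s0 s ∧
        Ch ε (-1) (insert s0 (X (χ s(s0, s)))) (k (χ s(s0, s)) a) s0 s := by
      intro s hs
      have hs' := mem_of_mem_erase hs
      exact analysis gp hno (hS hs0) (hS hs') (hX _) (hcl _)
        (fun x hx => hXS _ x hx s0 hs0) (fun x hx => hXS _ x hx s hs') (hlt s hs) rfl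
        (fun a ha => hk _ a ha s0 hs0)
    have hq0 : 0 < q := hq
    let A : E → Fin q := fun s => if h : s ∈ S.erase s0 then (han s h).choose else ⟨0, hq0⟩
    have hA : ∀ s ∈ S.erase s0, Ch ε 1 (insert s0 (X (χ s(s0, s)))) (A s) s0 s ∧
        Ch ε (-1) (insert s0 (X (χ s(s0, s)))) (k (χ s(s0, s)) (A s)) s0 s := by
      intro s hs
      have : A s = (han s hs).choose := by simp only [A, dif_pos hs]
      rw [this]
      exact (han s hs).choose_spec
    let F : E → Fin r × Fin q := fun s => (χ s(s0, s), A s)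
    obtain ⟨⟨c, a⟩, _, hfib⟩ := exists_lt_card_fiber_of_mul_lt_card_of_maps_to
      (s := S.erase s0) (t := (univ : Finset (Fin r × Fin q))) (f := F)
      (n := 2 * (r * q) ^ m - 1) (fun _ _ => mem_univ _) (by
        rw [card_univ, Fintype.card_prod, Fintype.card_fin, Fintype.card_fin,
          card_erase_of_mem hs0]
        have e1 : r * q * (2 * (r * q) ^ m - 1) = 2 * (r * q) ^ m * (r * q) - r * q := by
          rw [Nat.mul_sub, mul_one, mul_comm (r * q)]
        rw [e1]
        omega)
    set S' := (S.erase s0).filter (fun s => F s = (c, a)) with hS'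
    have hS'sub : S' ⊆ S := (filter_subset _ _).trans (erase_subset _ _)
    have hS'e : ∀ s ∈ S', s ∈ S.erase s0 := fun s hs => (mem_filter.mp hs).1
    have hS'c : ∀ s ∈ S', χ s(s0, s) = c ∧ A s = a := by
      intro s hs
      have := (mem_filter.mp hs).2
      simp only [F, Prod.mk.injEq] at this
      exact this
    have hS'A : ∀ s ∈ S', Ch ε 1 (insert s0 (X c)) a s0 s ∧
        Ch ε (-1) (insert s0 (X c)) (k c a) s0 s := by
      intro s hs
      have h1 := hA s (hS'e s hs)
      rw [(hS'c s hs).1, (hS'c s hs).2] at h1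
      exact h1
    have hS'card : 2 * (r * q) ^ m ≤ S'.card := by omega
    -- the level is not full
    have hka : k c a < q := by
      refine lt_of_le_of_ne (hkq c a) fun hfull => ?_
      obtain ⟨s, hs⟩ := card_pos.mp (show 0 < S'.card by omega)
      have h1 := (hS'A s hs).2
      rw [hfull] at h1
      exact hno (goal_of_ch' (Or.inr rfl) h1 (hX _) (hS hs0) (hS (hS'sub hs)) (hcl _)
        (fun x hx => (hXS _ x hx s0 hs0).2) (fun x hx => (hXS _ x hx s (hS'sub hs)).2)
        (hS'c s hs).1)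
    let X' : Fin r → Set E := Function.update X c (insert s0 (X c))
    let k' : Fin r → Fin q → ℕ := Function.update k c (Function.update (k c) a (k c a + 1))
    have hXX' : ∀ d, X d ⊆ X' d := by
      intro d
      by_cases hd : d = c
      · subst hd; simp only [X', Function.update_self]; exact Set.subset_insert _ _
      · simp only [X', Function.update_of_ne hd]; exact subset_rfl
    have hX'mem : ∀ d, ∀ x ∈ X' d, (x = s0 ∧ d = c) ∨ x ∈ X d := by
      intro d x hx
      by_cases hd : d = c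
      · subst hd
        simp only [X', Function.update_self] at hx
        rcases hx with h | h
        · exact Or.inl ⟨h, rfl⟩
        · exact Or.inr h
      · simp only [X', Function.update_of_ne hd] at hx
        exact Or.inr hx
    refine hno (ih S' X' k' ?_ ?_ (hS'sub.trans hS) ?_ ?_ ?_ ?_ hS'card)
    · have e1 : ∑ d, ∑ b, k' d b = (∑ d, ∑ b, k d b) + 1 := by
        have e2 : ∀ d, ∑ b, k' d b = (∑ b, k d b) + (if d = c then 1 else 0) := by
          intro d
          by_cases hd : d = c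
          · subst hd
            simp only [k', Function.update_self, if_true]
            rw [sum_update_of_mem (mem_univ a), ← add_sum_erase univ (k d) (mem_univ a),
              sdiff_singleton_eq_erase]
            ring
          · simp only [k', Function.update_of_ne hd, if_neg hd, add_zero]
        rw [sum_congr rfl fun d _ => e2 d, sum_add_distrib, sum_ite_eq' univ c]
        simp
      omega
    · intro d b
      by_cases hd : d = c
      · subst hd
        simp only [k', Function.update_self]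
        by_cases hb : b = a
        · subst hb; simp only [Function.update_self]; omega
        · simp only [Function.update_of_ne hb]; exact hkq d b
      · simp only [k', Function.update_of_ne hd]; exact hkq d b
    · intro d x hx
      rcases hX'mem d x hx with ⟨h, _⟩ | h
      · rw [h]; exact hS hs0
      · exact hX d h
    · intro d u hu v hv huv
      rcases hX'mem d u hu with ⟨h, hd⟩ | h
      · rcases hX'mem d v hv with ⟨h', _⟩ | h'
        · exact absurd (h.trans h'.symm) huv
        · rw [h, Sym2.eq_swap]; exact (hXS d v h' s0 hs0).2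
      · rcases hX'mem d v hv with ⟨h', _⟩ | h'
        · rw [h']; exact (hXS d u h s0 hs0).2
        · exact hcl d u h v h' huv
    · intro d x hx s hs
      rcases hX'mem d x hx with ⟨h, hd⟩ | h
      · rw [h, hd]; exact ⟨hlt s (hS'e s hs), (hS'c s hs).1⟩
      · exact hXS d x h s (hS'sub hs)
    · intro d b hkb s hs
      by_cases hdb : d = c ∧ b = a
      · obtain ⟨rfl, rfl⟩ := hdb
        have e1 : k' d b = k d b + 1 := by simp only [k', Function.update_self]
        have e2 : X' d = insert s0 (X d) := by simp only [X', Function.update_self]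
        refine ⟨s0, ?_, ?_⟩
        · rw [e2]; exact (hS'A s hs).1
        · rw [e1, e2, Nat.add_sub_cancel]; exact (hS'A s hs).2
      · have e1 : k' d b = k d b := by
          by_cases hd : d = c
          · subst hd
            have hb : b ≠ a := fun h => hdb ⟨rfl, h⟩
            simp only [k', Function.update_self, Function.update_of_ne hb]
          · simp only [k', Function.update_of_ne hd]
        rw [e1] at hkb ⊢
        obtain ⟨x, hx1, hx2⟩ := hk d b hkb s (hS'sub hs)
        exact ⟨x, hx1.mono (hXX' d), hx2.mono (hXX' d)⟩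

end Pool.Agent.L5helper33.Conv
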