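import Pool.Agent.L5helper33.ConvCore

set_option autoImplicit false

namespace Pool.Agent.L5helper33.Conv

open Finset

lemma exists_eps (P : Finset E) : ∃ ε : ℝ, ∀ a ∈ P, ∀ b ∈ P, el ε a = el ε b → a = b := by
  classical
  let B : Finset ℝ := (P ×ˢ P).image fun p => - (p.1 0 - p.2 0) / (p.1 1 - p.2 1)
  obtain ⟨ε, hε⟩ := Infinite.exists_notMem_finset B
  refine ⟨ε, fun a ha b hb hab => ?_⟩
  by_contra hne
  unfold el at hab
  by_cases h1 : a 1 = b 1
  · apply hne
    have h0 : a 0 = b 0 := by rw [h1] at hab; linarith
    ext i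
    fin_cases i
    · exact h0
    · exact h1
  · apply hε
    simp only [B, mem_image, mem_product]
    refine ⟨(a, b), ⟨ha, hb⟩, ?_⟩
    have : a 1 - b 1 ≠ 0 := sub_ne_zero.mpr h1
    simp only
    field_simp
    linarith

lemma collinear_of_ori {a b c : E} (hab : a ≠ b) (h : ori a b c = 0) :
    Collinear ℝ ({a, b, c} : Set E) := by
  rw [collinear_iff_of_mem (p₀ := a) (by simp)]
  unfold ori at h
  by_cases h0 : b 0 - a 0 = 0
  · have h1 : b 1 - a 1 ≠ 0 := by
      intro h1
      apply hab
      ext i
      fin_cases i
      · simp only [Fin.zero_eta]; linarith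
      · simp only [Fin.mk_one]; linarith
    refine ⟨b - a, fun p hp => ?_⟩
    simp only [Set.mem_insert_iff, Set.mem_singleton_iff] at hp
    rcases hp with rfl | rfl | rfl
    · exact ⟨0, by simp⟩
    · exact ⟨1, by simp⟩
    · refine ⟨(p 1 - a 1) / (b 1 - a 1), ?_⟩
      rw [h0, zero_mul, zero_sub, neg_eq_zero] at h
      have h2 : p 0 - a 0 = 0 := by
        rcases mul_eq_zero.mp h with h' | h'
        · exact absurd h' h1
        · exact h'
      ext i
      fin_cases i
      · simp only [Fin.zero_eta, vadd_eq_add, PiLp.add_apply, PiLp.smul_apply, PiLp.sub_apply,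
          smul_eq_mul, h0, mul_zero, zero_add]
        linarith
      · simp only [Fin.mk_one, vadd_eq_add, PiLp.add_apply, PiLp.smul_apply, PiLp.sub_apply,
          smul_eq_mul]
        field_simp
        ring
  · refine ⟨b - a, fun p hp => ?_⟩
    simp only [Set.mem_insert_iff, Set.mem_singleton_iff] at hp
    rcases hp with rfl | rfl | rfl
    · exact ⟨0, by simp⟩
    · exact ⟨1, by simp⟩
    · refine ⟨(p 0 - a 0) / (b 0 - a 0), ?_⟩
      ext i
      fin_cases i
      · simp only [Fin.zero_eta, vadd_eq_add, PiLp.add_apply, PiLp.smul_apply, PiLp.sub_apply,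
          smul_eq_mul]
        field_simp
        ring
      · simp only [Fin.mk_one, vadd_eq_add, PiLp.add_apply, PiLp.smul_apply, PiLp.sub_apply,
          smul_eq_mul]
        field_simp
        linarith

/-- an affine function -/
def aff (α β γ : ℝ) (q : E) : ℝ := α * q 0 + β * q 1 + γ

lemma notMem_of_aff {α β γ : ℝ} {x : E} {T : Set E} (hx : aff α β γ x ≤ 0)
    (hT : ∀ q ∈ T, 0 < aff α β γ q) : x ∉ convexHull ℝ T := by
  intro h
  have hconv : Convex ℝ {q : E | 0 < aff α β γ q} := by
    intro u hu v hv s t hs ht hst
    simp only [Set.mem_ofPred_eq, aff, PiLp.add_apply, PiLp.smul_apply, smul_eq_mul] at *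
    have e : α * (s * u 0 + t * v 0) + β * (s * u 1 + t * v 1) + γ =
        s * (α * u 0 + β * u 1 + γ) + t * (α * v 0 + β * v 1 + γ) := by
      have : γ = (s + t) * γ := by rw [hst, one_mul]
      nlinarith
    rw [e]
    rcases eq_or_lt_of_le hs with h0 | h0
    · have ht1 : t = 1 := by linarith
      rw [← h0, ht1]; linarith
    · have := mul_pos h0 hu
      have := mul_nonneg ht hv.le
      linarith
  have h2 := convexHull_min (s := T) (t := {q : E | 0 < aff α β γ q}) hT hconv h
  simp only [Set.mem_ofPred_eq] at h2
  linarith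

lemma convexIndependent_of_allOr {ε σ : ℝ} {K : Finset E} (h : AllOr ε σ K)
    (inj : ∀ a ∈ K, ∀ b ∈ K, el ε a = el ε b → a = b) :
    ConvexIndependent ℝ (fun x : (↑K : Set E) => (x : E)) := by
  classical
  rw [convexIndependent_set_iff_notMem_convexHull_sdiff]
  intro x hx
  have hx' : x ∈ K := hx
  let U := K.filter fun q => el ε q < el ε x
  let W := K.filter fun q => el ε x < el ε q
  by_cases hU : U.Nonempty
  · by_cases hW : W.Nonempty
    · obtain ⟨u, hu, humax⟩ := U.exists_max_image (el ε) hU
      obtain ⟨w, hw, hwmin⟩ := W.exists_min_image (el ε) hW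
      simp only [U, mem_filter] at hu
      simp only [W, mem_filter] at hw
      -- f q = σ (ori x w q + ori u x q)
      refine notMem_of_aff
        (α := σ * (-(w 1 - x 1) - (x 1 - u 1)))
        (β := σ * ((w 0 - x 0) + (x 0 - u 0)))
        (γ := σ * (-(w 0 - x 0) * x 1 + (w 1 - x 1) * x 0 - (x 0 - u 0) * u 1 +
          (x 1 - u 1) * u 0)) ?_ ?_
      · unfold aff; ring_nf; exact le_refl _
      · intro q hq
        have hqK : q ∈ K := hq.1
        have hqx : q ≠ x := fun h => hq.2 h
        have e : aff (σ * (-(w 1 - x 1) - (x 1 - u 1)))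
            (σ * ((w 0 - x 0) + (x 0 - u 0)))
            (σ * (-(w 0 - x 0) * x 1 + (w 1 - x 1) * x 0 - (x 0 - u 0) * u 1 +
            (x 1 - u 1) * u 0)) q = σ * ori x w q + σ * ori u x q := by
          unfold aff ori; ring
        rw [e]
        rcases lt_trichotomy (el ε q) (el ε x) with hlt | heq | hgt
        · have h1 : σ * ori x w q = σ * ori q x w := by unfold ori; ring
          have h2 := h q hqK x hx' w hw.1 hlt hw.2
          rcases eq_or_ne q u with hqu | hqu
          · have h3 : ori u x q = 0 := by rw [hqu]; unfold ori; ring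
            rw [h1, h3]; linarith
          · have hqu' : el ε q < el ε u := by
              refine lt_of_le_of_ne (humax q (by simp only [U, mem_filter]; exact ⟨hqK, hlt⟩)) ?_
              exact fun h' => hqu (inj q hqK u hu.1 h')
            have h3 := h q hqK u hu.1 x hx' hqu' hu.2
            have h4 : σ * ori u x q = σ * ori q u x := by unfold ori; ring
            rw [h1, h4]; linarith
        · exact absurd (inj q hqK x hx' heq) hqx
        · have h2 := h u hu.1 x hx' q hqK hu.2 hgt
          rcases eq_or_ne q w with hqw | hqw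
          · have h3 : ori x w q = 0 := by rw [hqw]; unfold ori; ring
            rw [h3]; linarith
          · have hqw' : el ε w < el ε q := by
              refine lt_of_le_of_ne (hwmin q (by simp only [W, mem_filter]; exact ⟨hqK, hgt⟩)) ?_
              exact fun h' => hqw (inj w hw.1 q hqK h').symm
            have h3 := h x hx' w hw.1 q hqK hw.2 hqw'
            linarith
    · -- x is the last point
      refine notMem_of_aff (α := -1) (β := -ε) (γ := el ε x) ?_ ?_
      · unfold aff el; ring_nf; exact le_refl _
      · intro q hq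
        have hqK : q ∈ K := hq.1
        have hqx : q ≠ x := fun h => hq.2 h
        have h1 : ¬ el ε x < el ε q := fun h' => hW ⟨q, by simp only [W, mem_filter]; exact ⟨hqK, h'⟩⟩
        have h2 : el ε q < el ε x :=
          lt_of_le_of_ne (not_lt.mp h1) (fun h' => hqx (inj q hqK x hx' h'))
        unfold aff
        unfold el at *
        linarith
  · refine notMem_of_aff (α := 1) (β := ε) (γ := -el ε x) ?_ ?_
    · unfold aff el; ring_nf; exact le_refl _
    · intro q hq
      have hqK : q ∈ K := hq.1
      have hqx : q ≠ x := fun h => hq.2 h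
      have h1 : ¬ el ε q < el ε x := fun h' => hU ⟨q, by simp only [U, mem_filter]; exact ⟨hqK, h'⟩⟩
      have h2 : el ε x < el ε q :=
        lt_of_le_of_ne (not_lt.mp h1) (fun h' => hqx (inj x hx' q hqK h').symm)
      unfold aff
      unfold el at *
      linarith

end Pool.Agent.L5helper33.Conv
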