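import Pool.Agent.L5helper33.EvPoly
import Pool.Agent.W865.Range

/-!
# The tangent form of an arc over a field of even order
-/

set_option autoImplicit false

open Finset MvPolynomial
open Pool.Agent.W865 (hF hB hF_apply hF_perm hF_self hB_add_left hB_smul_left hB_self hB_mem_left
  hB_swap hB_pluecker DetArc exists_perm)

namespace L5H33.EV

section Basic

variable {F : Type} [Field F] {n m : ℕ}

/-- the functional `x ↦ det(x, v_c : c ∈ C)` -/
noncomputable def hh (v : Fin n → Fin (m + 2) → F) (C : Finset (Fin n)) :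
    (Fin (m + 2) → F) →ₗ[F] F :=
  if hC : C.card = m + 1 then hF (fun i => v (C.orderEmbOfFin hC i)) else 0

/-- the point orthogonal to the `v_c`, `c ∈ C` -/
noncomputable def zz (v : Fin n → Fin (m + 2) → F) (C : Finset (Fin n)) : Fin (m + 2) → F :=
  fun b => hh v C (Pi.single b 1)

lemma hh_eq (v : Fin n → Fin (m + 2) → F) (C : Finset (Fin n)) (x : Fin (m + 2) → F) :
    hh v C x = ∑ b, x b * zz v C b := by
  rw [LinearMap.pi_apply_eq_sum_univ (hh v C) x]
  refine sum_congr rfl fun b _ => ?_
  rw [smul_eq_mul]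
  congr 2
  funext j
  by_cases hj : b = j
  · subst hj; simp
  · rw [if_neg hj, Pi.single_eq_of_ne (Ne.symm hj)]

lemma hh_mem (v : Fin n → Fin (m + 2) → F) {C : Finset (Fin n)} {c : Fin n} (hc : c ∈ C) :
    hh v C (v c) = 0 := by
  by_cases hCc : C.card = m + 1
  · rw [hh, dif_pos hCc]
    have : c ∈ Set.range (C.orderEmbOfFin hCc) := by
      rw [Finset.range_orderEmbOfFin]; exact hc
    obtain ⟨j, rfl⟩ := this
    exact hF_self (fun i => v (C.orderEmbOfFin hCc i)) j
  · rw [hh, dif_neg hCc]; rfl

lemma hh_ne {v : Fin n → Fin (m + 2) → F} (hv : DetArc v) {C : Finset (Fin n)}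
    (hCc : C.card = m + 1) {s : Fin n} (hs : s ∉ C) : hh v C (v s) ≠ 0 := by
  rw [hh, dif_pos hCc, hF_apply]
  have h1 : Matrix.vecCons (v s) (fun i => v (C.orderEmbOfFin hCc i)) =
      fun i => v (Matrix.vecCons s (fun i => C.orderEmbOfFin hCc i) i) := by
    funext i
    refine Fin.cases rfl (fun _ => rfl) i
  rw [h1]
  apply hv
  intro i j
  refine Fin.cases ?_ (fun i => ?_) i
  · refine Fin.cases ?_ (fun j => ?_) j
    · intro _; rfl
    · intro h
      simp only [Matrix.cons_val_zero, Matrix.cons_val_succ] at h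
      exact absurd (h ▸ Finset.orderEmbOfFin_mem C hCc j) hs
  · refine Fin.cases ?_ (fun j => ?_) j
    · intro h
      simp only [Matrix.cons_val_zero, Matrix.cons_val_succ] at h
      exact absurd (h ▸ Finset.orderEmbOfFin_mem C hCc i) hs
    · intro h
      simp only [Matrix.cons_val_succ] at h
      rw [(C.orderEmbOfFin hCc).injective h]

lemma sign_one [CharP F 2] {α : Type} [Fintype α] [DecidableEq α] (σ : Equiv.Perm α) :
    ((Equiv.Perm.sign σ : ℤ) : F) = 1 := by
  rcases Int.units_eq_one_or (Equiv.Perm.sign σ) with h | h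
  · rw [h]; simp
  · rw [h]; simp [CharTwo.neg_eq]

lemma hh_insert [CharP F 2] (v : Fin n → Fin (m + 2) → F) {D : Finset (Fin n)} (hD : D.card = m)
    {a : Fin n} (ha : a ∉ D) (x : Fin (m + 2) → F) : hh v (insert a D) x =
      hB (fun i => v (D.orderEmbOfFin hD i)) x (v a) := by
  have hc : (insert a D).card = m + 1 := by rw [Finset.card_insert_of_notMem ha, hD]
  have hinj : Function.Injective (Matrix.vecCons a (D.orderEmbOfFin hD) : Fin (m + 1) → Fin n) := by
    intro i j
    refine Fin.cases ?_ (fun i => ?_) i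
    · refine Fin.cases ?_ (fun j => ?_) j
      · intro _; rfl
      · intro h
        simp only [Matrix.cons_val_zero, Matrix.cons_val_succ] at h
        exact absurd (h ▸ Finset.orderEmbOfFin_mem D hD j) ha
    · refine Fin.cases ?_ (fun j => ?_) j
      · intro h
        simp only [Matrix.cons_val_zero, Matrix.cons_val_succ] at h
        exact absurd (h ▸ Finset.orderEmbOfFin_mem D hD i) ha
      · intro h
        simp only [Matrix.cons_val_succ] at h
        rw [(D.orderEmbOfFin hD).injective h]
  have hrange : Set.range (Matrix.vecCons a (D.orderEmbOfFin hD) : Fin (m + 1) → Fin n) =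
      Set.range ((insert a D).orderEmbOfFin hc) := by
    rw [Finset.range_orderEmbOfFin, Matrix.range_cons, Finset.range_orderEmbOfFin]
    simp
  obtain ⟨σ, hσ⟩ := exists_perm ((insert a D).orderEmbOfFin hc).injective hinj hrange
  have h1 : Matrix.vecCons (v a) (fun i => v (D.orderEmbOfFin hD i)) =
      (fun i => v ((insert a D).orderEmbOfFin hc i)) ∘ σ := by
    funext i
    have h2 := congrFun hσ i
    simp only [Function.comp_apply] at h2 ⊢
    rw [← h2]
    refine Fin.cases rfl (fun _ => rfl) i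
  rw [hh, dif_pos hc, hB, h1, hF_perm, sign_one, one_mul]

lemma eval_smul_hom {k t : ℕ} {Φ : MvPolynomial (Fin k) F} (h : Φ.IsHomogeneous t) (r : F)
    (x : Fin k → F) : eval (fun b => r * x b) Φ = r ^ t * eval x Φ := by
  rw [eval_eq', eval_eq', mul_sum]
  refine sum_congr rfl fun s hs => ?_
  simp only [mul_pow, prod_mul_distrib]
  rw [prod_pow_eq_pow_sum, ← hom_deg h hs]
  ring

lemma prod_shift [Fintype F] [DecidableEq F] [CharP F 2] (b : F) :
    ∏ a ∈ univ.erase b, (a - b) = 1 := by
  have h1 : ∏ a ∈ univ.erase b, (a - b) = ∏ x : Fˣ, (x : F) := by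
    symm
    refine prod_bij (fun x _ => (x : F) + b) ?_ ?_ ?_ ?_
    · intro x _
      rw [mem_erase]
      refine ⟨?_, mem_univ _⟩
      intro h
      exact x.ne_zero (add_eq_right.1 h)
    · intro x _ y _ h
      exact Units.ext (add_right_cancel h)
    · intro a ha
      rw [mem_erase] at ha
      refine ⟨Units.mk0 (a - b) (sub_ne_zero.2 ha.1), mem_univ _, ?_⟩
      simp
    · intro x _
      simp
  have h2 : ∏ x : Fˣ, (x : F) = ((∏ x : Fˣ, x : Fˣ) : F) := by
    rw [Units.coe_prod]
  rw [h1, h2, FiniteField.prod_univ_units_id_eq_neg_one]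
  simp [CharTwo.neg_eq]

end Basic

section Step

variable {F : Type} [Field F] [Fintype F] [CharP F 2] {n m : ℕ}

/-- the normalised value of `Φ` at the point `zz v C` -/
def Gd (v : Fin n → Fin (m + 2) → F) (Φ : MvPolynomial (Fin (m + 2)) F) (C : Finset (Fin n)) :
    Prop := eval (zz v C) Φ * ∏ e ∈ Cᶜ, hh v C (v e) = 1

theorem step {v : Fin n → Fin (m + 2) → F} (hv : DetArc v) {t : ℕ}
    (hnt : n + t = Fintype.card F + m + 1) {Φ : MvPolynomial (Fin (m + 2)) F}
    (hΦ : Φ.IsHomogeneous t) {D : Finset (Fin n)} (hD : D.card = m) {y : Fin n} (hy : y ∉ D)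
    {E0 : Finset (Fin n)} (hE0 : ∀ e ∈ E0, e ∉ D ∧ e ≠ y) (hcard : t + 1 ≤ E0.card)
    (hG : ∀ e ∈ E0, Gd v Φ (insert e D)) : Gd v Φ (insert y D) := by
  classical
  set B : (Fin (m + 2) → F) → (Fin (m + 2) → F) → F :=
    hB (fun i => v (D.orderEmbOfFin hD i)) with hBdef
  have hins : ∀ e, e ∉ D → ∀ x, hh v (insert e D) x = B x (v e) :=
    fun e he x => hh_insert v hD he x
  have hcins : ∀ e, e ∉ D → (insert e D).card = m + 1 := fun e he => by
    rw [card_insert_of_notMem he, hD]
  have hBne : ∀ e e', e ∉ D → e' ∉ D → e' ≠ e → B (v e') (v e) ≠ 0 := by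
    intro e e' he he' hne
    rw [← hins e he]
    exact hh_ne hv (hcins e he) (by simp [hne, he'])
  have hsw : ∀ x x', B x x' = B x' x := fun x x' => by
    rw [hBdef, hB_swap, CharTwo.neg_eq]
  have hE0ne : E0.Nonempty := card_pos.1 (by omega)
  obtain ⟨c1, hc1⟩ := hE0ne
  obtain ⟨hc1D, hc1y⟩ := hE0 c1 hc1
  have hδ : B (v y) (v c1) ≠ 0 := hBne c1 y hc1D hy hc1y.symm
  set W : (Fin (m + 2) → F) → Fin (m + 2) → F := fun w b => B (Pi.single b 1) w with hW
  have hzz : ∀ e, e ∉ D → zz v (insert e D) = W (v e) := by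
    intro e he
    funext b
    exact hins e he _
  set u : Fin n → F := fun e => B (v e) (v c1) / B (v y) (v e) with hu
  have hue : ∀ e, e ∉ D → e ≠ y → u e * B (v y) (v e) = B (v e) (v c1) := fun e he hey =>
    div_mul_cancel₀ _ (hBne e y he hy hey.symm)
  -- Plücker
  have hpl : ∀ x x', B x x' = (B (v y) (v c1))⁻¹ *
      (B x (v c1) * B (v y) x' - B (v y) x * B x' (v c1)) :=
    fun x x' => hB_pluecker _ (v y) (v c1) hδ x x'
  have hWe : ∀ e, e ∉ D → e ≠ y → W (v e) = fun b => ((B (v y) (v c1))⁻¹ * B (v y) (v e)) *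
      (W (v c1) b + W (v y) b * u e) := by
    intro e he hey
    funext b
    rw [hW]
    simp only
    rw [hpl (Pi.single b 1) (v e), ← hue e he hey, hsw (v y) (Pi.single b 1), CharTwo.sub_eq_add]
    ring
  have hBee : ∀ e e', e ∉ D → e ≠ y → e' ∉ D → e' ≠ y → B (v e') (v e) =
      ((B (v y) (v c1))⁻¹ * B (v y) (v e)) * (B (v y) (v e') * (u e' - u e)) := by
    intro e e' he hey he' hey'
    rw [hpl (v e') (v e), ← hue e he hey, ← hue e' he' hey']
    ring
  set T : Finset (Fin n) := (insert y D)ᶜ with hT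
  have hTm : ∀ e, e ∈ T ↔ e ∉ D ∧ e ≠ y := by
    intro e
    rw [hT, mem_compl, mem_insert, not_or]
    tauto
  have hTc : T.card + t = Fintype.card F := by
    have h1 : (insert y D).card + T.card = n := by
      rw [hT, card_add_card_compl, Fintype.card_fin]
    rw [hcins y hy] at h1
    omega
  have hE0T : E0 ⊆ T := fun e he => (hTm e).2 (hE0 e he)
  have hinj : ∀ e ∈ T, ∀ e' ∈ T, u e = u e' → e = e' := by
    intro e he e' he' h
    by_contra hne
    rw [hTm] at he he'
    have h1 := hBne e e' he.1 he'.1 (Ne.symm hne)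
    rw [hBee e e' he.1 he.2 he'.1 he'.2, h] at h1
    simp at h1
  set U : Finset F := T.image u with hU
  have hUc : U.card = T.card := card_image_of_injOn fun e he e' he' h => hinj e he e' he' h
  set φ : Polynomial F := lineP Φ (W (v c1)) (W (v y)) with hφ
  set P : F := ∏ e ∈ T, B (v y) (v e) with hP
  set N : Polynomial F := ∏ a ∈ Uᶜ, (Polynomial.X - Polynomial.C a) with hN
  have hNmon : N.Monic := Polynomial.monic_prod_X_sub_C _ _
  have hNdeg : N.natDegree = t := by
    rw [hN, Polynomial.natDegree_prod_of_monic _ _ (fun a _ => Polynomial.monic_X_sub_C a)]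
    simp only [Polynomial.natDegree_X_sub_C, sum_const, smul_eq_mul, mul_one]
    rw [card_compl, hUc]
    omega
  have hNu : ∀ e ∈ T, N.eval (u e) * ∏ e' ∈ T.erase e, (u e' - u e) = 1 := by
    intro e he
    have h1 : ∏ e' ∈ T.erase e, (u e' - u e) = ∏ a ∈ U.erase (u e), (a - u e) := by
      rw [hU]
      have h2 : (T.image u).erase (u e) = (T.erase e).image u := by
        ext a
        simp only [mem_erase, mem_image]
        constructor
        · rintro ⟨h3, e', he', rfl⟩
          exact ⟨e', ⟨fun h => h3 (by rw [h]), he'⟩, rfl⟩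
        · rintro ⟨e', ⟨h3, he'⟩, rfl⟩
          exact ⟨fun h => h3 (hinj e' he' e he h), e', he', rfl⟩
      rw [h2, prod_image]
      intro a ha b hb hab
      exact hinj a (mem_of_mem_erase ha) b (mem_of_mem_erase hb) hab
    have h3 : N.eval (u e) = ∏ a ∈ Uᶜ, (a - u e) := by
      rw [hN, Polynomial.eval_prod]
      refine prod_congr rfl fun a _ => ?_
      rw [Polynomial.eval_sub, Polynomial.eval_X, Polynomial.eval_C, CharTwo.sub_eq_add,
        CharTwo.sub_eq_add, add_comm]
    rw [h1, h3, ← prod_union]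
    · rw [← prod_shift (u e)]
      congr 1
      ext a
      simp only [mem_union, mem_compl, mem_erase, mem_univ, and_true]
      have h4 : u e ∈ U := mem_image_of_mem u he
      constructor
      · rintro (h5 | h5)
        · intro h6; rw [h6] at h5; exact h5 h4
        · exact h5.1
      · intro h5
        by_cases h6 : a ∈ U
        · exact Or.inr ⟨h5, h6⟩
        · exact Or.inl h6
    · rw [disjoint_left]
      intro a h5 h6
      exact (mem_compl.1 h5) (mem_of_mem_erase h6)
  have hval : ∀ e ∈ E0, φ.eval (u e) * P = N.eval (u e) := by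
    intro e he
    have heT := hE0T he
    obtain ⟨heD, hey⟩ := hE0 e he
    have h1 := hG e he
    unfold Gd at h1
    rw [hzz e heD, hWe e heD hey, eval_smul_hom hΦ] at h1
    rw [← lineP_eval, ← hφ] at h1
    have hcomp : (insert e D)ᶜ = insert y (T.erase e) := by
      ext a
      rw [mem_compl, mem_insert, mem_insert, mem_erase, hTm]
      constructor
      · intro h2
        push Not at h2
        by_cases h3 : a = y
        · exact Or.inl h3
        · exact Or.inr ⟨h2.1, h2.2, h3⟩
      · rintro (rfl | ⟨h3, h4, h5⟩)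
        · push Not; exact ⟨hey.symm, hy⟩
        · push Not; exact ⟨h3, h4⟩
    have hyn : y ∉ T.erase e := by
      rw [mem_erase, hTm]
      tauto
    rw [hcomp, prod_insert hyn] at h1
    have h2 : ∀ e' ∈ T.erase e, hh v (insert e D) (v e') =
        ((B (v y) (v c1))⁻¹ * B (v y) (v e)) * (B (v y) (v e') * (u e' - u e)) := by
      intro e' he'
      rw [mem_erase, hTm] at he'
      rw [hins e heD, hBee e e' heD hey he'.2.1 he'.2.2]
    set r : F := (B (v y) (v c1))⁻¹ * B (v y) (v e) with hr
    have h2' : ∏ e' ∈ T.erase e, hh v (insert e D) (v e') =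
        r ^ (T.card - 1) * ((∏ e' ∈ T.erase e, B (v y) (v e')) *
          ∏ e' ∈ T.erase e, (u e' - u e)) := by
      rw [prod_congr rfl h2, prod_mul_distrib, prod_const, card_erase_of_mem heT,
        prod_mul_distrib]
    rw [h2', hins e heD] at h1
    have hr0 : r ≠ 0 := mul_ne_zero (inv_ne_zero hδ) (hBne e y heD hy hey.symm)
    have hTpos : 1 ≤ T.card := card_pos.2 ⟨e, heT⟩
    have hrq : r ^ t * r ^ (T.card - 1) = 1 := by
      rw [← pow_add, show t + (T.card - 1) = Fintype.card F - 1 by omega]
      exact FiniteField.pow_card_sub_one_eq_one r hr0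
    have hPe : P = B (v y) (v e) * ∏ e' ∈ T.erase e, B (v y) (v e') :=
      (mul_prod_erase T (fun e' => B (v y) (v e')) heT).symm
    have h3 := hNu e heT
    have h4 : φ.eval (u e) * P * ∏ e' ∈ T.erase e, (u e' - u e) = 1 := by
      rw [hPe]
      calc _ = (r ^ t * r ^ (T.card - 1)) * (φ.eval (u e) * (B (v y) (v e) *
            ∏ e' ∈ T.erase e, B (v y) (v e')) * ∏ e' ∈ T.erase e, (u e' - u e)) := by
            rw [hrq, one_mul]
        _ = _ := by
            refine Eq.trans ?_ h1
            ring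
    have h5 : ∏ e' ∈ T.erase e, (u e' - u e) ≠ 0 := by
      intro h6
      rw [h6, mul_zero] at h3
      exact zero_ne_one h3
    exact mul_right_cancel₀ h5 (h4.trans h3.symm)
  have hQ : Polynomial.C P * φ - N = 0 := by
    apply Polynomial.eq_zero_of_natDegree_lt_card_of_eval_eq_zero' _ (E0.image u)
    · intro a ha
      obtain ⟨e, he, rfl⟩ := mem_image.1 ha
      rw [Polynomial.eval_sub, Polynomial.eval_mul, Polynomial.eval_C, ← hval e he]
      ring
    · rw [card_image_of_injOn fun e he e' he' h => hinj e (hE0T he) e' (hE0T he') h]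
      refine lt_of_le_of_lt (Polynomial.natDegree_sub_le _ _) ?_
      rw [hNdeg]
      refine lt_of_le_of_lt (max_le ((Polynomial.natDegree_C_mul_le _ _).trans
        (lineP_deg hΦ _ _)) le_rfl) ?_
      omega
  have hcoef : P * eval (W (v y)) Φ = 1 := by
    have h1 := congrArg (fun p => Polynomial.coeff p t) hQ
    simp only [Polynomial.coeff_sub, Polynomial.coeff_C_mul, Polynomial.coeff_zero] at h1
    rw [hφ, lineP_coeff hΦ] at h1
    have h2 : N.coeff t = 1 := by
      rw [← hNdeg]
      exact hNmon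
    rw [h2] at h1
    exact sub_eq_zero.1 h1
  unfold Gd
  rw [hzz y hy, ← hT]
  have h1 : ∏ e ∈ T, hh v (insert y D) (v e) = P := by
    rw [hP]
    refine prod_congr rfl fun e _ => ?_
    rw [hins y hy, hsw]
  rw [h1, mul_comm]
  exact hcoef

end Step

end L5H33.EV
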