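import Pool.Agent.L5helper33.EvTangent

/-!
# The criterion: mixed derivatives of the product
-/

set_option autoImplicit false

open Finset MvPolynomial
open Pool.Agent.W865 (hF hB hF_apply hF_perm hF_self hB_add_left hB_smul_left hB_self hB_mem_left
  hB_swap hB_pluecker DetArc exists_perm exists_dual_arc detArc_of_linearIndependent)

namespace L5H33.EV

section Crit

variable {F : Type} [Field F] {n m : ℕ}

lemma zz_eq_det [CharP F 2] (v : Fin n → Fin (m + 2) → F) {J : Finset (Fin n)}
    (hJ : J.card = m + 1) (b : Fin (m + 2)) :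
    zz v J b = (Matrix.of fun (i : Fin (m + 1)) (j : Fin (m + 1)) =>
      v (J.orderEmbOfFin hJ i) (b.succAbove j)).det := by
  unfold zz hh
  rw [dif_pos hJ, hF_apply]
  change Matrix.det (Matrix.of (Matrix.vecCons (Pi.single b 1 : Fin (m + 2) → F)
    fun i => v (J.orderEmbOfFin hJ i))) = _
  rw [Matrix.det_succ_row_zero, sum_eq_single b]
  · have h1 : (-1 : F) ^ (b : ℕ) = 1 := by rw [CharTwo.neg_eq, one_pow]
    have h2 : (Matrix.of (Matrix.vecCons (Pi.single b 1 : Fin (m + 2) → F)
      fun i => v (J.orderEmbOfFin hJ i))) 0 b = 1 := by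
      simp [Matrix.of_apply]
    rw [h1, h2, one_mul, one_mul]
    rfl
  · intro j _ hj
    have h2 : (Matrix.of (Matrix.vecCons (Pi.single b 1 : Fin (m + 2) → F)
      fun i => v (J.orderEmbOfFin hJ i))) 0 j = 0 := by
      simp [Matrix.of_apply, hj]
    rw [h2]
    ring
  · intro h
    exact absurd (mem_univ b) h

lemma prod_split {R : Type} [CommMonoid R] (f : Fin n → R) {J : Finset (Fin n)}
    (hJ : J.card = m + 1) :
    ∏ i, f i = (∏ e ∈ Jᶜ, f e) * ∏ i : Fin (m + 1), f (J.orderEmbOfFin hJ i) := by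
  rw [← prod_compl_mul_prod J]
  congr 1
  have h1 : J = univ.map (J.orderEmbOfFin hJ).toEmbedding := by
    rw [Finset.map_orderEmbOfFin_univ]
  conv_lhs => rw [h1]
  rw [prod_map]
  rfl

lemma eval_DD_zz [CharP F 2] (v : Fin n → Fin (m + 2) → F) (Φ : MvPolynomial (Fin (m + 2)) F)
    {J : Finset (Fin n)} (hJ : J.card = m + 1) (b : Fin (m + 2)) :
    eval (zz v J) (DD (List.ofFn b.succAbove) (Φ * ∏ i, lin (v i))) =
      zz v J b * (eval (zz v J) Φ * ∏ e ∈ Jᶜ, hh v J (v e)) := by
  have h1 := prod_split (fun i => lin (v i)) hJ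
  rw [h1, ← mul_assoc, eval_DD, ← zz_eq_det v hJ b, map_mul, map_prod,
    prod_congr rfl fun e _ => eval_zz_lin v J (v e)]
  · ring
  · intro i
    rw [← hh_eq]
    exact hh_mem v (Finset.orderEmbOfFin_mem J hJ i)

/-- the criterion -/
def Crit (v : Fin n → Fin (m + 2) → F) (Φ : MvPolynomial (Fin (m + 2)) F) (q : ℕ) : Prop :=
  ∀ b : Fin (m + 2), DD (List.ofFn b.succAbove) (Φ * ∏ i, lin (v i)) = X b ^ q

theorem arc_of_crit {v : Fin n → Fin (m + 2) → F} {Φ : MvPolynomial (Fin (m + 2)) F} {q : ℕ}
    (hq : q ≠ 0) (h : Crit v Φ q) : DetArc v := by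
  classical
  intro f hf hdet
  obtain ⟨z, hz0, hz⟩ := Matrix.exists_mulVec_eq_zero_iff.2 hdet
  apply hz0
  have hzi : ∀ i, lin (v (f i)) ∈ II z := by
    intro i
    rw [mem_II, eval_lin]
    exact congrFun hz i
  funext b
  have h1 : (Φ * ∏ i, lin (v i)) ∈ II z ^ ((List.ofFn b.succAbove).length + 1) := by
    rw [List.length_ofFn]
    have h2 : ∏ i, lin (v i) = (∏ i ∈ (univ.map ⟨f, hf⟩)ᶜ, lin (v i)) *
        ∏ i ∈ univ.map ⟨f, hf⟩, lin (v i) := (prod_compl_mul_prod _ _).symm
    rw [h2, prod_map]
    refine Ideal.mul_mem_left _ _ (Ideal.mul_mem_left _ _ ?_)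
    have h3 := prod_mem_II z univ (fun i => lin (v (f i))) (fun i _ => hzi i)
    rw [card_univ, Fintype.card_fin] at h3
    exact h3
  have h4 := DD_mem z _ 1 _ h1
  rw [pow_one, h b, mem_II, map_pow, eval_X] at h4
  exact pow_eq_zero_iff hq |>.1 h4

theorem crit_of_Gd [Fintype F] [CharP F 2] {v : Fin n → Fin (m + 2) → F} (hv : DetArc v) {t : ℕ}
    (hnt : n + t = Fintype.card F + m + 1) (ht : 2 * t ≤ Fintype.card F)
    {Φ : MvPolynomial (Fin (m + 2)) F} (hΦ : Φ.IsHomogeneous t)
    (hG : ∀ J : Finset (Fin n), J.card = m + 1 → Gd v Φ J) : Crit v Φ (Fintype.card F) := by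
  classical
  intro b
  obtain ⟨q', hq'⟩ : ∃ q', Fintype.card F = 2 * q' := by
    have h1 : (2 : ℕ) ∣ Fintype.card F := by
      rw [← CharP.cast_eq_zero_iff F 2, Nat.cast_card_eq_zero]
    exact h1
  have hq1 : 1 ≤ q' := by
    have := Fintype.card_pos (α := F)
    omega
  set G := Φ * ∏ i, lin (v i) with hGdef
  have hGhom : G.IsHomogeneous (t + n) := by
    refine hΦ.mul ?_
    have h1 : (∏ e, lin (v e)).IsHomogeneous (∑ e : Fin n, 1) :=
      IsHomogeneous.prod _ _ _ fun e _ => lin_hom (v e)
    simpa using h1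
  set L := List.ofFn b.succAbove with hL
  have hLlen : L.length = m + 1 := by rw [hL, List.length_ofFn]
  have hDhom : (DD L G).IsHomogeneous (2 * q') := by
    have h1 := DD_hom L hGhom
    rw [hLlen] at h1
    have h2 : t + n - (m + 1) = 2 * q' := by omega
    rwa [h2] at h1
  have hXhom : (X b ^ (2 * q') : MvPolynomial (Fin (m + 2)) F).IsHomogeneous (2 * q') := by
    simpa using (isHomogeneous_X F b).pow (2 * q')
  rw [hq']
  set p := DD L G - X b ^ (2 * q') with hp
  have hphom : p.IsHomogeneous (2 * q') := hDhom.sub hXhom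
  have hpeven' : ∀ s ∈ p.support, ∀ i, i ≠ b → Even (s i) := by
    intro s hs i hib
    rw [mem_support_iff, hp, coeff_sub] at hs
    by_cases h1 : coeff s (DD L G) = 0
    · rw [h1, zero_sub, neg_ne_zero, coeff_X_pow] at hs
      have h2 : Finsupp.single b (2 * q') = s := by
        by_contra h3
        rw [if_neg h3] at hs
        exact hs rfl
      rw [← h2, Finsupp.single_apply, if_neg (Ne.symm hib)]
      exact Even.zero
    · obtain ⟨j, hj⟩ := Fin.exists_succAbove_eq hib
      refine evenAt_DD L (i := i) G ?_ s (mem_support_iff.2 h1)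
      rw [hL, List.mem_ofFn]
      exact ⟨j, hj⟩
  have hpeven : ∀ s ∈ p.support, ∀ i, Even (s i) := by
    intro s hs i
    by_cases hib : i = b
    · subst hib
      have h1 := hom_deg hphom hs
      rw [Fin.sum_univ_succAbove _ i] at h1
      have h2 : Even (∑ j, s (i.succAbove j)) :=
        even_sum _ fun j _ => hpeven' s hs _ (Fin.succAbove_ne i j)
      have h3 : Even (s i + ∑ j, s (i.succAbove j)) := by
        rw [← h1]; exact even_two_mul q'
      exact (Nat.even_add.1 h3).2 h2
    · exact hpeven' s hs i hib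
  obtain ⟨K, hKhom, hK⟩ := exists_sqrt p q' hphom hpeven
  have hK0 : K = 0 := by
    apply vanish hv (d := q') (by omega) (by omega) hKhom
    intro J hJ
    have h1 : eval (zz v J) p = 0 := by
      rw [hp, map_sub, hGdef, hL, eval_DD_zz v Φ hJ b, map_pow, eval_X]
      have h2 := hG J hJ
      unfold Gd at h2
      rw [h2, mul_one, ← hq', FiniteField.pow_card, sub_self]
    rw [← hK, map_pow] at h1
    exact pow_eq_zero_iff (two_ne_zero) |>.1 h1
  rw [hK0, zero_pow two_ne_zero] at hK
  exact sub_eq_zero.1 hK.symm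

lemma zz_ne {v : Fin n → Fin (m + 2) → F} (hv : DetArc v) (hmn : m + 2 ≤ n)
    {J : Finset (Fin n)} (hJ : J.card = m + 1) : ∃ b, zz v J b ≠ 0 := by
  obtain ⟨s, hs⟩ : ∃ s : Fin n, s ∉ J := by
    by_contra hcon
    push Not at hcon
    have : J = univ := eq_univ_iff_forall.2 hcon
    rw [this, card_univ, Fintype.card_fin] at hJ
    omega
  by_contra hcon
  push Not at hcon
  apply hh_ne hv hJ hs
  rw [hh_eq]
  exact sum_eq_zero fun b _ => by rw [hcon b, mul_zero]

lemma Gd_of_crit [Fintype F] [CharP F 2] {v : Fin n → Fin (m + 2) → F} (hv : DetArc v)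
    (hmn : m + 2 ≤ n) {Φ : MvPolynomial (Fin (m + 2)) F} (h : Crit v Φ (Fintype.card F))
    {J : Finset (Fin n)} (hJ : J.card = m + 1) : Gd v Φ J := by
  obtain ⟨b, hb⟩ := zz_ne hv hmn hJ
  have h1 := eval_DD_zz v Φ hJ b
  rw [h b, map_pow, eval_X, FiniteField.pow_card] at h1
  unfold Gd
  have h2 : zz v J b * 1 = zz v J b * (eval (zz v J) Φ * ∏ e ∈ Jᶜ, hh v J (v e)) := by
    rw [mul_one]; exact h1
  exact (mul_left_cancel₀ hb h2).symm

theorem crit_unique [Fintype F] [CharP F 2] {v : Fin n → Fin (m + 2) → F} (hv : DetArc v) {t : ℕ}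
    (hnt : n + t = Fintype.card F + m + 1) (ht : 2 * t ≤ Fintype.card F)
    {Φ Φ' : MvPolynomial (Fin (m + 2)) F} (hΦ : Φ.IsHomogeneous t) (hΦ' : Φ'.IsHomogeneous t)
    (h : Crit v Φ (Fintype.card F)) (h' : Crit v Φ' (Fintype.card F)) : Φ = Φ' := by
  classical
  have hq1 : 1 < Fintype.card F := Fintype.one_lt_card
  have hmn : m + 2 ≤ n := by omega
  have h0 : Φ - Φ' = 0 := by
    apply vanish hv (d := t) (by omega) hmn (hΦ.sub hΦ')
    intro J hJ
    have h1 := Gd_of_crit hv hmn h hJ
    have h2 := Gd_of_crit hv hmn h' hJ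
    unfold Gd at h1 h2
    have h3 : ∏ e ∈ Jᶜ, hh v J (v e) ≠ 0 := by
      intro h4
      rw [h4, mul_zero] at h1
      exact zero_ne_one h1
    rw [map_sub, sub_eq_zero]
    exact mul_right_cancel₀ h3 (h1.trans h2.symm)
  exact sub_eq_zero.1 h0

theorem exists_crit [Fintype F] [CharP F 2] {v : Fin n → Fin (m + 2) → F} (hv : DetArc v) {t : ℕ}
    (hnt : n + t = Fintype.card F + m + 1) (ht : 2 * t ≤ Fintype.card F) :
    ∃ Φ : MvPolynomial (Fin (m + 2)) F, Φ.IsHomogeneous t ∧ Crit v Φ (Fintype.card F) := by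
  obtain ⟨Φ, hΦ, hG⟩ := exists_form hv hnt ht
  exact ⟨Φ, hΦ, crit_of_Gd hv hnt ht hΦ hG⟩

end Crit

section Coeff

variable {F : Type} [Field F]

lemma coeff_DD {k : ℕ} (l : List (Fin k)) : ∀ (_ : l.Nodup) (p : MvPolynomial (Fin k) F)
    (s : Fin k →₀ ℕ), coeff s (DD l p) =
      coeff (s + (l.map fun i => Finsupp.single i 1).sum) p * (l.map fun i => ((s i : F) + 1)).prod := by
  classical
  induction l with
  | nil => intro _ p s; simp [DD]
  | cons j l ih =>
    intro hl p s
    rw [List.nodup_cons] at hl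
    change coeff s (DD l (pderiv j p)) = _
    rw [ih hl.2, coeff_pderiv, List.map_cons, List.sum_cons, List.map_cons, List.prod_cons]
    have h1 : (s + (l.map fun i => (Finsupp.single i 1 : Fin k →₀ ℕ)).sum) j = s j := by
      rw [Finsupp.add_apply]
      have h2 : ∀ l' : List (Fin k), j ∉ l' →
          ((l'.map fun i => (Finsupp.single i 1 : Fin k →₀ ℕ)).sum) j = 0 := by
        intro l'
        induction l' with
        | nil => intro _; simp
        | cons a l' ih' =>
          intro h
          rw [List.mem_cons, not_or] at h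
          rw [List.map_cons, List.sum_cons, Finsupp.add_apply, ih' h.2,
            Finsupp.single_apply, if_neg (Ne.symm h.1)]
      rw [h2 l hl.1, add_zero]
    rw [h1, add_assoc s, add_comm _ (Finsupp.single j 1)]
    ring

lemma sum_list_apply {m : ℕ} (b i : Fin (m + 2)) :
    (((List.ofFn b.succAbove).map fun i => (Finsupp.single i 1 : Fin (m + 2) →₀ ℕ)).sum) i =
      if i = b then 0 else 1 := by
  classical
  rw [List.map_ofFn, List.sum_ofFn, Finsupp.finsetSum_apply]
  simp only [Function.comp_apply, Finsupp.single_apply]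
  by_cases h : i = b
  · subst h
    rw [if_pos rfl]
    exact sum_eq_zero fun j _ => if_neg (Fin.succAbove_ne i j)
  · rw [if_neg h]
    obtain ⟨j, rfl⟩ := Fin.exists_succAbove_eq h
    rw [sum_eq_single j]
    · rw [if_pos rfl]
    · intro j' _ hne
      rw [if_neg]
      intro h'
      exact hne (Fin.succAbove_right_injective h')
    · intro h'; exact absurd (mem_univ j) h'

/-- the mixed derivative in terms of the coefficients -/
lemma DD_eq_iff [CharP F 2] {m : ℕ} (b : Fin (m + 2)) (G : MvPolynomial (Fin (m + 2)) F) (q : ℕ) :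
    DD (List.ofFn b.succAbove) G = X b ^ q ↔
      ∀ s : Fin (m + 2) →₀ ℕ, (∀ i, i ≠ b → Odd (s i)) →
        coeff s G = if (∀ i, s i = if i = b then q else 1) then 1 else 0 := by
  classical
  have hnd : (List.ofFn b.succAbove).Nodup := List.nodup_ofFn.2 Fin.succAbove_right_injective
  set ε := ((List.ofFn b.succAbove).map fun i => (Finsupp.single i 1 : Fin (m + 2) →₀ ℕ)).sum with hε
  have hεa : ∀ i, ε i = if i = b then 0 else 1 := sum_list_apply b
  have hprod : ∀ s : Fin (m + 2) →₀ ℕ, ((List.ofFn b.succAbove).map fun i => ((s i : F) + 1)).prod =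
      if (∀ i, i ≠ b → Even (s i)) then 1 else 0 := by
    intro s
    rw [List.map_ofFn, List.prod_ofFn]
    simp only [Function.comp_apply]
    by_cases h : ∀ i, i ≠ b → Even (s i)
    · rw [if_pos h]
      refine prod_eq_one fun j _ => ?_
      have h1 := h _ (Fin.succAbove_ne b j)
      rw [(CharP.cast_eq_zero_iff F 2 _).2 h1.two_dvd, zero_add]
    · rw [if_neg h]
      push Not at h
      obtain ⟨i, hib, hi⟩ := h
      obtain ⟨j, rfl⟩ := Fin.exists_succAbove_eq hib
      refine prod_eq_zero (mem_univ j) ?_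
      have h2 : ((s (b.succAbove j) + 1 : ℕ) : F) = 0 := by
        rw [CharP.cast_eq_zero_iff F 2]
        exact (Nat.even_add_one.2 hi).two_dvd
      exact_mod_cast h2
  constructor
  · intro h s hs
    obtain ⟨s', rfl⟩ : ∃ s', s = s' + ε := by
      refine ⟨s - ε, (tsub_add_cancel_of_le ?_).symm⟩
      intro i
      rw [hεa]
      split_ifs with h1
      · exact Nat.zero_le _
      · exact (hs i h1).pos
    have h1 := congrArg (coeff s') h
    rw [coeff_DD _ hnd, ← hε, hprod, if_pos, mul_one, coeff_X_pow] at h1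
    · rw [h1]
      by_cases h2 : Finsupp.single b q = s'
      · rw [if_pos h2, if_pos]
        intro i
        rw [← h2, Finsupp.add_apply, hεa, Finsupp.single_apply]
        by_cases h3 : i = b
        · subst h3; simp
        · rw [if_neg (Ne.symm h3), if_neg h3, if_neg h3]
      · rw [if_neg h2, if_neg]
        intro h3
        apply h2
        ext i
        have h4 := h3 i
        rw [Finsupp.add_apply, hεa] at h4
        rw [Finsupp.single_apply]
        by_cases h5 : i = b
        · subst h5; simpa using h4.symm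
        · rw [if_neg (Ne.symm h5)]
          rw [if_neg h5, if_neg h5] at h4
          omega
    · intro i hi
      have h2 := hs i hi
      rw [Finsupp.add_apply, hεa, if_neg hi, Nat.odd_add_one, Nat.not_odd_iff_even] at h2
      exact h2
  · intro h
    ext s'
    rw [coeff_DD _ hnd, ← hε, hprod, coeff_X_pow]
    by_cases h1 : ∀ i, i ≠ b → Even (s' i)
    · rw [if_pos h1, mul_one, h (s' + ε)]
      · by_cases h2 : Finsupp.single b q = s'
        · rw [if_pos h2, if_pos]
          intro i
          rw [← h2, Finsupp.add_apply, hεa, Finsupp.single_apply]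
          by_cases h3 : i = b
          · subst h3; simp
          · rw [if_neg (Ne.symm h3), if_neg h3, if_neg h3]
        · rw [if_neg h2, if_neg]
          intro h3
          apply h2
          ext i
          have h4 := h3 i
          rw [Finsupp.add_apply, hεa] at h4
          rw [Finsupp.single_apply]
          by_cases h5 : i = b
          · subst h5; simpa using h4.symm
          · rw [if_neg (Ne.symm h5)]
            rw [if_neg h5, if_neg h5] at h4
            omega
      · intro i hi
        rw [Finsupp.add_apply, hεa, if_neg hi]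
        exact (h1 i hi).add_one
    · rw [if_neg h1, mul_zero, if_neg]
      intro h2
      apply h1
      intro i hi
      rw [← h2, Finsupp.single_apply, if_neg (Ne.symm hi)]
      exact Even.zero

end Coeff

end L5H33.EV
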