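import Mathlib

/-!
# Forms, lines, mixed partial derivatives in characteristic two
-/

set_option autoImplicit false

open Finset MvPolynomial

namespace L5H33.EV

section Line

variable {K : Type} [Field K] {k : ℕ}

/-- the linear form with the coefficients `a` -/
noncomputable def lin (a : Fin k → K) : MvPolynomial (Fin k) K := ∑ j, C (a j) * X j

lemma eval_lin (a z : Fin k → K) : eval z (lin a) = ∑ j, a j * z j := by
  simp [lin]

lemma lin_hom (a : Fin k → K) : (lin a).IsHomogeneous 1 := by
  refine IsHomogeneous.sum _ _ _ fun j _ => ?_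
  simpa using (isHomogeneous_C (Fin k) (a j)).mul (isHomogeneous_X K j)

lemma pderiv_lin (a : Fin k → K) (i : Fin k) : pderiv i (lin a) = C (a i) := by
  classical
  simp [lin, Pi.single_apply]

/-- the restriction of `Φ` to the line `a + u b` -/
noncomputable def lineP (Φ : MvPolynomial (Fin k) K) (a b : Fin k → K) : Polynomial K :=
  aeval (fun i => Polynomial.C (a i) + Polynomial.C (b i) * Polynomial.X) Φ

lemma lineP_eval (Φ : MvPolynomial (Fin k) K) (a b : Fin k → K) (u : K) :
    (lineP Φ a b).eval u = eval (fun i => a i + b i * u) Φ := by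
  unfold lineP
  induction Φ using MvPolynomial.induction_on with
  | C c => simp
  | add p q hp hq => rw [map_add, Polynomial.eval_add, hp, hq, map_add]
  | mul_X p i hp => rw [map_mul, Polynomial.eval_mul, hp, map_mul]; simp

lemma prod_line (a b : Fin k → K) (s : Fin k → ℕ) (S : Finset (Fin k)) :
    (∏ i ∈ S, (Polynomial.C (a i) + Polynomial.C (b i) * Polynomial.X) ^ s i).natDegree
      ≤ ∑ i ∈ S, s i ∧
    (∏ i ∈ S, (Polynomial.C (a i) + Polynomial.C (b i) * Polynomial.X) ^ s i).coeff
      (∑ i ∈ S, s i) = ∏ i ∈ S, b i ^ s i := by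
  classical
  induction S using Finset.induction_on with
  | empty => simp
  | insert i S hi ih =>
    rw [prod_insert hi, sum_insert hi, prod_insert hi]
    have h1 : (Polynomial.C (a i) + Polynomial.C (b i) * Polynomial.X).natDegree ≤ 1 := by
      compute_degree
    have h2 : ((Polynomial.C (a i) + Polynomial.C (b i) * Polynomial.X) ^ s i).natDegree
        ≤ s i := by
      simpa using Polynomial.natDegree_pow_le_of_le (s i) h1
    have h3 : ((Polynomial.C (a i) + Polynomial.C (b i) * Polynomial.X) ^ s i).coeff (s i)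
        = b i ^ s i := by
      have := Polynomial.coeff_pow_of_natDegree_le (m := s i) h1
      simpa using this
    exact ⟨Polynomial.natDegree_mul_le_of_le h2 ih.1, by
      rw [Polynomial.coeff_mul_add_eq_of_natDegree_le h2 ih.1, h3, ih.2]⟩

lemma hom_deg {Φ : MvPolynomial (Fin k) K} {t : ℕ} (h : Φ.IsHomogeneous t) {s : Fin k →₀ ℕ}
    (hs : s ∈ Φ.support) : t = ∑ i, s i := by
  rw [h.degree_eq_sum_deg_support hs]
  exact Finset.sum_subset (subset_univ _) fun i _ hi => Finsupp.notMem_support_iff.1 hi

lemma lineP_sum (Φ : MvPolynomial (Fin k) K) (a b : Fin k → K) :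
    lineP Φ a b = ∑ s ∈ Φ.support, Polynomial.C (coeff s Φ) *
      ∏ i, (Polynomial.C (a i) + Polynomial.C (b i) * Polynomial.X) ^ s i := by
  unfold lineP
  rw [aeval_def, eval₂_eq']
  rfl

lemma lineP_deg {Φ : MvPolynomial (Fin k) K} {t : ℕ} (h : Φ.IsHomogeneous t)
    (a b : Fin k → K) : (lineP Φ a b).natDegree ≤ t := by
  rw [lineP_sum]
  refine Polynomial.natDegree_sum_le_of_forall_le _ _ fun s hs => ?_
  have h1 := hom_deg h hs
  refine (Polynomial.natDegree_C_mul_le _ _).trans ((prod_line a b s univ).1.trans ?_)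
  rw [h1]

lemma lineP_coeff {Φ : MvPolynomial (Fin k) K} {t : ℕ} (h : Φ.IsHomogeneous t)
    (a b : Fin k → K) : (lineP Φ a b).coeff t = eval b Φ := by
  rw [lineP_sum, Polynomial.finsetSum_coeff, eval_eq']
  refine sum_congr rfl fun s hs => ?_
  have h1 := hom_deg h hs
  rw [Polynomial.coeff_C_mul, h1, (prod_line a b s univ).2]

end Line

section Even

variable {F : Type} [Field F] {k : ℕ}

lemma exists_sqrt [CharP F 2] [Finite F] (p : MvPolynomial (Fin k) F) (d : ℕ)
    (hp : p.IsHomogeneous (2 * d)) (he : ∀ s ∈ p.support, ∀ i, Even (s i)) :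
    ∃ h : MvPolynomial (Fin k) F, h.IsHomogeneous d ∧ h ^ 2 = p := by
  classical
  have hsq : ∀ c : F, ∃ r : F, r ^ 2 = c := by
    intro c
    obtain ⟨r, hr⟩ := FiniteField.isSquare_of_char_two (ringChar.eq F 2) c
    exact ⟨r, by rw [hr, sq]⟩
  choose r hr using hsq
  refine ⟨∑ s ∈ p.support, monomial (s.mapRange (· / 2) rfl) (r (coeff s p)), ?_, ?_⟩
  · refine IsHomogeneous.sum _ _ _ fun s hs => ?_
    apply isHomogeneous_monomial
    have h1 := hom_deg hp hs
    rw [Finsupp.degree_eq_sum]
    have h2 : ∀ i, s i = 2 * (s i / 2) := fun i => by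
      obtain ⟨c, hc⟩ := he s hs i
      omega
    have h3 : ∑ i, s i = 2 * ∑ i, s i / 2 := by
      rw [mul_sum]
      exact sum_congr rfl fun i _ => h2 i
    have h4 : ∑ i, (s.mapRange (· / 2) rfl) i = ∑ i, s i / 2 := by
      refine sum_congr rfl fun i _ => ?_
      simp
    rw [h4]
    omega
  · have : Fact (Nat.Prime 2) := ⟨Nat.prime_two⟩
    rw [sum_pow_char]
    conv_rhs => rw [p.as_sum]
    refine sum_congr rfl fun s hs => ?_
    have h5 : 2 • (s.mapRange (· / 2) rfl : Fin k →₀ ℕ) = s := Finsupp.ext fun i => by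
      obtain ⟨c, hc⟩ := he s hs i
      rw [Finsupp.smul_apply, Finsupp.mapRange_apply, smul_eq_mul]
      omega
    rw [monomial_pow, hr, h5]

/-- all exponents of the variable `i` are even -/
def EvenAt (i : Fin k) (p : MvPolynomial (Fin k) F) : Prop := ∀ s ∈ p.support, Even (s i)

lemma evenAt_pderiv [CharP F 2] (i : Fin k) (p : MvPolynomial (Fin k) F) : EvenAt i (pderiv i p) := by
  intro s hs
  rw [mem_support_iff, coeff_pderiv] at hs
  by_contra hodd
  rw [Nat.not_even_iff_odd] at hodd
  apply hs
  obtain ⟨c, hc⟩ := hodd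
  have : ((s i : F) + 1) = 0 := by
    have h2 : ((s i + 1 : ℕ) : F) = 0 := by
      rw [CharP.cast_eq_zero_iff F 2]
      omega
    exact_mod_cast h2
  rw [this, mul_zero]

lemma evenAt_pderiv_of [CharP F 2] {i j : Fin k} {p : MvPolynomial (Fin k) F} (h : EvenAt i p) :
    EvenAt i (pderiv j p) := by
  by_cases hij : j = i
  · subst hij
    exact evenAt_pderiv j p
  · intro s hs
    rw [mem_support_iff, coeff_pderiv] at hs
    have h1 : s + Finsupp.single j 1 ∈ p.support := by
      rw [mem_support_iff]
      intro h0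
      rw [h0, zero_mul] at hs
      exact hs rfl
    have h2 := h _ h1
    rw [Finsupp.add_apply, Finsupp.single_apply, if_neg hij, add_zero] at h2
    exact h2

/-- the iterated partial derivative -/
noncomputable def DD (l : List (Fin k)) (p : MvPolynomial (Fin k) F) : MvPolynomial (Fin k) F :=
  l.foldl (fun p i => pderiv i p) p

lemma evenAt_DD_of [CharP F 2] (l : List (Fin k)) : ∀ {i : Fin k} {p : MvPolynomial (Fin k) F},
    EvenAt i p → EvenAt i (DD l p) := by
  induction l with
  | nil => intro i p h; exact h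
  | cons j l ih => intro i p h; exact ih (evenAt_pderiv_of h)

lemma evenAt_DD [CharP F 2] (l : List (Fin k)) : ∀ {i : Fin k} (p : MvPolynomial (Fin k) F),
    i ∈ l → EvenAt i (DD l p) := by
  induction l with
  | nil => intro i p h; simp at h
  | cons j l ih =>
    intro i p h
    by_cases hij : i = j
    · subst hij
      exact evenAt_DD_of l (evenAt_pderiv i p)
    · exact ih _ (by simpa [hij] using h)

lemma DD_hom (l : List (Fin k)) : ∀ {p : MvPolynomial (Fin k) F} {d : ℕ},
    p.IsHomogeneous d → (DD l p).IsHomogeneous (d - l.length) := by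
  induction l with
  | nil => intro p d h; exact h
  | cons j l ih =>
    intro p d h
    have := ih (p := pderiv j p) (d := d - 1) (IsHomogeneous.pderiv h)
    rw [List.length_cons, add_comm, ← Nat.sub_sub]
    exact this

lemma DD_add (l : List (Fin k)) : ∀ (p p' : MvPolynomial (Fin k) F),
    DD l (p + p') = DD l p + DD l p' := by
  induction l with
  | nil => intro p p'; rfl
  | cons j l ih =>
    intro p p'
    change DD l (pderiv j (p + p')) = DD l (pderiv j p) + DD l (pderiv j p')
    rw [map_add, ih]

lemma DD_C_mul (l : List (Fin k)) : ∀ (c : F) (p : MvPolynomial (Fin k) F),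
    DD l (C c * p) = C c * DD l p := by
  induction l with
  | nil => intro c p; rfl
  | cons j l ih =>
    intro c p
    change DD l (pderiv j (C c * p)) = C c * DD l (pderiv j p)
    rw [pderiv_C_mul, ih]

lemma DD_zero (l : List (Fin k)) : DD l (0 : MvPolynomial (Fin k) F) = 0 := by
  have := DD_C_mul l (0 : F) 0
  simpa using this

lemma DD_sum (l : List (Fin k)) {ι : Type} (s : Finset ι) (f : ι → MvPolynomial (Fin k) F) :
    DD l (∑ i ∈ s, f i) = ∑ i ∈ s, DD l (f i) := by
  classical
  induction s using Finset.induction_on with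
  | empty => simp [DD_zero]
  | insert i s hi ih => rw [sum_insert hi, sum_insert hi, DD_add, ih]

/-- the ideal of the point `z` -/
noncomputable def II (z : Fin k → F) : Ideal (MvPolynomial (Fin k) F) := RingHom.ker (eval z)

lemma mem_II {z : Fin k → F} {p : MvPolynomial (Fin k) F} : p ∈ II z ↔ eval z p = 0 :=
  RingHom.mem_ker

lemma pd_pow (z : Fin k → F) (i : Fin k) (r : ℕ) : ∀ p ∈ II z ^ (r + 1), pderiv i p ∈ II z ^ r := by
  induction r with
  | zero => intro p _; simp
  | succ r ih =>
    intro p hp
    rw [pow_succ] at hp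
    refine Submodule.mul_induction_on hp ?_ ?_
    · intro a ha b hb
      rw [pderiv_mul]
      refine Ideal.add_mem _ ?_ ?_
      · rw [pow_succ]
        exact Ideal.mul_mem_mul (ih a ha) hb
      · exact Ideal.mul_mem_right _ _ ha
    · intro a b ha hb
      rw [map_add]
      exact Ideal.add_mem _ ha hb

lemma DD_mem (z : Fin k → F) (l : List (Fin k)) : ∀ (r : ℕ) (p : MvPolynomial (Fin k) F),
    p ∈ II z ^ (l.length + r) → DD l p ∈ II z ^ r := by
  induction l with
  | nil =>
    intro r p h
    change p ∈ _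
    simpa using h
  | cons j l ih =>
    intro r p h
    refine ih r _ (pd_pow z j _ p ?_)
    rw [List.length_cons] at h
    convert h using 2
    ring

lemma pderiv_prod (j : Fin k) (r : ℕ) : ∀ f : Fin (r + 1) → MvPolynomial (Fin k) F,
    pderiv j (∏ i, f i) = ∑ i, pderiv j (f i) * ∏ i' : Fin r, f (i.succAbove i') := by
  induction r with
  | zero => intro f; simp
  | succ r ih =>
    intro f
    rw [Fin.prod_univ_succ, pderiv_mul, ih]
    conv_rhs => rw [Fin.sum_univ_succ]
    congr 1
    rw [mul_sum]
    refine sum_congr rfl fun i _ => ?_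
    rw [Fin.prod_univ_succ (fun i' : Fin (r + 1) => f (i.succ.succAbove i'))]
    simp only [Fin.succ_succAbove_zero, Fin.succ_succAbove_succ]
    ring

lemma prod_mem_II (z : Fin k → F) {ι : Type} (s : Finset ι) (f : ι → MvPolynomial (Fin k) F)
    (h : ∀ i ∈ s, f i ∈ II z) : ∏ i ∈ s, f i ∈ II z ^ s.card := by
  rw [← prod_const]
  exact Ideal.prod_mem_prod h

/-- the value of the mixed derivative at a common zero of the linear forms -/
theorem eval_DD [CharP F 2] (z : Fin k → F) (r : ℕ) : ∀ (c : Fin r → Fin k → F) (J : Fin r → Fin k)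
    (A : MvPolynomial (Fin k) F), (∀ i, ∑ j, c i j * z j = 0) →
    eval z (DD (List.ofFn J) (A * ∏ i, lin (c i))) =
      eval z A * (Matrix.of fun i j => c i (J j)).det := by
  induction r with
  | zero => intro c J A _; simp [DD]
  | succ r ih =>
    intro c J A h
    have hI : ∀ i, lin (c i) ∈ II z := fun i => by rw [mem_II, eval_lin]; exact h i
    rw [List.ofFn_succ]
    change eval z (DD (List.ofFn fun i => J i.succ) (pderiv (J 0) (A * ∏ i, lin (c i)))) = _
    rw [pderiv_mul, DD_add, map_add]
    have h1 : eval z (DD (List.ofFn fun i => J i.succ)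
        (pderiv (J 0) A * ∏ i, lin (c i))) = 0 := by
      rw [← mem_II, ← pow_one (II z)]
      apply DD_mem
      rw [List.length_ofFn]
      refine Ideal.mul_mem_left _ _ ?_
      have := prod_mem_II z univ (fun i => lin (c i)) (fun i _ => hI i)
      simpa using this
    have h2 : A * pderiv (J 0) (∏ i, lin (c i)) = ∑ i, C (c i (J 0)) *
        (A * ∏ i' : Fin r, lin (c (i.succAbove i'))) := by
      rw [pderiv_prod, mul_sum]
      refine sum_congr rfl fun i _ => ?_
      rw [pderiv_lin]
      ring
    rw [h1, h2, zero_add, DD_sum, map_sum, Matrix.det_succ_column_zero, mul_sum]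
    refine sum_congr rfl fun i _ => ?_
    rw [DD_C_mul, map_mul, eval_C, ih (fun i' => c (i.succAbove i')) (fun i => J i.succ) A
      (fun i' => h _)]
    have h3 : ((-1 : F)) ^ (i : ℕ) = 1 := by rw [CharTwo.neg_eq, one_pow]
    rw [h3]
    simp only [Matrix.of_apply, one_mul]
    have h4 : (Matrix.of fun i j => c i (J j)).submatrix i.succAbove Fin.succ
        = Matrix.of fun (i' : Fin r) (j : Fin r) => c (i.succAbove i') (J j.succ) := rfl
    rw [h4]
    ring

end Even

end L5H33.EV
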