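import Pool.Agent.L5helper33.EvArc

/-!
# Existence and uniqueness of the tangent form
-/

set_option autoImplicit false

open Finset MvPolynomial
open Pool.Agent.W865 (hF hB hF_apply hF_perm hF_self hB_add_left hB_smul_left hB_self hB_mem_left
  hB_swap hB_pluecker DetArc exists_perm)

namespace L5H33.EV

section Exist

variable {F : Type} [Field F] [Fintype F] [CharP F 2] {n m : ℕ}

omit [Fintype F] [CharP F 2] in
lemma eval_zz_lin (v : Fin n → Fin (m + 2) → F) (C : Finset (Fin n)) (w : Fin (m + 2) → F) :
    eval (zz v C) (lin w) = hh v C w := by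
  rw [eval_lin, hh_eq]

/-- the interpolation form -/
lemma exists_base {v : Fin n → Fin (m + 2) → F} (hv : DetArc v) {t : ℕ} {E : Finset (Fin n)}
    (hE : E.card = t + m + 1) :
    ∃ Φ : MvPolynomial (Fin (m + 2)) F, Φ.IsHomogeneous t ∧
      ∀ C, C.card = m + 1 → C ⊆ E → Gd v Φ C := by
  classical
  refine ⟨∑ J ∈ powersetCard (m + 1) E, C ((∏ e ∈ Jᶜ, hh v J (v e))⁻¹ *
    (∏ e ∈ E \ J, hh v J (v e))⁻¹) * ∏ e ∈ E \ J, lin (v e), ?_, ?_⟩
  · refine IsHomogeneous.sum _ _ _ fun J hC => ?_
    rw [mem_powersetCard] at hC
    have h1 : (∏ e ∈ E \ J, lin (v e)).IsHomogeneous (∑ e ∈ E \ J, 1) :=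
      IsHomogeneous.prod _ _ _ fun e _ => lin_hom (v e)
    have h2 : ∑ e ∈ E \ J, 1 = t := by
      rw [← card_eq_sum_ones, card_sdiff_of_subset hC.1, hE, hC.2]
      omega
    rw [h2] at h1
    have h3 : ∀ c : F, (C c * ∏ e ∈ E \ J, lin (v e)).IsHomogeneous t := by
      intro c
      have h4 := (isHomogeneous_C (Fin (m + 2)) c).mul h1
      rwa [zero_add] at h4
    exact h3 _
  · intro C0 hC0 hsub
    unfold Gd
    rw [map_sum, sum_eq_single C0]
    · rw [map_mul, eval_C, map_prod, prod_congr rfl fun e _ => eval_zz_lin v C0 (v e)]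
      have h1 : ∏ e ∈ E \ C0, hh v C0 (v e) ≠ 0 :=
        prod_ne_zero_iff.2 fun e he => hh_ne hv hC0 (mem_sdiff.1 he).2
      have h2 : ∏ e ∈ C0ᶜ, hh v C0 (v e) ≠ 0 :=
        prod_ne_zero_iff.2 fun e he => hh_ne hv hC0 (mem_compl.1 he)
      field_simp
    · intro C hC hne
      rw [mem_powersetCard] at hC
      have h3 : ¬ C0 ⊆ C := fun h => hne (eq_of_subset_of_card_le h (by rw [hC0, hC.2])).symm
      obtain ⟨e, he, hec⟩ := not_subset.1 h3
      have h4 : eval (zz v C0) (∏ e ∈ E \ C, lin (v e)) = 0 := by
        rw [map_prod]
        exact prod_eq_zero (i := e) (mem_sdiff.2 ⟨hsub he, hec⟩)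
          (by rw [eval_zz_lin, hh_mem v he])
      rw [map_mul, h4, mul_zero]
    · intro h
      exact absurd (mem_powersetCard.2 ⟨hsub, hC0⟩) h

theorem exists_form {v : Fin n → Fin (m + 2) → F} (hv : DetArc v) {t : ℕ}
    (hnt : n + t = Fintype.card F + m + 1) (ht : 2 * t ≤ Fintype.card F) :
    ∃ Φ : MvPolynomial (Fin (m + 2)) F, Φ.IsHomogeneous t ∧
      ∀ C, C.card = m + 1 → Gd v Φ C := by
  classical
  have h1 : t + m + 1 ≤ (univ : Finset (Fin n)).card := by
    rw [card_univ, Fintype.card_fin]
    omega
  obtain ⟨E, -, hE⟩ := exists_subset_card_eq h1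
  obtain ⟨Φ, hΦ, hG⟩ := exists_base hv hE
  refine ⟨Φ, hΦ, ?_⟩
  have key : ∀ r : ℕ, ∀ C : Finset (Fin n), C.card = m + 1 → (C \ E).card = r → Gd v Φ C := by
    intro r
    induction r using Nat.strong_induction_on with
    | _ r ih =>
      intro C hC hr
      rcases Nat.eq_zero_or_pos r with h0 | hpos
      · refine hG C hC ?_
        rw [h0, card_eq_zero, sdiff_eq_empty_iff_subset] at hr
        exact hr
      · have hne : (C \ E).Nonempty := card_pos.1 (by omega)
        obtain ⟨y, hy⟩ := hne
        rw [mem_sdiff] at hy
        have hD : (C.erase y).card = m := by rw [card_erase_of_mem hy.1, hC]; omega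
        have hCe : C = insert y (C.erase y) := (insert_erase hy.1).symm
        rw [hCe]
        refine step hv hnt hΦ hD (notMem_erase y C) (E0 := E \ C.erase y) ?_ ?_ ?_
        · intro e he
          rw [mem_sdiff] at he
          exact ⟨he.2, fun h => hy.2 (h ▸ he.1)⟩
        · have h2 := le_card_sdiff (C.erase y) E
          omega
        · intro e he
          rw [mem_sdiff] at he
          refine ih ((insert e (C.erase y)) \ E).card ?_ _ ?_ rfl
          · rw [insert_sdiff_of_mem _ he.1]
            have h3 : (C.erase y) \ E = (C \ E).erase y := by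
              ext a
              simp only [mem_sdiff, mem_erase]
              tauto
            rw [h3, card_erase_of_mem (mem_sdiff.2 hy)]
            omega
          · rw [card_insert_of_notMem he.2, hD]
  exact fun C hC => key _ C hC rfl

end Exist

section Vanish

/-- the statement over an infinite field -/
theorem vanish_inf {K : Type} [Field K] [Infinite K] {n m : ℕ} {w : Fin n → Fin (m + 2) → K}
    (hw : DetArc w) {d : ℕ} (hd : d + m < n) (hmn : m + 2 ≤ n)
    {P : MvPolynomial (Fin (m + 2)) K} (hP : P.IsHomogeneous d)
    (h0 : ∀ C, C.card = m + 1 → eval (zz w C) P = 0) : P = 0 := by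
  classical
  have hC : ∀ (S : Finset (Fin n)) (e : Fin n), S.card ≤ m + 1 → e ∉ S →
      ∃ C : Finset (Fin n), S ⊆ C ∧ C.card = m + 1 ∧ e ∉ C := by
    intro S e hS he
    have h1 : S ⊆ univ.erase e := fun a ha => mem_erase.2 ⟨fun h => he (h ▸ ha), mem_univ a⟩
    obtain ⟨C, hSC, hCe, hCc⟩ := exists_subsuperset_card_eq h1 hS
      (by rw [card_erase_of_mem (mem_univ e), card_univ, Fintype.card_fin]; omega)
    exact ⟨C, hSC, hCc, fun h => notMem_erase e _ (hCe h)⟩
  have key : ∀ r : ℕ, r ≤ m + 1 → ∀ J : Finset (Fin n), J.card = m + 1 - r →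
      ∀ x : Fin (m + 2) → K, (∀ i ∈ J, ∑ j, w i j * x j = 0) → eval x P = 0 := by
    intro r
    induction r with
    | zero =>
      intro _ J hJ x hx
      rw [Nat.sub_zero] at hJ
      -- a vector outside
      obtain ⟨s, hs⟩ : ∃ s : Fin n, s ∉ J := by
        by_contra hcon
        push Not at hcon
        have : J = univ := eq_univ_iff_forall.2 hcon
        rw [this, card_univ, Fintype.card_fin] at hJ
        omega
      have hzne : ∃ b, zz w J b ≠ 0 := by
        by_contra hcon
        push Not at hcon
        apply hh_ne hw hJ hs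
        rw [hh_eq]
        exact sum_eq_zero fun b _ => by rw [hcon b, mul_zero]
      obtain ⟨b, hb⟩ := hzne
      have hmin : ∀ a, x b * zz w J a = x a * zz w J b := by
        intro a
        by_cases hx0 : x = 0
        · simp [hx0]
        have hdet : hh w J (fun j => x b * (Pi.single a 1 : Fin (m + 2) → K) j
            - x a * (Pi.single b 1 : Fin (m + 2) → K) j) = 0 := by
          rw [hh, dif_pos hJ, hF_apply]
          apply Matrix.exists_mulVec_eq_zero_iff.1
          refine ⟨x, hx0, ?_⟩
          funext i
          refine Fin.cases ?_ (fun i => ?_) i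
          · change ∑ j, (x b * (Pi.single a 1 : Fin (m + 2) → K) j -
                x a * (Pi.single b 1 : Fin (m + 2) → K) j) * x j = 0
            simp only [sub_mul, sum_sub_distrib, Pi.single_apply, mul_ite, mul_one, mul_zero,
              ite_mul, zero_mul, sum_ite_eq', mem_univ, if_true]
            ring
          · have h5 := hx _ (Finset.orderEmbOfFin_mem J hJ i)
            simpa [Matrix.mulVec, dotProduct] using h5
        have h6 : (fun j => x b * (Pi.single a 1 : Fin (m + 2) → K) j
            - x a * (Pi.single b 1 : Fin (m + 2) → K) j) =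
            x b • (Pi.single a 1 : Fin (m + 2) → K) - x a • (Pi.single b 1 : Fin (m + 2) → K) := by
          funext j; simp
        rw [h6, map_sub, map_smul, map_smul] at hdet
        exact sub_eq_zero.1 hdet
      have hxe : x = fun a => (x b * (zz w J b)⁻¹) * zz w J a := by
        funext a
        have := hmin a
        field_simp
        rw [this]
      rw [hxe, eval_smul_hom hP, h0 J hJ, mul_zero]
    | succ r ih =>
      intro hr J hJ x hx
      have hJm : J.card ≤ m := by omega
      have hJr : ∀ e, e ∉ J → (insert e J).card = m + 1 - r := fun e he => by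
        rw [card_insert_of_notMem he, hJ]; omega
      by_cases hex : ∃ e, e ∉ J ∧ ∑ j, w e j * x j = 0
      · obtain ⟨e, he, hex⟩ := hex
        refine ih (by omega) (insert e J) (hJr e he) x ?_
        intro i hi
        rcases mem_insert.1 hi with rfl | hi
        · exact hex
        · exact hx i hi
      · push Not at hex
        set L : Fin n → Module.Dual K (Fin (m + 2) → K) := fun e =>
          ∑ j, w e j • (LinearMap.proj j : (Fin (m + 2) → K) →ₗ[K] K) with hL
        have hLa : ∀ e y, L e y = ∑ j, w e j * y j := by
          intro e y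
          simp [hL]
        have hLz : ∀ e C, L e (zz w C) = hh w C (w e) := by
          intro e C
          rw [hLa, hh_eq]
        set p : Submodule K (Fin (m + 2) → K) := ⨅ i ∈ J, LinearMap.ker (L i) with hp
        have hpm : ∀ y, y ∈ p ↔ ∀ i ∈ J, L i y = 0 := by
          intro y
          simp [hp, Submodule.mem_iInf]
        set f : ({e : Fin n // e ∉ J} × {e : Fin n // e ∉ J}) → Module.Dual K (Fin (m + 2) → K) :=
          fun e => if e.1 = e.2 then L e.1 else (L e.1 x) • L e.2 - (L e.2 x) • L e.1 with hf
        have hfne : ∀ e, ∃ y ∈ p, f e y ≠ 0 := by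
          rintro ⟨⟨e, he⟩, ⟨e', he'⟩⟩
          by_cases hee : e = e'
          · subst hee
            obtain ⟨C, hJC, hCc, heC⟩ := hC J e (by omega) he
            refine ⟨zz w C, (hpm _).2 fun i hi => ?_, ?_⟩
            · rw [hLz, hh_mem w (hJC hi)]
            · simp only [hf, if_true]
              rw [hLz]
              exact hh_ne hw hCc heC
          · obtain ⟨C, hJC, hCc, heC⟩ := hC (insert e J) e'
              (by rw [card_insert_of_notMem he]; omega)
              (by rw [mem_insert]; rintro (h | h); exacts [hee h.symm, he' h])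
            refine ⟨zz w C, (hpm _).2 fun i hi => ?_, ?_⟩
            · rw [hLz, hh_mem w (hJC (mem_insert_of_mem hi))]
            · have h7 : ¬ ((⟨e, he⟩ : {e : Fin n // e ∉ J}) = ⟨e', he'⟩) := fun h =>
                hee (Subtype.mk.inj h)
              simp only [hf, if_neg h7]
              rw [LinearMap.sub_apply, LinearMap.smul_apply, LinearMap.smul_apply, hLz e C,
                hh_mem w (hJC (mem_insert_self e J)), smul_zero, sub_zero, hLz, smul_eq_mul, hLa]
              exact mul_ne_zero (hex e he) (hh_ne hw hCc heC)
        obtain ⟨y, hyp, hy⟩ := Module.Dual.exists_forall_mem_ne_zero_of_forall_exists p f hfne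
        rw [hpm] at hyp
        have hLy : ∀ e, e ∉ J → L e y ≠ 0 := by
          intro e he
          have := hy (⟨e, he⟩, ⟨e, he⟩)
          simpa [hf] using this
        have hLy2 : ∀ e e', e ∉ J → e' ∉ J → e ≠ e' → L e x * L e' y - L e' x * L e y ≠ 0 := by
          intro e e' he he' hne
          have := hy (⟨e, he⟩, ⟨e', he'⟩)
          have h7 : ¬ ((⟨e, he⟩ : {e : Fin n // e ∉ J}) = ⟨e', he'⟩) := fun h =>
                hne (Subtype.mk.inj h)
          simp only [hf, if_neg h7] at this
          simpa using this
        have hzero : lineP P x y = 0 := by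
          apply Polynomial.eq_zero_of_natDegree_lt_card_of_eval_eq_zero' _
            ((Jᶜ).image fun e => - (L e x / L e y))
          · intro a ha
            obtain ⟨e, he, rfl⟩ := mem_image.1 ha
            rw [mem_compl] at he
            rw [lineP_eval]
            refine ih (by omega) (insert e J) (hJr e he) _ ?_
            intro i hi
            have h8 : ∑ j, w i j * (x j + y j * (- (L e x / L e y))) =
                L i x + L i y * (- (L e x / L e y)) := by
              rw [hLa i x, hLa i y, sum_mul, ← sum_add_distrib]
              refine sum_congr rfl fun j _ => ?_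
              ring
            rw [h8]
            rcases mem_insert.1 hi with rfl | hi
            · have h9 := hLy i he
              field_simp
              ring
            · rw [hyp i hi, hLa, hx i hi]
              ring
          · rw [card_image_of_injOn]
            · rw [card_compl, Fintype.card_fin]
              have := lineP_deg hP x y
              omega
            · intro e he e' he' h
              simp only [coe_compl, Set.mem_compl_iff, mem_coe] at he he'
              by_contra hne
              apply hLy2 e e' he he' hne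
              have h9 := hLy e he
              have h10 := hLy e' he'
              simp only [neg_inj] at h
              rw [div_eq_div_iff h9 h10] at h
              rw [h]
              ring
        have h11 := lineP_eval P x y 0
        rw [hzero] at h11
        simpa using h11.symm
  apply MvPolynomial.funext
  intro x
  rw [map_zero]
  refine key (m + 1) le_rfl ∅ (by simp) x ?_
  intro i hi
  simp at hi

lemma hh_map {F K : Type} [Field F] [Field K] (ι : F →+* K) {n m : ℕ}
    (v : Fin n → Fin (m + 2) → F) (C : Finset (Fin n)) (x : Fin (m + 2) → F) :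
    hh (fun i j => ι (v i j)) C (fun j => ι (x j)) = ι (hh v C x) := by
  unfold hh
  split_ifs with h
  · rw [hF_apply, hF_apply]
    change Matrix.det _ = ι (Matrix.det _)
    rw [RingHom.map_det]
    congr 1
    ext i j
    refine Fin.cases ?_ (fun i => ?_) i <;> rfl
  · simp

lemma zz_map {F K : Type} [Field F] [Field K] (ι : F →+* K) {n m : ℕ}
    (v : Fin n → Fin (m + 2) → F) (C : Finset (Fin n)) :
    zz (fun i j => ι (v i j)) C = fun b => ι (zz v C b) := by
  funext b
  unfold zz
  rw [← hh_map ι v C]
  congr 1
  funext j
  by_cases h : j = b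
  · subst h; simp
  · rw [Pi.single_eq_of_ne h, Pi.single_eq_of_ne h, map_zero]

lemma detArc_map {F K : Type} [Field F] [Field K] (ι : F →+* K) {n m : ℕ}
    {v : Fin n → Fin (m + 2) → F} (hv : DetArc v) :
    DetArc (fun i j => ι (v i j)) := by
  intro f hf
  have h1 := hv f hf
  intro h2
  apply h1
  apply ι.injective
  rw [map_zero, RingHom.map_det, ← h2]
  rfl

/-- a form of small degree vanishing at all the points `zz v C` is zero -/
theorem vanish {F : Type} [Field F] {n m : ℕ} {v : Fin n → Fin (m + 2) → F}
    (hv : DetArc v) {d : ℕ} (hd : d + m < n) (hmn : m + 2 ≤ n)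
    {P : MvPolynomial (Fin (m + 2)) F} (hP : P.IsHomogeneous d)
    (h0 : ∀ C, C.card = m + 1 → eval (zz v C) P = 0) : P = 0 := by
  set ι := algebraMap F (AlgebraicClosure F) with hι
  have h1 : MvPolynomial.map ι P = 0 := by
    apply vanish_inf (detArc_map ι hv) hd hmn (hP.map ι)
    intro C hC
    rw [zz_map, eval_map]
    have h2 := h0 C hC
    have h3 : eval₂ ι (fun b => ι (zz v C b)) P = ι (eval (zz v C) P) := by
      have h4 := eval₂_comp_left ι (RingHom.id F) (zz v C) P
      rw [RingHom.comp_id] at h4
      exact h4.symm
    rw [h3, h2, map_zero]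
  exact MvPolynomial.map_injective ι ι.injective (by rw [h1, map_zero])

end Vanish

end L5H33.EV
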