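import Pool.Agent.L5helper33.FolkHost

set_option autoImplicit false

namespace Pool.Agent.L5helper33.Folk

open Finset Matrix

/-- exclusive or on `Fin 64`. -/
def xr (x y : Fin 64) : Fin 64 := ⟨x.val ^^^ y.val, Nat.xor_lt_two_pow (n := 6) x.2 y.2⟩

lemma xr_comm (x y : Fin 64) : xr x y = xr y x := by
  apply Fin.ext; exact Nat.xor_comm _ _

lemma xr_assoc (x y z : Fin 64) : xr (xr x y) z = xr x (xr y z) := by
  apply Fin.ext; exact Nat.xor_assoc _ _ _

lemma xr_self (x : Fin 64) : xr x x = 0 := by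
  apply Fin.ext; exact Nat.xor_self _

lemma xr_zero (x : Fin 64) : xr x 0 = x := by
  apply Fin.ext; exact Nat.xor_zero _

lemma zero_xr (x : Fin 64) : xr 0 x = x := by
  apply Fin.ext; exact Nat.zero_xor _

lemma xr_cancel (x y : Fin 64) : xr x (xr x y) = y := by
  rw [← xr_assoc, xr_self, zero_xr]

/-- the bijection `w ↦ x xor w`. -/
def xrEquiv (x : Fin 64) : Fin 64 ≃ Fin 64 where
  toFun := xr x
  invFun := xr x
  left_inv := xr_cancel x
  right_inv := xr_cancel x

/-- indicator of a set of numbers below 64 given by a mask. -/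
def ind (m : ℕ) (x : Fin 64) : ℕ := if Nat.testBit m x.val then 1 else 0

/-- mask of the numbers below 64 with one or two binary digits 1. -/
def mask : ℕ := 282673290876798

/-- masks of the seven cliques. -/
def cl : Fin 7 → ℕ := ![8590066218, 17180132428, 68720529520, 1099528410880, 281474994995200, 282673272586240, 4295033110]

lemma ind_zo (m : ℕ) (x : Fin 64) : ind m x = 0 ∨ ind m x = 1 := by
  unfold ind; split_ifs <;> simp

lemma deg0 : ∑ y : Fin 64, ind mask y = 21 := by decide +kernel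

lemma irr0 : ind mask 0 = 0 := by decide +kernel

lemma codeg0 : ∀ a : Fin 64, ind mask a * ∑ w, ind mask w * ind mask (xr a w) = 10 * ind mask a := by
  decide +kernel

lemma clique0 : ∀ a b : Fin 64, ind mask a * ind mask b * ind mask (xr a b) +
    (if a = b then 2 * ind mask a else 0) = ∑ i : Fin 7, ind (cl i) a * ind (cl i) b := by
  decide +kernel

lemma h0_aux : ∑ v : Fin 64,
    (∑ a : Fin 64, if Nat.testBit mask a.val && Nat.testBit mask (xr v a).val then
      (∑ b : Fin 64, if Nat.testBit mask b.val && Nat.testBit mask (xr v b).val &&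
        Nat.testBit mask (xr a b).val then 1 else 0) else 0)
      * ∑ c : Fin 64, (if Nat.testBit mask c.val && Nat.testBit mask (xr v c).val then 1 else 0)
      = 19950 := by
  decide +kernel

lemma ind_mul (m : ℕ) (x y : Fin 64) (X : ℕ) :
    ind m x * ind m y * X = if Nat.testBit m x.val && Nat.testBit m y.val then X else 0 := by
  unfold ind
  cases Nat.testBit m x.val <;> cases Nat.testBit m y.val <;> simp

lemma ind_mul3 (m : ℕ) (x y z : Fin 64) :
    ind m x * ind m y * ind m z =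
      if Nat.testBit m x.val && Nat.testBit m y.val && Nat.testBit m z.val then 1 else 0 := by
  unfold ind
  cases Nat.testBit m x.val <;> cases Nat.testBit m y.val <;> cases Nat.testBit m z.val <;> simp

lemma ind_mul2 (m : ℕ) (x y : Fin 64) :
    ind m x * ind m y = if Nat.testBit m x.val && Nat.testBit m y.val then 1 else 0 := by
  unfold ind
  cases Nat.testBit m x.val <;> cases Nat.testBit m y.val <;> simp

lemma h0_inner (v : Fin 64) : (∑ a, ∑ b, ind mask a * ind mask (xr v a) * ind mask b *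
      ind mask (xr v b) * ind mask (xr a b)) =
    (∑ a : Fin 64, if Nat.testBit mask a.val && Nat.testBit mask (xr v a).val then
      (∑ b : Fin 64, if Nat.testBit mask b.val && Nat.testBit mask (xr v b).val &&
        Nat.testBit mask (xr a b).val then 1 else 0) else 0) := by
  refine sum_congr rfl fun a _ => ?_
  rw [← ind_mul, mul_sum]
  refine sum_congr rfl fun b _ => ?_
  rw [← ind_mul3]
  ring

lemma h0_inner2 (v : Fin 64) : (∑ c, ind mask c * ind mask (xr v c)) =
    ∑ c : Fin 64, (if Nat.testBit mask c.val && Nat.testBit mask (xr v c).val then 1 else 0) :=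
  sum_congr rfl fun c _ => ind_mul2 _ _ _

lemma h0 : ∑ v : Fin 64, (∑ a, ∑ b, ind mask a * ind mask (xr v a) * ind mask b *
      ind mask (xr v b) * ind mask (xr a b)) * ∑ c, ind mask c * ind mask (xr v c) = 19950 :=
  (sum_congr rfl fun v _ => by rw [h0_inner v, h0_inner2 v]).trans h0_aux

/-- The base relation. -/
noncomputable def e0 (x y : Fin 64) : ℝ := (ind mask (xr x y) : ℝ)

lemma e0_xr (x y z : Fin 64) : e0 (xr x y) (xr x z) = e0 y z := by
  unfold e0
  rw [show xr (xr x y) (xr x z) = xr y z by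
    rw [xr_assoc, xr_comm y (xr x z), ← xr_assoc, ← xr_assoc, xr_self, zero_xr, xr_comm]]

lemma e0_xr' (x y : Fin 64) : e0 x (xr x y) = (ind mask y : ℝ) := by
  unfold e0
  rw [xr_cancel]

lemma sum_xr (x : Fin 64) (F : Fin 64 → ℝ) : ∑ y, F (xr x y) = ∑ y, F y :=
  Equiv.sum_comp (xrEquiv x) F

lemma sum_tr (u : Fin 64) {F G : Fin 64 → ℝ} (h : ∀ y, F (xr u y) = G y) :
    ∑ y, F y = ∑ y, G y :=
  (sum_xr u F).symm.trans (sum_congr rfl fun y _ => h y)

lemma base_deg (x : Fin 64) : ∑ y, e0 x y = 21 := by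
  have h1 : ∑ y, e0 x y = ∑ y, (ind mask y : ℝ) := by
    refine (sum_xr x (fun y => e0 x y)).symm.trans ?_
    exact sum_congr rfl fun y _ => e0_xr' x y
  have h2 : ((∑ y : Fin 64, ind mask y : ℕ) : ℝ) = 21 := by rw [deg0]; norm_num
  rw [h1, ← h2, Nat.cast_sum]

lemma base_codeg (x y : Fin 64) : e0 x y * ∑ z, e0 x z * e0 y z = 10 * e0 x y := by
  have h := codeg0 (xr x y)
  have h1 : ∑ z, e0 x z * e0 y z = ∑ w, (ind mask w : ℝ) * (ind mask (xr (xr x y) w) : ℝ) := by
    refine (sum_xr x (fun z => e0 x z * e0 y z)).symm.trans ?_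
    refine sum_congr rfl fun w _ => ?_
    rw [e0_xr']
    unfold e0
    rw [← xr_assoc, xr_comm y x]
  rw [h1]
  unfold e0
  have h2 : ((ind mask (xr x y) * ∑ w, ind mask w * ind mask (xr (xr x y) w) : ℕ) : ℝ) =
    ((10 * ind mask (xr x y) : ℕ) : ℝ) := by rw [h]
  rw [Nat.cast_mul, Nat.cast_sum, Nat.cast_mul] at h2
  simpa using h2

lemma base_psd_eq (x y z : Fin 64) :
    e0 x y * e0 x z * e0 y z + (if y = z then (10 : ℝ) / 5 * e0 x y else 0)
        = ∑ i : Fin 7, (ind (cl i) (xr x y) : ℝ) * (ind (cl i) (xr x z) : ℝ) := by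
  have h := clique0 (xr x y) (xr x z)
  have h2 : xr (xr x y) (xr x z) = xr y z := by
    rw [xr_assoc, xr_comm y (xr x z), ← xr_assoc, ← xr_assoc, xr_self, zero_xr, xr_comm]
  rw [h2] at h
  have h3 : (xr x y = xr x z) ↔ y = z := (xrEquiv x).injective.eq_iff
  have h4 : ((∑ i : Fin 7, ind (cl i) (xr x y) * ind (cl i) (xr x z) : ℕ) : ℝ) =
      ∑ i : Fin 7, (ind (cl i) (xr x y) : ℝ) * (ind (cl i) (xr x z) : ℝ) := by
    rw [Nat.cast_sum]
    exact sum_congr rfl fun i _ => Nat.cast_mul _ _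
  rw [← h4, ← h]
  unfold e0
  by_cases hyz : y = z
  · rw [if_pos hyz, if_pos (h3.mpr hyz)]
    push_cast
    ring
  · rw [if_neg hyz, if_neg (fun h => hyz (h3.mp h))]
    push_cast
    ring

lemma base_psd (x : Fin 64) :
    PSD (fun y z => e0 x y * e0 x z * e0 y z + (if y = z then (10 : ℝ) / 5 * e0 x y else 0)) := by
  refine ⟨fun y z => ?_, fun f => ?_⟩
  · beta_reduce
    rw [base_psd_eq, base_psd_eq]
    exact sum_congr rfl fun i _ => mul_comm _ _
  · have h : ∑ y, ∑ z, (e0 x y * e0 x z * e0 y z +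
        (if y = z then (10 : ℝ) / 5 * e0 x y else 0)) * f y * f z =
        ∑ i : Fin 7, (∑ y, (ind (cl i) (xr x y) : ℝ) * f y) ^ 2 := by
      have h1 : ∀ i : Fin 7, (∑ y, (ind (cl i) (xr x y) : ℝ) * f y) ^ 2 =
          ∑ y, ∑ z, (ind (cl i) (xr x y) : ℝ) * (ind (cl i) (xr x z) : ℝ) * f y * f z := by
        intro i
        rw [sq, sum_mul_sum]
        exact sum_congr rfl fun y _ => sum_congr rfl fun z _ => by ring
      have h2 : ∑ i : Fin 7, (∑ y, (ind (cl i) (xr x y) : ℝ) * f y) ^ 2 = ∑ i : Fin 7,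
          ∑ y, ∑ z, (ind (cl i) (xr x y) : ℝ) * (ind (cl i) (xr x z) : ℝ) * f y * f z :=
        sum_congr rfl fun i _ => h1 i
      rw [h2]
      refine Eq.trans ?_ sum_comm.symm
      refine sum_congr rfl fun y _ => ?_
      refine Eq.trans ?_ sum_comm.symm
      refine sum_congr rfl fun z _ => ?_
      rw [base_psd_eq, sum_mul, sum_mul]
    rw [h]
    exact sum_nonneg fun i _ => sq_nonneg _

lemma base_hcount : ∑ u, ∑ v, ∑ a, ∑ b, ∑ c,
    e0 u a * e0 u b * e0 u c * e0 v a * e0 v b * e0 v c * e0 a b = 1276800 := by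
  have h1 : ∀ u : Fin 64, ∑ v, ∑ a, ∑ b, ∑ c,
      e0 u a * e0 u b * e0 u c * e0 v a * e0 v b * e0 v c * e0 a b = 19950 := by
    intro u
    have h2 : ((∑ v : Fin 64, (∑ a, ∑ b, ind mask a * ind mask (xr v a) * ind mask b *
      ind mask (xr v b) * ind mask (xr a b)) * ∑ c, ind mask c * ind mask (xr v c) : ℕ) : ℝ)
      = 19950 := by rw [h0]; norm_num
    rw [← h2, Nat.cast_sum]
    refine sum_tr u fun v => ?_
    rw [Nat.cast_mul, Nat.cast_sum, Nat.cast_sum, sum_mul]
    refine sum_tr u fun a => ?_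
    rw [Nat.cast_sum, sum_mul]
    refine sum_tr u fun b => ?_
    rw [mul_sum]
    refine sum_tr u fun c => ?_
    simp only [e0_xr', e0_xr, Nat.cast_mul]
    unfold e0
    ring
  have h3 : ∑ u : Fin 64, ∑ v, ∑ a, ∑ b, ∑ c,
      e0 u a * e0 u b * e0 u c * e0 v a * e0 v b * e0 v c * e0 a b = ∑ _u : Fin 64, (19950 : ℝ) :=
    sum_congr rfl fun u _ => h1 u
  rw [h3, sum_const, card_univ, Fintype.card_fin]
  norm_num

lemma baseHost : Host (Fin 64) e0 64 21 10 1276800 where
  zo x y := by
    unfold e0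
    rcases ind_zo mask (xr x y) with h | h <;> rw [h] <;> norm_num
  symm x y := by unfold e0; rw [xr_comm]
  irr x := by unfold e0; rw [xr_self, irr0]; norm_num
  card := by rw [Fintype.card_fin]; norm_num
  deg := base_deg
  codeg := base_codeg
  psd := base_psd
  hcount := base_hcount

/-- Powers of the base host. -/
lemma host_pow (d : ℕ) : ∃ (V : Type) (_ : Fintype V) (_ : DecidableEq V) (e : V → V → ℝ),
    Host V e (64 ^ (d + 1)) (21 ^ (d + 1)) (10 ^ (d + 1)) (1276800 ^ (d + 1)) := by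
  induction d with
  | zero => exact ⟨Fin 64, inferInstance, inferInstance, e0, by simpa using baseHost⟩
  | succ d ih =>
    obtain ⟨V, i1, i2, e, H⟩ := ih
    refine ⟨V × Fin 64, inferInstance, inferInstance, fun p q => e p.1 q.1 * e0 p.2 q.2, ?_⟩
    have := H.prod baseHost
    rw [pow_succ 64 (d + 1), pow_succ 21 (d + 1), pow_succ 10 (d + 1), pow_succ 1276800 (d + 1)]
    exact this

end Pool.Agent.L5helper33.Folk
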