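import Mathlib

set_option autoImplicit false

namespace Pool.Agent.L5helper33.Folk

open Finset

variable {V : Type} {m : ℕ}

/-- The antisymmetric voltage given by `ω`. -/
def al (ω : V × V → ZMod m) (x y : V) : ZMod m := ω (x, y) - ω (y, x)

/-- The triangle `x y z` is balanced. -/
def bal (ω : V × V → ZMod m) (x y z : V) : Prop := al ω x y + al ω y z = al ω x z

instance (ω : V × V → ZMod m) (x y z : V) : Decidable (bal ω x y z) := by
  unfold bal; infer_instance

lemma al_anti (ω : V × V → ZMod m) (x y : V) : al ω y x = - al ω x y := by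
  unfold al; ring

variable [DecidableEq V]

lemma al_single {ω : V × V → ZMod m} {p : V × V} {v : ZMod m} {x y : V}
    (h1 : p ≠ (x, y)) (h2 : p ≠ (y, x)) : al (ω + Pi.single p v) x y = al ω x y := by
  unfold al
  rw [Pi.add_apply, Pi.add_apply, Pi.single_eq_of_ne' h1, Pi.single_eq_of_ne' h2]
  ring

lemma bal_single {ω : V × V → ZMod m} {p : V × V} {v : ZMod m} {x y z : V}
    (h1 : p ≠ (x, y)) (h2 : p ≠ (y, x)) (h3 : p ≠ (y, z)) (h4 : p ≠ (z, y)) (h5 : p ≠ (x, z))
    (h6 : p ≠ (z, x)) : bal (ω + Pi.single p v) x y z ↔ bal ω x y z := by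
  unfold bal
  rw [al_single h1 h2, al_single h3 h4, al_single h5 h6]

variable [Fintype V] [NeZero m]

lemma coord_sum (p : V × V) (F : (V × V → ZMod m) → ℝ) (c : (V × V → ZMod m) → ZMod m)
    (hF : ∀ ω v, F (ω + Pi.single p v) = F ω) (hc : ∀ ω v, c (ω + Pi.single p v) = c ω)
    (g1 g0 : ℝ) :
    (m : ℝ) * ∑ ω, F ω * (if ω p = c ω then g1 else g0) =
      (g1 + (m - 1) * g0) * ∑ ω, F ω := by
  have h1 : ∀ v : ZMod m, ∑ ω, F ω * (if ω p = c ω then g1 else g0) =
      ∑ ω, F ω * (if ω p + v = c ω then g1 else g0) := by
    intro v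
    rw [← Equiv.sum_comp (Equiv.addRight (Pi.single p v : V × V → ZMod m))]
    refine sum_congr rfl fun ω _ => ?_
    have e : (Equiv.addRight (Pi.single p v : V × V → ZMod m)) ω = ω + Pi.single p v := rfl
    simp only [e, hF, hc, Pi.add_apply, Pi.single_eq_same]
  have h2 : ∀ a b : ZMod m, ∑ v : ZMod m, (if a + v = b then g1 else g0) = g1 + (m - 1) * g0 := by
    intro a b
    have : ∀ v : ZMod m, (if a + v = b then g1 else g0) =
        g0 + (if v = b - a then g1 - g0 else 0) := by
      intro v
      by_cases h : a + v = b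
      · rw [if_pos h, if_pos (by rw [← h]; ring)]; ring
      · rw [if_neg h, if_neg (fun h' => h (by rw [h']; ring))]; ring
    rw [sum_congr rfl fun v _ => this v, sum_add_distrib, sum_const, card_univ, ZMod.card,
      sum_ite_eq' univ (b - a) (fun _ => g1 - g0)]
    simp only [mem_univ, if_true, nsmul_eq_mul]
    ring
  calc (m : ℝ) * ∑ ω, F ω * (if ω p = c ω then g1 else g0)
      = ∑ v : ZMod m, ∑ ω, F ω * (if ω p + v = c ω then g1 else g0) := by
        rw [← sum_congr rfl fun v _ => h1 v, sum_const, card_univ, ZMod.card, nsmul_eq_mul]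
    _ = ∑ ω, F ω * (g1 + (m - 1) * g0) := by
        rw [sum_comm]
        refine sum_congr rfl fun ω _ => ?_
        rw [← mul_sum, h2]
    _ = _ := by rw [← sum_mul, mul_comm]

omit [DecidableEq V] [Fintype V] [NeZero m] in
lemma bal_iff (ω : V × V → ZMod m) (x y z : V) :
    bal ω x y z ↔ ω (y, z) = ω (z, y) + al ω x z - al ω x y := by
  unfold bal
  constructor
  · intro h
    rw [← h]
    simp only [al]
    ring
  · intro h
    have : al ω y z = ω (y, z) - ω (z, y) := rfl
    rw [this, h]
    ring

lemma prod_sum (ι : V → ℕ) (x : V) (g : V × V → ℝ) (A : Finset (V × V)) :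
    (∀ p ∈ A, ι p.1 < ι p.2 ∧ p.1 ≠ x ∧ p.2 ≠ x) →
    ∑ ω : V × V → ZMod m, ∏ p ∈ A, (if bal ω x p.1 p.2 then g p else 1) =
      (Fintype.card (V × V → ZMod m) : ℝ) * ∏ p ∈ A, (1 + (g p - 1) / m) := by
  have hm : (m : ℝ) ≠ 0 := Nat.cast_ne_zero.mpr (NeZero.ne m)
  induction A using Finset.induction_on with
  | empty =>
    intro _
    simp
  | insert p A hp ih =>
    intro hA
    have hA' : ∀ q ∈ A, ι q.1 < ι q.2 ∧ q.1 ≠ x ∧ q.2 ≠ x := fun q hq => hA q (mem_insert_of_mem hq)
    obtain ⟨hp1, hp2, hp3⟩ := hA p (mem_insert_self p A)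
    have key := coord_sum p (fun ω => ∏ q ∈ A, (if bal ω x q.1 q.2 then g q else 1))
      (fun ω => ω (p.2, p.1) + al ω x p.2 - al ω x p.1) (by
        intro ω v
        refine prod_congr rfl fun q hq => ?_
        obtain ⟨hq1, hq2, hq3⟩ := hA' q hq
        have hne : p ≠ q := fun h => hp (h ▸ hq)
        have : bal (ω + (Pi.single p v : V × V → ZMod m)) x q.1 q.2 ↔ bal ω x q.1 q.2 := by
          apply bal_single
          · exact fun h => hp2 (by rw [h])
          · exact fun h => hp3 (by rw [h])
          · exact hne
          · intro h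
            rw [h] at hp1
            exact absurd hq1 (not_lt.mpr hp1.le)
          · exact fun h => hp2 (by rw [h])
          · exact fun h => hp3 (by rw [h])
        simp only [this]) (by
        intro ω v
        have h1 : al (ω + (Pi.single p v : V × V → ZMod m)) x p.2 = al ω x p.2 :=
          al_single (fun h => hp2 (by rw [h])) (fun h => by
            rw [h] at hp1
            exact hp3 (by rw [h]))
        have h2 : al (ω + (Pi.single p v : V × V → ZMod m)) x p.1 = al ω x p.1 :=
          al_single (fun h => hp2 (by rw [h])) (fun h => hp3 (by rw [h]))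
        rw [h1, h2, Pi.add_apply, Pi.single_eq_of_ne' (fun h => by
          have h3 : p.1 = p.2 := by
            conv_lhs => rw [h]
          rw [h3] at hp1
          exact lt_irrefl _ hp1), add_zero]) (g p) 1
    have e1 : ∑ ω : V × V → ZMod m, ∏ q ∈ insert p A, (if bal ω x q.1 q.2 then g q else 1) =
        ∑ ω : V × V → ZMod m, (∏ q ∈ A, (if bal ω x q.1 q.2 then g q else 1)) *
          (if ω p = ω (p.2, p.1) + al ω x p.2 - al ω x p.1 then g p else 1) := by
      refine sum_congr rfl fun ω _ => ?_
      rw [prod_insert hp, mul_comm]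
      congr 1
      simp only [bal_iff]
    rw [prod_insert hp, e1]
    rw [ih hA'] at key
    have : (g p + ((m : ℝ) - 1) * 1) = m * (1 + (g p - 1) / m) := by field_simp; ring
    rw [this] at key
    have h5 : (m : ℝ) * ∑ ω : V × V → ZMod m, (∏ q ∈ A, (if bal ω x q.1 q.2 then g q else 1)) *
          (if ω p = ω (p.2, p.1) + al ω x p.2 - al ω x p.1 then g p else 1) =
        m * ((Fintype.card (V × V → ZMod m) : ℝ) * ((1 + (g p - 1) / m) *
          ∏ p ∈ A, (1 + (g p - 1) / m))) := by
      rw [key]; ring
    exact mul_left_cancel₀ hm h5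

lemma elim_sum (p : V × V) (F : (V × V → ZMod m) → ℝ) (P : (V × V → ZMod m) → Prop)
    [DecidablePred P] (c : (V × V → ZMod m) → ZMod m) (hP : ∀ ω, P ω ↔ ω p = c ω)
    (hF : ∀ ω v, F (ω + Pi.single p v) = F ω) (hc : ∀ ω v, c (ω + Pi.single p v) = c ω) :
    (m : ℝ) * ∑ ω, F ω * (if P ω then 1 else 0) = ∑ ω, F ω := by
  have h := coord_sum p F c hF hc 1 0
  simp only [mul_zero, add_zero, one_mul] at h
  rw [← h]
  simp only [hP]

/-- A balanced copy of `K_{2,3}` plus an edge. -/
def BH (ω : V × V → ZMod m) (u v a b c : V) : Prop :=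
  bal ω u a b ∧ bal ω v a b ∧ al ω u a + al ω a v = al ω u c + al ω c v

instance (ω : V × V → ZMod m) (u v a b c : V) : Decidable (BH ω u v a b c) := by
  unfold BH; infer_instance

lemma four_eq {u v a b c w : V} (huv : u ≠ v) (hab : a ≠ b) (hua : u ≠ a) (hub : u ≠ b)
    (huc : u ≠ c) (hva : v ≠ a) (hvb : v ≠ b) (hvc : v ≠ c) (hca : c ≠ a) (hcb : c ≠ b)
    (hwu : w ≠ u) (hwc : w ≠ c) :
    (m : ℝ) ^ 4 * ∑ ω : V × V → ZMod m,
      ((if BH ω u v a b c then (1 : ℝ) else 0) * (if bal ω u c w then 1 else 0)) =
      (Fintype.card (V × V → ZMod m) : ℝ) := by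
  have s1 : (m : ℝ) * ∑ ω : V × V → ZMod m, (1 : ℝ) * (if bal ω u a b then 1 else 0) =
      ∑ ω : V × V → ZMod m, (1 : ℝ) := by
    refine elim_sum (u, b) (fun _ => 1) (fun ω => bal ω u a b)
      (fun ω => ω (b, u) + (al ω u a + al ω a b)) ?_ (fun _ _ => rfl) ?_
    · intro ω
      unfold bal
      have : al ω u b = ω (u, b) - ω (b, u) := rfl
      rw [this]
      constructor
      · intro h; rw [h]; ring
      · intro h; rw [h]; ring
    · intro ω x
      rw [al_single, al_single, Pi.add_apply, Pi.single_eq_of_ne', add_zero]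
      all_goals simp [Prod.ext_iff]; tauto
  have s2 : (m : ℝ) * ∑ ω : V × V → ZMod m, (1 * (if bal ω u a b then (1 : ℝ) else 0)) *
      (if bal ω v a b then 1 else 0) =
      ∑ ω : V × V → ZMod m, (1 * (if bal ω u a b then (1 : ℝ) else 0)) := by
    refine elim_sum (v, b) (fun ω => 1 * (if bal ω u a b then (1 : ℝ) else 0))
      (fun ω => bal ω v a b)
      (fun ω => ω (b, v) + (al ω v a + al ω a b)) ?_ ?_ ?_
    · intro ω
      unfold bal
      have : al ω v b = ω (v, b) - ω (b, v) := rfl
      rw [this]
      constructor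
      · intro h; rw [h]; ring
      · intro h; rw [h]; ring
    · intro ω x
      have : bal (ω + (Pi.single (v, b) x : V × V → ZMod m)) u a b ↔ bal ω u a b := by
        apply bal_single
        all_goals simp [Prod.ext_iff]; tauto
      simp only [this]
    · intro ω x
      rw [al_single, al_single, Pi.add_apply, Pi.single_eq_of_ne', add_zero]
      all_goals simp [Prod.ext_iff]; tauto
  have s3 : (m : ℝ) * ∑ ω : V × V → ZMod m, ((1 * (if bal ω u a b then (1 : ℝ) else 0)) *
      (if bal ω v a b then 1 else 0)) *
      (if al ω u a + al ω a v = al ω u c + al ω c v then 1 else 0) =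
      ∑ ω : V × V → ZMod m, ((1 * (if bal ω u a b then (1 : ℝ) else 0)) *
      (if bal ω v a b then 1 else 0)) := by
    refine elim_sum (c, v) (fun ω => (1 * (if bal ω u a b then (1 : ℝ) else 0)) *
      (if bal ω v a b then 1 else 0))
      (fun ω => al ω u a + al ω a v = al ω u c + al ω c v)
      (fun ω => ω (v, c) + (al ω u a + al ω a v - al ω u c)) ?_ ?_ ?_
    · intro ω
      have : al ω c v = ω (c, v) - ω (v, c) := rfl
      rw [this]
      constructor
      · intro h; rw [h]; ring
      · intro h; rw [h]; ring
    · intro ω x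
      have h1 : bal (ω + (Pi.single (c, v) x : V × V → ZMod m)) u a b ↔ bal ω u a b := by
        apply bal_single
        all_goals simp [Prod.ext_iff]; tauto
      have h2 : bal (ω + (Pi.single (c, v) x : V × V → ZMod m)) v a b ↔ bal ω v a b := by
        apply bal_single
        all_goals simp [Prod.ext_iff]; tauto
      simp only [h1, h2]
    · intro ω x
      rw [al_single, al_single, al_single, Pi.add_apply, Pi.single_eq_of_ne', add_zero]
      all_goals simp [Prod.ext_iff]; tauto
  have s4 : (m : ℝ) * ∑ ω : V × V → ZMod m, (((1 * (if bal ω u a b then (1 : ℝ) else 0)) *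
      (if bal ω v a b then 1 else 0)) *
      (if al ω u a + al ω a v = al ω u c + al ω c v then 1 else 0)) *
      (if bal ω u c w then 1 else 0) =
      ∑ ω : V × V → ZMod m, ((1 * (if bal ω u a b then (1 : ℝ) else 0)) *
      (if bal ω v a b then 1 else 0)) *
      (if al ω u a + al ω a v = al ω u c + al ω c v then 1 else 0) := by
    by_cases hwv : w = v
    · subst hwv
      refine elim_sum (u, w) (fun ω => ((1 * (if bal ω u a b then (1 : ℝ) else 0)) *
        (if bal ω w a b then 1 else 0)) *
        (if al ω u a + al ω a w = al ω u c + al ω c w then 1 else 0))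
        (fun ω => bal ω u c w)
        (fun ω => ω (w, u) + (al ω u c + al ω c w)) ?_ ?_ ?_
      · intro ω
        unfold bal
        have : al ω u w = ω (u, w) - ω (w, u) := rfl
        rw [this]
        constructor
        · intro h; rw [h]; ring
        · intro h; rw [h]; ring
      · intro ω x
        have h1 : bal (ω + (Pi.single (u, w) x : V × V → ZMod m)) u a b ↔ bal ω u a b := by
          apply bal_single
          all_goals simp [Prod.ext_iff]; tauto
        have h2 : bal (ω + (Pi.single (u, w) x : V × V → ZMod m)) w a b ↔ bal ω w a b := by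
          apply bal_single
          all_goals simp [Prod.ext_iff]; tauto
        have h3 : al (ω + (Pi.single (u, w) x : V × V → ZMod m)) u a = al ω u a := by
          apply al_single
          all_goals simp [Prod.ext_iff]; tauto
        have h4 : al (ω + (Pi.single (u, w) x : V × V → ZMod m)) a w = al ω a w := by
          apply al_single
          all_goals simp [Prod.ext_iff]; tauto
        have h5 : al (ω + (Pi.single (u, w) x : V × V → ZMod m)) u c = al ω u c := by
          apply al_single
          all_goals simp [Prod.ext_iff]; tauto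
        have h6 : al (ω + (Pi.single (u, w) x : V × V → ZMod m)) c w = al ω c w := by
          apply al_single
          all_goals simp [Prod.ext_iff]; tauto
        simp only [h1, h2, h3, h4, h5, h6]
      · intro ω x
        rw [al_single, al_single, Pi.add_apply, Pi.single_eq_of_ne', add_zero]
        all_goals simp [Prod.ext_iff]; tauto
    · refine elim_sum (c, w) (fun ω => ((1 * (if bal ω u a b then (1 : ℝ) else 0)) *
        (if bal ω v a b then 1 else 0)) *
        (if al ω u a + al ω a v = al ω u c + al ω c v then 1 else 0))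
        (fun ω => bal ω u c w)
        (fun ω => ω (w, c) + (al ω u w - al ω u c)) ?_ ?_ ?_
      · intro ω
        unfold bal
        have : al ω c w = ω (c, w) - ω (w, c) := rfl
        rw [this]
        constructor
        · intro h; rw [← h]; ring
        · intro h; rw [h]; ring
      · intro ω x
        have h1 : bal (ω + (Pi.single (c, w) x : V × V → ZMod m)) u a b ↔ bal ω u a b := by
          apply bal_single
          all_goals simp [Prod.ext_iff]; tauto
        have h2 : bal (ω + (Pi.single (c, w) x : V × V → ZMod m)) v a b ↔ bal ω v a b := by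
          apply bal_single
          all_goals simp [Prod.ext_iff]; tauto
        have h3 : al (ω + (Pi.single (c, w) x : V × V → ZMod m)) u a = al ω u a := by
          apply al_single
          all_goals simp [Prod.ext_iff]; tauto
        have h4 : al (ω + (Pi.single (c, w) x : V × V → ZMod m)) a v = al ω a v := by
          apply al_single
          all_goals simp [Prod.ext_iff]; tauto
        have h5 : al (ω + (Pi.single (c, w) x : V × V → ZMod m)) u c = al ω u c := by
          apply al_single
          all_goals simp [Prod.ext_iff]; tauto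
        have h6 : al (ω + (Pi.single (c, w) x : V × V → ZMod m)) c v = al ω c v := by
          apply al_single
          all_goals simp [Prod.ext_iff]; tauto
        simp only [h1, h2, h3, h4, h5, h6]
      · intro ω x
        rw [al_single, al_single, Pi.add_apply, Pi.single_eq_of_ne', add_zero]
        all_goals simp [Prod.ext_iff]; tauto
  have e : ∀ ω : V × V → ZMod m,
      ((if BH ω u v a b c then (1 : ℝ) else 0) * (if bal ω u c w then 1 else 0)) =
      (((1 * (if bal ω u a b then (1 : ℝ) else 0)) *
      (if bal ω v a b then 1 else 0)) *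
      (if al ω u a + al ω a v = al ω u c + al ω c v then 1 else 0)) *
      (if bal ω u c w then 1 else 0) := by
    intro ω
    unfold BH
    by_cases h1 : bal ω u a b
    · by_cases h2 : bal ω v a b
      · by_cases h3 : al ω u a + al ω a v = al ω u c + al ω c v
        · simp only [h1, h2, h3, and_self, if_true, one_mul]
        · simp only [h1, h2, h3, and_false, if_true, if_false, one_mul]
      · simp only [h1, h2, and_false, false_and, if_true, if_false, one_mul, zero_mul]
    · simp only [h1, false_and, if_false, one_mul, zero_mul]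
  rw [sum_congr rfl fun ω _ => e ω]
  have s0 : ∑ ω : V × V → ZMod m, (1 : ℝ) = (Fintype.card (V × V → ZMod m) : ℝ) := by
    rw [sum_const, card_univ, nsmul_eq_mul, mul_one]
  have p4 : ∀ X : ℝ, (m : ℝ) ^ 4 * X = m * (m * (m * (m * X))) := fun X => by ring
  rw [p4, s4, s3, s2, s1, s0]

end Pool.Agent.L5helper33.Folk
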