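import Pool.Agent.L5helper33.FolkHost
import Pool.Agent.L5helper33.FolkProb

set_option autoImplicit false

namespace Pool.Agent.L5helper33.Folk

open Finset

variable {V : Type} {m : ℕ}

/-- balanced ordered triangles -/
noncomputable def tau (e : V → V → ℝ) (ω : V × V → ZMod m) (x y z : V) : ℝ :=
  e x y * e x z * e y z * (if bal ω x y z then 1 else 0)

/-- balanced copies of `K_{2,3}` plus an edge in the host. -/
def HH (e : V → V → ℝ) (ω : V × V → ZMod m) (u v a b c : V) : Prop :=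
  (u ≠ v ∧ c ≠ a ∧ c ≠ b) ∧ (e u a = 1 ∧ e u b = 1 ∧ e u c = 1 ∧ e v a = 1 ∧ e v b = 1 ∧
    e v c = 1 ∧ e a b = 1) ∧ BH ω u v a b c

/-- removed edges -/
def XX (e : V → V → ℝ) (ω : V × V → ZMod m) (x y : V) : Prop :=
  ∃ u v a b c, HH e ω u v a b c ∧ ((x = u ∧ y = c) ∨ (x = c ∧ y = u))

lemma XX_symm {e : V → V → ℝ} {ω : V × V → ZMod m} {x y : V} (h : XX e ω x y) : XX e ω y x := by
  obtain ⟨u, v, a, b, c, h1, h2⟩ := h
  refine ⟨u, v, a, b, c, h1, ?_⟩
  tauto

/-- The random cover of the host, without the removed edges. -/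
def cover (e : V → V → ℝ) (hs : ∀ x y, e x y = e y x) (hi : ∀ x, e x x = 0)
    (ω : V × V → ZMod m) : SimpleGraph (V × ZMod m) where
  Adj p q := e p.1 q.1 = 1 ∧ q.2 = p.2 + al ω p.1 q.1 ∧ ¬ XX e ω p.1 q.1
  symm := ⟨by
    rintro p q ⟨h1, h2, h3⟩
    refine ⟨by rw [hs, h1], ?_, fun h => h3 (XX_symm h)⟩
    rw [al_anti, h2]; ring⟩
  loopless := ⟨by
    rintro p ⟨h1, _, _⟩
    rw [hi] at h1
    norm_num at h1⟩

lemma cover_free (e : V → V → ℝ) (hs : ∀ x y, e x y = e y x) (hi : ∀ x, e x x = 0)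
    (ω : V × V → ZMod m) (u v a b c : V × ZMod m) (huv : u ≠ v) (hca : c ≠ a) (hcb : c ≠ b)
    (h1 : (cover e hs hi ω).Adj u a) (h2 : (cover e hs hi ω).Adj u b)
    (h3 : (cover e hs hi ω).Adj u c) (h4 : (cover e hs hi ω).Adj v a)
    (h5 : (cover e hs hi ω).Adj v b) (h6 : (cover e hs hi ω).Adj v c)
    (h7 : (cover e hs hi ω).Adj a b) : False := by
  have q1 := h1.2.1
  have q2 := h2.2.1
  have q3 := h3.2.1
  have q4 := h4.2.1
  have q5 := h5.2.1
  have q6 := h6.2.1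
  have q7 := h7.2.1
  have huv' : u.1 ≠ v.1 := by
    intro h
    apply huv
    refine Prod.ext h ?_
    rw [q1, h] at q4
    exact add_right_cancel q4
  have hca' : c.1 ≠ a.1 := by
    intro h
    apply hca
    refine Prod.ext h ?_
    rw [q3, q1, h]
  have hcb' : c.1 ≠ b.1 := by
    intro h
    apply hcb
    refine Prod.ext h ?_
    rw [q3, q2, h]
  apply h3.2.2
  refine ⟨u.1, v.1, a.1, b.1, c.1, ⟨⟨huv', hca', hcb'⟩,
    ⟨h1.1, h2.1, h3.1, h4.1, h5.1, h6.1, h7.1⟩, ?_, ?_, ?_⟩, Or.inl ⟨rfl, rfl⟩⟩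
  · unfold bal
    have e1 : al ω u.1 a.1 = a.2 - u.2 := by rw [q1]; ring
    have e2 : al ω u.1 b.1 = b.2 - u.2 := by rw [q2]; ring
    have e7 : al ω a.1 b.1 = b.2 - a.2 := by rw [q7]; ring
    rw [e1, e2, e7]; ring
  · unfold bal
    have e1 : al ω v.1 a.1 = a.2 - v.2 := by rw [q4]; ring
    have e2 : al ω v.1 b.1 = b.2 - v.2 := by rw [q5]; ring
    have e7 : al ω a.1 b.1 = b.2 - a.2 := by rw [q7]; ring
    rw [e1, e2, e7]; ring
  · have e1 : al ω u.1 a.1 = a.2 - u.2 := by rw [q1]; ring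
    have e3 : al ω u.1 c.1 = c.2 - u.2 := by rw [q3]; ring
    have e4 : al ω a.1 v.1 = v.2 - a.2 := by rw [al_anti, q4]; ring
    have e6 : al ω c.1 v.1 = v.2 - c.2 := by rw [al_anti, q6]; ring
    rw [e1, e3, e4, e6]; ring

open Classical in
/-- number of killed ordered balanced triangles. -/
noncomputable def KK [Fintype V] (e : V → V → ℝ) (ω : V × V → ZMod m) : ℝ :=
  ∑ x, ∑ y, ∑ z, tau e ω x y z * (if XX e ω x y ∨ XX e ω y z ∨ XX e ω x z then 1 else 0)

lemma bal_rot {ω : V × V → ZMod m} {x y z : V} : bal ω x y z ↔ bal ω y z x := by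
  unfold bal
  rw [al_anti ω x z, al_anti ω x y]
  constructor
  · intro h; rw [← h]; ring
  · intro h
    have : al ω y z = - al ω x y + al ω x z := by rw [← h]; ring
    rw [this]; ring

lemma tau_rot {e : V → V → ℝ} (hs : ∀ x y, e x y = e y x) {ω : V × V → ZMod m} (x y z : V) :
    tau e ω y z x = tau e ω x y z := by
  unfold tau
  have : bal ω x y z ↔ bal ω y z x := bal_rot
  simp only [this]
  rw [hs z x, hs y x]; ring

lemma bal_swap {ω : V × V → ZMod m} {x y z : V} : bal ω x z y ↔ bal ω x y z := by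
  unfold bal
  rw [al_anti ω y z]
  constructor
  · intro h; rw [← h]; ring
  · intro h; rw [← h]; ring

lemma tau_swap {e : V → V → ℝ} (hs : ∀ x y, e x y = e y x) {ω : V × V → ZMod m} (x y z : V) :
    tau e ω x z y = tau e ω x y z := by
  unfold tau
  have : bal ω x z y ↔ bal ω x y z := bal_swap
  simp only [this]
  rw [hs z y]; ring

lemma tau_nonneg {e : V → V → ℝ} (h0 : ∀ x y, 0 ≤ e x y) (ω : V × V → ZMod m) (x y z : V) :
    0 ≤ tau e ω x y z := by
  unfold tau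
  have := h0 x y
  have := h0 x z
  have := h0 y z
  split_ifs
  · positivity
  · simp

variable [Fintype V]

lemma rot_sum (F : V → V → V → ℝ) : ∑ x, ∑ y, ∑ z, F y z x = ∑ x, ∑ y, ∑ z, F x y z := by
  rw [sum_comm]
  refine sum_congr rfl fun y _ => ?_
  exact sum_comm

variable [NeZero m]

lemma cover_sum {e : V → V → ℝ} (hs : ∀ x y, e x y = e y x) (ω : V × V → ZMod m)
    (s : V → ZMod m → V → ℝ) :
    ∑ x, ∑ y, ∑ z, ∑ g : ZMod m, tau e ω x y z * (s y (g + al ω x y) z * s y (g + al ω x y) x) =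
      ∑ x, ∑ y, ∑ z, ∑ g : ZMod m, tau e ω x y z * (s x g y * s x g z) := by
  have h1 : ∀ x y z, ∑ g : ZMod m,
      tau e ω x y z * (s y (g + al ω x y) z * s y (g + al ω x y) x) =
      ∑ g : ZMod m, tau e ω y z x * (s y g z * s y g x) := by
    intro x y z
    rw [tau_rot hs x y z]
    exact Equiv.sum_comp (Equiv.addRight (al ω x y))
      (fun g => tau e ω x y z * (s y g z * s y g x))
  have h2 : ∑ x, ∑ y, ∑ z, ∑ g : ZMod m,
      tau e ω x y z * (s y (g + al ω x y) z * s y (g + al ω x y) x) =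
      ∑ x, ∑ y, ∑ z, ∑ g : ZMod m, tau e ω y z x * (s y g z * s y g x) :=
    sum_congr rfl fun x _ => sum_congr rfl fun y _ => sum_congr rfl fun z _ => h1 x y z
  rw [h2]
  exact rot_sum (fun x y z => ∑ g : ZMod m, tau e ω x y z * (s x g y * s x g z))

lemma cover_sum' {e : V → V → ℝ} (hs : ∀ x y, e x y = e y x) (ω : V × V → ZMod m)
    (s : V → ZMod m → V → ℝ) :
    ∑ x, ∑ y, ∑ z, ∑ g : ZMod m, tau e ω x y z * (s z (g + al ω x z) x * s z (g + al ω x z) y) =
      ∑ x, ∑ y, ∑ z, ∑ g : ZMod m, tau e ω x y z * (s x g y * s x g z) := by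
  have h1 : ∀ x y z, ∑ g : ZMod m,
      tau e ω x y z * (s z (g + al ω x z) x * s z (g + al ω x z) y) =
      ∑ g : ZMod m, tau e ω z x y * (s z g x * s z g y) := by
    intro x y z
    rw [← tau_rot hs x y z, ← tau_rot hs y z x]
    exact Equiv.sum_comp (Equiv.addRight (al ω x z))
      (fun g => tau e ω z x y * (s z g x * s z g y))
  have h2 : ∑ x, ∑ y, ∑ z, ∑ g : ZMod m,
      tau e ω x y z * (s z (g + al ω x z) x * s z (g + al ω x z) y) =
      ∑ x, ∑ y, ∑ z, ∑ g : ZMod m, tau e ω z x y * (s z g x * s z g y) :=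
    sum_congr rfl fun x _ => sum_congr rfl fun y _ => sum_congr rfl fun z _ => h1 x y z
  rw [h2]
  rw [rot_sum (fun z x y => ∑ g : ZMod m, tau e ω y z x * (s y g z * s y g x))]

end Pool.Agent.L5helper33.Folk
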