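import Pool.Agent.L5helper33.FolkSuper

set_option autoImplicit false

namespace Pool.Agent.L5helper33.Folk

open Finset

variable {V : Type} {m : ℕ} [Fintype V] [DecidableEq V] [NeZero m]

open Classical in
lemma exists_good2 {e : V → V → ℝ} {n D t h : ℝ} (H : Host V e n D t h) (k : ℕ) (hD : D = k)
    (hk : 1 ≤ k) (hn0 : 0 < n) (hn : n ≤ 2 ^ k) (ht : t = 10000 * m)
    (hh : 4800 * h ≤ m ^ 3 * n * D) :
    ∃ ω : V × V → ZMod m, (∀ (x : V) (f : V → ℝ), (∀ y, f y = 1 ∨ f y = -1) →
      1 / 30 * (D * t / m) ≤ ∑ y, ∑ z, tau e ω x y z * (f y * f z + 1 / 3)) ∧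
      4 * m * KK e ω < n * D * t / 50 ∧
      m * ∑ x, ∑ y, ∑ z, tau e ω x y z < 2 * (n * D * t) := by
  by_contra hno
  push Not at hno
  have hm : (0 : ℝ) < m := Nat.cast_pos.mpr (Nat.pos_of_ne_zero (NeZero.ne m))
  have hk1 : (1 : ℝ) ≤ k := by exact_mod_cast hk
  have hDpos : 0 < D := by rw [hD]; linarith
  have htpos : 0 < t := by rw [ht]; positivity
  set N : ℝ := (Fintype.card (V × V → ZMod m) : ℝ) with hN
  have hNpos : 0 < N := Nat.cast_pos.mpr Fintype.card_pos
  let nb : V → Finset V := fun x => univ.filter fun y => e x y = 1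
  have hnb : ∀ x, (nb x).card = k := by
    intro x
    have h1 : ∑ y, e x y = ((nb x).card : ℝ) := by
      have : ∀ y, e x y = if e x y = 1 then 1 else 0 := by
        intro y
        rcases H.zo x y with h | h <;> rw [h] <;> simp
      rw [sum_congr rfl fun y _ => this y, ← sum_filter, sum_const, nsmul_eq_mul, mul_one]
    rw [H.deg, hD] at h1
    exact_mod_cast h1.symm
  let fR : Finset V → V → ℝ := fun R y => if y ∈ R then -1 else 1
  have hfR : ∀ R y, fR R y = 1 ∨ fR R y = -1 := by
    intro R y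
    simp only [fR]
    split_ifs <;> simp
  let B : V → Finset V → Finset (V × V → ZMod m) := fun x R =>
    univ.filter fun ω : V × V → ZMod m =>
      ∑ y, ∑ z, tau e ω x y z * (fR R y * fR R z + 1 / 3) < 1 / 30 * (D * t / m)
  have hB : ∀ x R, ((B x R).card : ℝ) ≤ N * Real.exp (-(D * t / (1800 * m))) :=
    fun x R => exp_moment H x (fR R) (hfR R)
  have K0 : ∀ ω : V × V → ZMod m, 0 ≤ KK e ω := by
    intro ω
    unfold KK
    refine sum_nonneg fun x _ => sum_nonneg fun y _ => sum_nonneg fun z _ => ?_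
    refine mul_nonneg (tau_nonneg H.nonneg ω x y z) ?_
    split_ifs <;> norm_num
  have T0 : ∀ ω : V × V → ZMod m, 0 ≤ ∑ x, ∑ y, ∑ z, tau e ω x y z := fun ω =>
    sum_nonneg fun x _ => sum_nonneg fun y _ => sum_nonneg fun z _ => tau_nonneg H.nonneg ω x y z
  -- each ω is bad
  have pw : ∀ ω : V × V → ZMod m, (1 : ℝ) ≤
      (∑ x, ∑ R ∈ (nb x).powerset, if ω ∈ B x R then (1 : ℝ) else 0) +
        200 * m / (n * D * t) * KK e ω +
        m / (2 * (n * D * t)) * ∑ x, ∑ y, ∑ z, tau e ω x y z := by
    intro ω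
    have nn3 : 0 ≤ m / (2 * (n * D * t)) * ∑ x, ∑ y, ∑ z, tau e ω x y z :=
      mul_nonneg (by positivity) (T0 ω)
    have nn1 : (0 : ℝ) ≤ ∑ x, ∑ R ∈ (nb x).powerset, if ω ∈ B x R then (1 : ℝ) else 0 := by
      refine sum_nonneg fun x _ => sum_nonneg fun R _ => ?_
      split_ifs <;> norm_num
    have nn2 : 0 ≤ 200 * m / (n * D * t) * KK e ω := mul_nonneg (by positivity) (K0 ω)
    by_cases hgood : ∀ (x : V) (f : V → ℝ), (∀ y, f y = 1 ∨ f y = -1) →
      1 / 30 * (D * t / m) ≤ ∑ y, ∑ z, tau e ω x y z * (f y * f z + 1 / 3)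
    · by_cases hK : 4 * m * KK e ω < n * D * t / 50
      · have h1 := hno ω hgood hK
        have h2 : (1 : ℝ) ≤ m / (2 * (n * D * t)) * ∑ x, ∑ y, ∑ z, tau e ω x y z := by
          rw [div_mul_eq_mul_div, le_div_iff₀ (by positivity)]
          linarith
        linarith
      · have h2 : (1 : ℝ) ≤ 200 * m / (n * D * t) * KK e ω := by
          rw [div_mul_eq_mul_div, le_div_iff₀ (by positivity)]
          linarith
        linarith
    · push Not at hgood
      obtain ⟨x, f, hf, hlt⟩ := hgood
      let R : Finset V := (nb x).filter fun y => f y = -1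
      have hR : R ∈ (nb x).powerset := mem_powerset.mpr (filter_subset _ _)
      have hmem : ω ∈ B x R := by
        simp only [B, mem_filter, mem_univ, true_and]
        refine lt_of_eq_of_lt ?_ hlt
        refine sum_congr rfl fun y _ => sum_congr rfl fun z _ => ?_
        by_cases hy : e x y = 1
        · by_cases hz : e x z = 1
          · have e1 : fR R y = f y := by
              simp only [fR]
              by_cases h : f y = -1
              · rw [if_pos (by simp [R, nb, hy, h]), h]
              · rw [if_neg (by simp [R, h])]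
                exact ((hf y).resolve_right h).symm
            have e2 : fR R z = f z := by
              simp only [fR]
              by_cases h : f z = -1
              · rw [if_pos (by simp [R, nb, hz, h]), h]
              · rw [if_neg (by simp [R, h])]
                exact ((hf z).resolve_right h).symm
            rw [e1, e2]
          · have : tau e ω x y z = 0 := by
              unfold tau; rw [(H.zo x z).resolve_right hz]; ring
            rw [this]; ring
        · have : tau e ω x y z = 0 := by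
            unfold tau; rw [(H.zo x y).resolve_right hy]; ring
          rw [this]; ring
      have h1 : (1 : ℝ) ≤ ∑ x, ∑ R ∈ (nb x).powerset, if ω ∈ B x R then (1 : ℝ) else 0 := by
        calc (1 : ℝ) = if ω ∈ B x R then (1 : ℝ) else 0 := by rw [if_pos hmem]
          _ ≤ ∑ R ∈ (nb x).powerset, if ω ∈ B x R then (1 : ℝ) else 0 :=
              single_le_sum (f := fun R => if ω ∈ B x R then (1 : ℝ) else 0)
                (fun R _ => by split_ifs <;> norm_num) hR
          _ ≤ _ := single_le_sum
                (f := fun x => ∑ R ∈ (nb x).powerset, if ω ∈ B x R then (1 : ℝ) else 0)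
                (fun x _ => sum_nonneg fun R _ => by split_ifs <;> norm_num) (mem_univ x)
      linarith
  have tot : N ≤ ∑ ω : V × V → ZMod m,
      ((∑ x, ∑ R ∈ (nb x).powerset, if ω ∈ B x R then (1 : ℝ) else 0) +
        200 * m / (n * D * t) * KK e ω +
        m / (2 * (n * D * t)) * ∑ x, ∑ y, ∑ z, tau e ω x y z) := by
    calc N = ∑ ω : V × V → ZMod m, (1 : ℝ) := by
          rw [sum_const, card_univ, nsmul_eq_mul, mul_one]
      _ ≤ _ := sum_le_sum fun ω _ => pw ω
  rw [sum_add_distrib, sum_add_distrib, ← mul_sum, ← mul_sum] at tot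
  have p1 : ∑ ω : V × V → ZMod m,
      (∑ x, ∑ R ∈ (nb x).powerset, if ω ∈ B x R then (1 : ℝ) else 0) =
      ∑ x, ∑ R ∈ (nb x).powerset, ((B x R).card : ℝ) := by
    rw [sum_comm]
    refine sum_congr rfl fun x _ => ?_
    rw [sum_comm]
    refine sum_congr rfl fun R _ => ?_
    rw [← sum_filter, sum_const, nsmul_eq_mul, mul_one]
    congr 2
    ext ω; simp
  have p2 : ∑ x, ∑ R ∈ (nb x).powerset, ((B x R).card : ℝ) ≤ N / 8 := by
    have q1 : ∑ x, ∑ R ∈ (nb x).powerset, ((B x R).card : ℝ) ≤
        ∑ x, ∑ R ∈ (nb x).powerset, N * Real.exp (-(D * t / (1800 * m))) :=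
      sum_le_sum fun x _ => sum_le_sum fun R _ => hB x R
    refine q1.trans ?_
    have q2 : ∑ x, ∑ R ∈ (nb x).powerset, N * Real.exp (-(D * t / (1800 * m))) =
        n * 2 ^ k * (N * Real.exp (-(D * t / (1800 * m)))) := by
      have : ∀ x, ∑ R ∈ (nb x).powerset, N * Real.exp (-(D * t / (1800 * m))) =
          2 ^ k * (N * Real.exp (-(D * t / (1800 * m)))) := by
        intro x
        rw [sum_const, card_powerset, hnb, nsmul_eq_mul]
        push_cast
        ring
      rw [sum_congr rfl fun x _ => this x, sum_const, card_univ, nsmul_eq_mul, H.card]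
      ring
    rw [q2]
    have q3 : Real.exp (-(D * t / (1800 * m))) ≤ (1 / 2) ^ (5 * k) := by
      have r1 : D * t / (1800 * m) = D * (50 / 9) := by
        rw [ht]; field_simp; norm_num
      have r2 : Real.exp (-(D * t / (1800 * m))) ≤ Real.exp (-((5 * k : ℕ) : ℝ)) := by
        apply Real.exp_le_exp.mpr
        rw [r1, hD]
        push_cast
        linarith
      refine r2.trans ?_
      have r3 : Real.exp (-((5 * k : ℕ) : ℝ)) = (Real.exp (-1)) ^ (5 * k) := by
        rw [← Real.exp_nat_mul]
        congr 1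
        ring
      rw [r3]
      apply pow_le_pow_left₀ (Real.exp_pos _).le
      rw [Real.exp_neg, one_div]
      apply inv_anti₀ (by norm_num)
      have := Real.add_one_le_exp 1
      linarith
    have q4 : n * 2 ^ k * (N * Real.exp (-(D * t / (1800 * m)))) ≤
        2 ^ k * 2 ^ k * (N * (1 / 2) ^ (5 * k)) := by
      apply mul_le_mul
      · exact mul_le_mul_of_nonneg_right hn (by positivity)
      · exact mul_le_mul_of_nonneg_left q3 hNpos.le
      · exact mul_nonneg hNpos.le (Real.exp_pos _).le
      · positivity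
    refine q4.trans ?_
    have q5 : (2 : ℝ) ^ k * 2 ^ k * (N * (1 / 2) ^ (5 * k)) = N * (1 / 8) ^ k := by
      have : (1 / 8 : ℝ) = 2 * 2 * (1 / 2) ^ 5 := by norm_num
      rw [this, mul_pow, mul_pow, ← pow_mul]
      ring
    rw [q5]
    have q6 : (1 / 8 : ℝ) ^ k ≤ 1 / 8 := by
      calc (1 / 8 : ℝ) ^ k ≤ (1 / 8) ^ 1 := pow_le_pow_of_le_one (by norm_num) (by norm_num) hk
        _ = 1 / 8 := by norm_num
    calc N * (1 / 8) ^ k ≤ N * (1 / 8) := mul_le_mul_of_nonneg_left q6 hNpos.le
      _ = N / 8 := by ring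
  have p3 : 200 * m / (n * D * t) * ∑ ω : V × V → ZMod m, KK e ω ≤ N / 4 := by
    have r1 := KK_sum (m := m) H
    have r2 : ∑ ω : V × V → ZMod m, KK e ω ≤ 6 * h * t * N / m ^ 4 := by
      rw [le_div_iff₀ (by positivity)]
      linarith
    calc 200 * m / (n * D * t) * ∑ ω : V × V → ZMod m, KK e ω ≤
        200 * m / (n * D * t) * (6 * h * t * N / m ^ 4) :=
          mul_le_mul_of_nonneg_left r2 (by positivity)
      _ = (4800 * h) / (m ^ 3 * n * D) * (N / 4) := by field_simp; ring
      _ ≤ 1 * (N / 4) := by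
          refine mul_le_mul_of_nonneg_right ?_ (by positivity)
          rw [div_le_one (by positivity)]
          exact hh
      _ = N / 4 := one_mul _
  have p4 : m / (2 * (n * D * t)) * ∑ ω : V × V → ZMod m, ∑ x, ∑ y, ∑ z, tau e ω x y z =
      N / 2 := by
    have r1 := tot_sum (m := m) H
    calc m / (2 * (n * D * t)) * ∑ ω : V × V → ZMod m, ∑ x, ∑ y, ∑ z, tau e ω x y z =
        (m * ∑ ω : V × V → ZMod m, ∑ x, ∑ y, ∑ z, tau e ω x y z) / (2 * (n * D * t)) := by
          rw [div_mul_eq_mul_div]
      _ = N / 2 := by rw [r1, ← hN]; field_simp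
  rw [p1] at tot
  linarith

end Pool.Agent.L5helper33.Folk
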