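import Pool.Agent.L5helper33.FolkDet

set_option autoImplicit false

namespace Pool.Agent.L5helper33.Folk

open Finset

variable {V : Type} {m : ℕ} [Fintype V] [DecidableEq V] [NeZero m]

omit [DecidableEq V] in
/-- a symmetric double sum vanishing on the diagonal is twice the sum over ordered pairs -/
lemma sym_sum (ι : V → ℕ) (hι : Function.Injective ι) (F : V → V → ℝ)
    (hF : ∀ y z, F y z = F z y) (h0 : ∀ y, F y y = 0) :
    ∑ y, ∑ z, F y z = 2 * ∑ p ∈ (univ : Finset (V × V)).filter (fun p => ι p.1 < ι p.2),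
      F p.1 p.2 := by
  have h1 : ∑ p ∈ (univ : Finset (V × V)).filter (fun p => ι p.1 < ι p.2), F p.1 p.2 =
      ∑ y, ∑ z, if ι y < ι z then F y z else 0 := by
    rw [sum_filter, Fintype.sum_prod_type]
  have h2 : ∑ y, ∑ z, (if ι y < ι z then F y z else 0) =
      ∑ y, ∑ z, (if ι z < ι y then F y z else 0) := by
    rw [sum_comm]
    refine sum_congr rfl fun y _ => sum_congr rfl fun z _ => ?_
    rw [hF z y]
  have h3 : ∀ y z, F y z = (if ι y < ι z then F y z else 0) +
      (if ι z < ι y then F y z else 0) := by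
    intro y z
    rcases lt_trichotomy (ι y) (ι z) with h | h | h
    · rw [if_pos h, if_neg (not_lt.mpr h.le), add_zero]
    · have : y = z := hι h
      subst this
      simp [h0]
    · rw [if_neg (not_lt.mpr h.le), if_pos h, zero_add]
  rw [h1]
  have h4 : ∑ y, ∑ z, F y z = ∑ y, ∑ z, ((if ι y < ι z then F y z else 0) +
      (if ι z < ι y then F y z else 0)) :=
    sum_congr rfl fun y _ => sum_congr rfl fun z _ => h3 y z
  rw [h4]
  simp only [sum_add_distrib]
  rw [← h2]
  ring

open Classical in
lemma exp_moment {e : V → V → ℝ} {n D t h : ℝ} (H : Host V e n D t h) (x : V)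
    (f : V → ℝ) (hf : ∀ y, f y = 1 ∨ f y = -1) :
    ((univ.filter fun ω : V × V → ZMod m =>
      ∑ y, ∑ z, tau e ω x y z * (f y * f z + 1 / 3) < 1 / 30 * (D * t / m)).card : ℝ) ≤
      (Fintype.card (V × V → ZMod m) : ℝ) * Real.exp (-(D * t / (1800 * m))) := by
  have hm : (0 : ℝ) < m := Nat.cast_pos.mpr (Nat.pos_of_ne_zero (NeZero.ne m))
  obtain ⟨ι, hι⟩ : ∃ ι : V → ℕ, Function.Injective ι := by
    refine ⟨fun v => (Fintype.equivFin V v).val, fun a b hab => ?_⟩
    exact (Fintype.equivFin V).injective (Fin.ext hab)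
  have zo1 : ∀ a b, e a b ≠ 1 → e a b = 0 := fun a b hab => (H.zo a b).resolve_right hab
  let w : V × V → ℝ := fun p => f p.1 * f p.2 + 1 / 3
  let A : Finset (V × V) := univ.filter fun p => ι p.1 < ι p.2 ∧ e x p.1 = 1 ∧ e x p.2 = 1 ∧
    e p.1 p.2 = 1
  have hA : ∀ p ∈ A, ι p.1 < ι p.2 ∧ p.1 ≠ x ∧ p.2 ≠ x := by
    intro p hp
    simp only [A, mem_filter, mem_univ, true_and] at hp
    refine ⟨hp.1, ?_, ?_⟩
    · intro hx
      have := hp.2.1
      rw [hx, H.irr] at this
      norm_num at this
    · intro hx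
      have := hp.2.2.1
      rw [hx, H.irr] at this
      norm_num at this
  -- sums over A
  have conv : ∀ F : V × V → ℝ, (∀ y z, F (y, z) = F (z, y)) →
      ∑ y, ∑ z, e x y * e x z * e y z * F (y, z) = 2 * ∑ p ∈ A, F p := by
    intro F hF
    rw [sym_sum ι hι (fun y z => e x y * e x z * e y z * F (y, z)) (fun y z => by
      rw [hF y z, H.symm y z]; ring) (fun y => by rw [H.irr]; ring)]
    congr 1
    have hAA : A = ((univ : Finset (V × V)).filter (fun p => ι p.1 < ι p.2)).filter
        (fun p => e x p.1 = 1 ∧ e x p.2 = 1 ∧ e p.1 p.2 = 1) := by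
      ext p; simp [A]
    rw [hAA, sum_filter (s := (univ : Finset (V × V)).filter (fun p => ι p.1 < ι p.2))]
    refine sum_congr rfl fun p _ => ?_
    by_cases h1 : e x p.1 = 1
    · by_cases h2 : e x p.2 = 1
      · by_cases h3 : e p.1 p.2 = 1
        · rw [if_pos ⟨h1, h2, h3⟩, h1, h2, h3]; simp
        · rw [if_neg (fun hh => h3 hh.2.2), zo1 _ _ h3]; simp
      · rw [if_neg (fun hh => h2 hh.2.1), zo1 _ _ h2]; simp
    · rw [if_neg (fun hh => h1 hh.1), zo1 _ _ h1]; simp
  have convω : ∀ ω : V × V → ZMod m, ∑ y, ∑ z, tau e ω x y z * (f y * f z + 1 / 3) =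
      2 * ∑ p ∈ A, (if bal ω x p.1 p.2 then w p else 0) := by
    intro ω
    rw [← conv (fun p => if bal ω x p.1 p.2 then w p else 0) (by
      intro y z
      have : bal ω x z y ↔ bal ω x y z := bal_swap
      simp only [this, w]
      rw [mul_comm (f z) (f y)])]
    refine sum_congr rfl fun y _ => sum_congr rfl fun z _ => ?_
    simp only [tau, w]
    split_ifs <;> ring
  have degf : ∑ y, e x y = D := H.deg x
  have tot : ∑ y, ∑ z, e x y * e x z * e y z = D * t := by
    have : ∀ y, ∑ z, e x y * e x z * e y z = t * e x y := by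
      intro y
      rw [← H.codeg x y, mul_sum]
      exact sum_congr rfl fun z _ => by ring
    rw [sum_congr rfl fun y _ => this y, ← mul_sum, degf]
    ring
  have quad : - (t / 5 * D) ≤ ∑ y, ∑ z, e x y * e x z * e y z * (f y * f z) := by
    have h1 := (H.psd x).2 f
    have h2 : ∑ y, ∑ z, (e x y * e x z * e y z + (if y = z then t / 5 * e x y else 0)) *
        f y * f z = ∑ y, ∑ z, e x y * e x z * e y z * (f y * f z) + t / 5 * D := by
      have : ∀ y z, (e x y * e x z * e y z + (if y = z then t / 5 * e x y else 0)) *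
        f y * f z = e x y * e x z * e y z * (f y * f z) + (if y = z then t / 5 * e x y else 0) := by
        intro y z
        by_cases hyz : y = z
        · subst hyz
          rw [if_pos rfl]
          have : f y * f y = 1 := by rcases hf y with h | h <;> rw [h] <;> norm_num
          have e1 : (e x y * e x y * e y y + t / 5 * e x y) * f y * f y =
            (e x y * e x y * e y y) * (f y * f y) + t / 5 * e x y * (f y * f y) := by ring
          rw [e1, this]; ring
        · rw [if_neg hyz]; ring
      simp only [this, sum_add_distrib]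
      congr 1
      simp only [sum_ite_eq, mem_univ, if_true]
      rw [← mul_sum, degf]
    rw [h2] at h1
    linarith
  have cardA : 2 * (A.card : ℝ) = D * t := by
    have := conv (fun _ => 1) (fun _ _ => rfl)
    simp only [mul_one, sum_const, nsmul_eq_mul] at this
    rw [← this, tot]
  have hwsum : D * t / 15 ≤ ∑ p ∈ A, w p := by
    have h1 := conv w (fun y z => by simp only [w]; ring)
    have h2 : ∑ y, ∑ z, e x y * e x z * e y z * w (y, z) =
        ∑ y, ∑ z, e x y * e x z * e y z * (f y * f z) + 1 / 3 * (D * t) := by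
      rw [← tot, mul_sum, ← sum_add_distrib]
      refine sum_congr rfl fun y _ => ?_
      rw [mul_sum, ← sum_add_distrib]
      refine sum_congr rfl fun z _ => ?_
      simp only [w]; ring
    rw [h2] at h1
    linarith
  have hw1 : ∀ p, |w p| ≤ 4 / 3 := by
    intro p
    simp only [w]
    rcases hf p.1 with h | h <;> rcases hf p.2 with h' | h' <;> rw [h, h', abs_le] <;>
      constructor <;> norm_num
  have hw2 : ∑ p ∈ A, (w p) ^ 2 ≤ 8 / 9 * (D * t) := by
    have : ∀ p ∈ A, (w p) ^ 2 ≤ 16 / 9 := by
      intro p _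
      have h1 := hw1 p
      have h2 : (w p) ^ 2 = |w p| ^ 2 := (sq_abs _).symm
      rw [h2]
      have h3 := abs_nonneg (w p)
      nlinarith
    refine (sum_le_sum this).trans ?_
    rw [sum_const, nsmul_eq_mul]
    linarith
  -- the exponential moment
  let g : V × V → ℝ := fun p => Real.exp (-(1 / 30) * w p)
  have hg : ∀ p, g p - 1 ≤ -(1 / 30) * w p + (1 / 900) * (w p) ^ 2 := by
    intro p
    have h1 : |-(1 / 30) * w p| ≤ 1 := by
      rw [abs_mul]
      have := hw1 p
      have h2 : |(-(1 / 30) : ℝ)| = 1 / 30 := by rw [abs_neg, abs_of_pos]; norm_num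
      rw [h2]
      linarith
    have h2 := Real.abs_exp_sub_one_sub_id_le h1
    have h3 := (abs_le.mp h2).2
    have h4 : (-(1 / 30) * w p) ^ 2 = (1 / 900) * (w p) ^ 2 := by ring
    rw [h4] at h3
    simp only [g]
    linarith
  have hgpos : ∀ p, 0 < g p := fun p => Real.exp_pos _
  have hm1 : (1 : ℝ) ≤ m := by exact_mod_cast Nat.pos_of_ne_zero (NeZero.ne m)
  have P1 := prod_sum (m := m) ι x g A hA
  have P2 : ∏ p ∈ A, (1 + (g p - 1) / m) ≤ Real.exp (-(D * t) / (810 * m)) := by
    calc ∏ p ∈ A, (1 + (g p - 1) / m) ≤ ∏ p ∈ A, Real.exp ((g p - 1) / m) := by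
          refine prod_le_prod (fun p _ => ?_) (fun p _ => ?_)
          · have h1 : -1 / (m : ℝ) ≤ (g p - 1) / m := by
              apply div_le_div_of_nonneg_right _ hm.le
              have := hgpos p
              linarith
            have h2 : -1 ≤ -1 / (m : ℝ) := by
              rw [le_div_iff₀ hm]
              linarith
            linarith
          · rw [add_comm]
            exact Real.add_one_le_exp _
      _ = Real.exp (∑ p ∈ A, (g p - 1) / m) := (Real.exp_sum _ _).symm
      _ ≤ _ := by
          apply Real.exp_le_exp.mpr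
          rw [← sum_div]
          have h1 : ∑ p ∈ A, (g p - 1) ≤ -(D * t) / 810 := by
            calc ∑ p ∈ A, (g p - 1) ≤ ∑ p ∈ A, (-(1 / 30) * w p + (1 / 900) * (w p) ^ 2) :=
                  sum_le_sum fun p _ => hg p
              _ = -(1 / 30) * ∑ p ∈ A, w p + (1 / 900) * ∑ p ∈ A, (w p) ^ 2 := by
                  rw [sum_add_distrib, ← mul_sum, ← mul_sum]
              _ ≤ _ := by linarith
          calc (∑ p ∈ A, (g p - 1)) / m ≤ (-(D * t) / 810) / m :=
                div_le_div_of_nonneg_right h1 hm.le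
            _ = _ := by rw [div_div]
  have P3 : ∀ ω : V × V → ZMod m, ∏ p ∈ A, (if bal ω x p.1 p.2 then g p else 1) =
      Real.exp (-(1 / 30) * ∑ p ∈ A, (if bal ω x p.1 p.2 then w p else 0)) := by
    intro ω
    rw [mul_sum, Real.exp_sum]
    refine prod_congr rfl fun p _ => ?_
    split_ifs
    · rfl
    · simp
  set B := (univ.filter fun ω : V × V → ZMod m =>
      ∑ y, ∑ z, tau e ω x y z * (f y * f z + 1 / 3) < 1 / 30 * (D * t / m)) with hB
  have P4 : (B.card : ℝ) * Real.exp (-(D * t / (1800 * m))) ≤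
      ∑ ω : V × V → ZMod m, ∏ p ∈ A, (if bal ω x p.1 p.2 then g p else 1) := by
    calc (B.card : ℝ) * Real.exp (-(D * t / (1800 * m))) =
        ∑ ω ∈ B, Real.exp (-(D * t / (1800 * m))) := by rw [sum_const, nsmul_eq_mul]
      _ ≤ ∑ ω ∈ B, ∏ p ∈ A, (if bal ω x p.1 p.2 then g p else 1) := by
          refine sum_le_sum fun ω hω => ?_
          rw [P3]
          apply Real.exp_le_exp.mpr
          rw [hB, mem_filter] at hω
          have h1 := hω.2
          rw [convω] at h1
          have h2 : D * t / (1800 * m) = 1 / 30 * (1 / 60 * (D * t / m)) := by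
            field_simp; ring
          rw [h2]
          linarith
      _ ≤ _ := by
          refine sum_le_sum_of_subset_of_nonneg (subset_univ _) fun ω _ _ => ?_
          refine prod_nonneg fun p _ => ?_
          split_ifs
          · exact (hgpos p).le
          · exact zero_le_one
  rw [P1] at P4
  have hΩ : (0 : ℝ) ≤ (Fintype.card (V × V → ZMod m) : ℝ) := Nat.cast_nonneg _
  have P5 : (B.card : ℝ) * Real.exp (-(D * t / (1800 * m))) ≤
      (Fintype.card (V × V → ZMod m) : ℝ) * Real.exp (-(D * t) / (810 * m)) :=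
    P4.trans (mul_le_mul_of_nonneg_left P2 hΩ)
  have hDt : 0 ≤ D * t := by
    rw [← cardA]; positivity
  have P6 : (B.card : ℝ) ≤ (Fintype.card (V × V → ZMod m) : ℝ) *
      (Real.exp (-(D * t) / (810 * m)) * Real.exp (D * t / (1800 * m))) := by
    have h1 : (B.card : ℝ) = (B.card : ℝ) * Real.exp (-(D * t / (1800 * m))) *
        Real.exp (D * t / (1800 * m)) := by
      rw [mul_assoc, ← Real.exp_add]; simp
    rw [h1, ← mul_assoc]
    exact mul_le_mul_of_nonneg_right P5 (Real.exp_pos _).le
  refine P6.trans (mul_le_mul_of_nonneg_left ?_ hΩ)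
  rw [← Real.exp_add]
  apply Real.exp_le_exp.mpr
  have h1 : -(D * t) / (810 * m) = -(1 / 810) * (D * t / m) := by field_simp
  have h2 : D * t / (1800 * m) = (1 / 1800) * (D * t / m) := by field_simp
  have h3 : 0 ≤ D * t / m := div_nonneg hDt hm.le
  rw [h1, h2]
  linarith

end Pool.Agent.L5helper33.Folk
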