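import Pool.Agent.L5helper33.FolkEx2

set_option autoImplicit false

namespace Pool.Agent.L5helper33.Folk

open Finset

lemma numeric2 : (4800 : ℝ) * 1276800 ^ 728 ≤ (10 ^ 724) ^ 3 * 64 ^ 728 * 21 ^ 728 := by
  have h1 : (4.2 : ℝ) ≤ (20 / 19) ^ 28 := by norm_num
  have h2 : (4.2 : ℝ) ^ 26 ≤ (20 / 19) ^ 728 := by
    calc (4.2 : ℝ) ^ 26 ≤ ((20 / 19) ^ 28) ^ 26 := pow_le_pow_left₀ (by norm_num) h1 26
      _ = (20 / 19) ^ 728 := by rw [← pow_mul]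
  have h3 : (1344000 : ℝ) ^ 728 = 1276800 ^ 728 * (20 / 19) ^ 728 := by
    rw [← mul_pow]; norm_num
  have h4 : (1344000 : ℝ) ^ 728 = 10 ^ 12 * ((10 ^ 724) ^ 3 * 64 ^ 728 * 21 ^ 728) := by
    have e1 : (1344000 : ℝ) = 10 ^ 3 * 64 * 21 := by norm_num
    have e2 : ((10 : ℝ) ^ 3) ^ 728 = 10 ^ 12 * (10 ^ 724) ^ 3 := by
      rw [← pow_mul, ← pow_mul, ← pow_add]
    rw [e1, mul_pow, mul_pow, e2]
    ring
  have h5 : (0 : ℝ) < 1276800 ^ 728 := by positivity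
  have h6 : (4800 : ℝ) * 10 ^ 12 < 4.2 ^ 26 := by norm_num
  have h7 : (4800 : ℝ) * 10 ^ 12 < (20 / 19) ^ 728 := h6.trans_le h2
  have h8 : 10 ^ 12 * ((4800 : ℝ) * 1276800 ^ 728) <
      10 ^ 12 * ((10 ^ 724) ^ 3 * 64 ^ 728 * 21 ^ 728) := by
    rw [← h4, h3]
    calc 10 ^ 12 * ((4800 : ℝ) * 1276800 ^ 728) = 1276800 ^ 728 * (4800 * 10 ^ 12) := by ring
      _ < 1276800 ^ 728 * (20 / 19) ^ 728 := mul_lt_mul_of_pos_left h7 h5
  exact (lt_of_mul_lt_mul_left h8 (by positivity)).le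

lemma numeric3 : (64 : ℕ) ^ 728 * 10 ^ 724 ≤ 10 ^ 2040 := by
  have h1 : (2 : ℕ) ^ 93 ≤ 10 ^ 28 := by norm_num
  have h2 : (2 : ℕ) ^ 90 ≤ 10 ^ 28 := by norm_num
  calc (64 : ℕ) ^ 728 * 10 ^ 724 = (2 ^ 93) ^ 46 * 2 ^ 90 * 10 ^ 724 := by
        rw [← pow_mul, ← pow_add, show (64 : ℕ) = 2 ^ 6 by norm_num, ← pow_mul]
    _ ≤ (10 ^ 28) ^ 46 * 10 ^ 28 * 10 ^ 724 :=
        Nat.mul_le_mul_right _ (Nat.mul_le_mul (Nat.pow_le_pow_left h1 46) h2)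
    _ = 10 ^ 2040 := by rw [← pow_mul, ← pow_add, ← pow_add]

open Classical in
lemma exists_graph2 : ∃ (W : Type) (_ : Fintype W) (G : SimpleGraph W),
    Fintype.card W ≤ 10 ^ 2040 ∧
    (∀ c : Sym2 W → Bool,
      0 < (∑ p : W, ∑ q : W, ∑ r : W, (if TT G p q r then (1 : ℝ) else 0)) ∧
      (∑ p : W, ∑ q : W, ∑ r : W, (if TT G p q r then (1 : ℝ) else 0)) ≤
        100 * ∑ p : W, ∑ q : W, ∑ r : W, (if MT G c p q r then (1 : ℝ) else 0)) ∧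
    (∀ u v a b c : W, u ≠ v → c ≠ a → c ≠ b → G.Adj u a → G.Adj u b → G.Adj u c →
      G.Adj v a → G.Adj v b → G.Adj v c → G.Adj a b → False) := by
  obtain ⟨V, iF, iD, e, H⟩ := host_pow 727
  obtain ⟨m, hm⟩ : ∃ m : ℕ, m = 10 ^ 724 := ⟨_, rfl⟩
  obtain ⟨k, hk⟩ : ∃ k : ℕ, k = 21 ^ 728 := ⟨_, rfl⟩
  have hm0 : NeZero m := ⟨by rw [hm]; positivity⟩
  have hmpos : (0 : ℝ) < m := Nat.cast_pos.mpr (Nat.pos_of_ne_zero (NeZero.ne m))
  have hmR : (m : ℝ) = 10 ^ 724 := by rw [hm]; push_cast; rfl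
  have hkR : (21 : ℝ) ^ (727 + 1) = (k : ℝ) := by rw [hk]; push_cast; rfl
  have hk3 : 4368 ≤ k := by
    rw [hk]
    calc 4368 ≤ 21 ^ 3 := by norm_num
      _ ≤ 21 ^ 728 := Nat.pow_le_pow_right (by norm_num) (by norm_num)
  obtain ⟨ω, h1, h2, h3⟩ := exists_good2 (m := m) H k hkR (by omega) (by positivity) (by
    calc (64 : ℝ) ^ (727 + 1) = (2 ^ 6) ^ 728 := by norm_num
      _ = 2 ^ 4368 := by rw [← pow_mul]
      _ ≤ 2 ^ k := pow_le_pow_right₀ (by norm_num) hk3) (by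
    rw [hmR]
    calc (10 : ℝ) ^ (727 + 1) = 10 ^ (4 + 724) := rfl
      _ = 10 ^ 4 * 10 ^ 724 := by rw [pow_add]
      _ = 10000 * 10 ^ 724 := by norm_num) (by
    rw [hmR]
    exact numeric2)
  refine ⟨V × ZMod m, inferInstance, cover e H.symm H.irr ω, ?_, ?_, ?_⟩
  · rw [Fintype.card_prod, ZMod.card]
    have hc : Fintype.card V = 64 ^ 728 := by
      have := H.card
      have h64 : (64 : ℝ) ^ (727 + 1) = ((64 ^ 728 : ℕ) : ℝ) := by push_cast; rfl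
      rw [h64] at this
      exact_mod_cast this
    rw [hc, hm]
    exact numeric3
  · intro c
    have g1 := mono_count H ω h1 c
    have g2 := total_count H ω
    set X := (64 : ℝ) ^ (727 + 1) * 21 ^ (727 + 1) * 10 ^ (727 + 1) with hX
    have hXpos : 0 < X := by positivity
    set M := ∑ p : V × ZMod m, ∑ q : V × ZMod m, ∑ r : V × ZMod m,
      (if MT (cover e H.symm H.irr ω) c p q r then (1 : ℝ) else 0) with hM
    set TT' := ∑ p : V × ZMod m, ∑ q : V × ZMod m, ∑ r : V × ZMod m,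
      (if TT (cover e H.symm H.irr ω) p q r then (1 : ℝ) else 0) with hTT
    have hMT : M ≤ TT' := by
      refine sum_le_sum fun p _ => sum_le_sum fun q _ => sum_le_sum fun r _ => ?_
      by_cases hh : MT (cover e H.symm H.irr ω) c p q r
      · rw [if_pos hh, if_pos ⟨hh.1, hh.2.1, hh.2.2.1⟩]
      · rw [if_neg hh]
        split_ifs <;> norm_num
    constructor
    · linarith
    · linarith
  · exact cover_free e H.symm H.irr ω

end Pool.Agent.L5helper33.Folk
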