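import Mathlib

set_option autoImplicit false

namespace Pool.Agent.L5helper33.Folk

open Finset Matrix

/-- Symmetric and positive semidefinite as a quadratic form. -/
def PSD {V : Type} [Fintype V] (M : V → V → ℝ) : Prop :=
  (∀ y z, M y z = M z y) ∧ ∀ f : V → ℝ, 0 ≤ ∑ y, ∑ z, M y z * f y * f z

lemma psd_iff {V : Type} [Fintype V] (M : V → V → ℝ) :
    PSD M ↔ (Matrix.of M).PosSemidef := by
  rw [posSemidef_iff_dotProduct_mulVec]
  constructor
  · rintro ⟨h1, h2⟩
    refine ⟨?_, ?_⟩
    · ext i j
      simp [conjTranspose_apply, h1 j i]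
    · intro f
      have := h2 f
      simp only [dotProduct, mulVec, of_apply, star_trivial, Pi.star_apply]
      refine this.trans (le_of_eq ?_)
      refine sum_congr rfl fun y _ => ?_
      rw [mul_sum]
      refine sum_congr rfl fun z _ => ?_
      ring
  · rintro ⟨h1, h2⟩
    refine ⟨?_, ?_⟩
    · intro y z
      have := congrFun (congrFun h1 y) z
      simp [conjTranspose_apply] at this
      exact this.symm
    · intro f
      have := h2 f
      simp only [dotProduct, mulVec, of_apply, star_trivial, Pi.star_apply] at this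
      refine this.trans (le_of_eq ?_)
      refine sum_congr rfl fun y _ => ?_
      rw [mul_sum]
      refine sum_congr rfl fun z _ => ?_
      ring

lemma PSD.kron {V W : Type} [Fintype V] [Fintype W] {M : V → V → ℝ} {N : W → W → ℝ}
    (hM : PSD M) (hN : PSD N) :
    PSD (fun p q : V × W => M p.1 q.1 * N p.2 q.2) := by
  rw [psd_iff] at *
  exact hM.kronecker hN

lemma PSD.add {V : Type} [Fintype V] {M N : V → V → ℝ} (hM : PSD M) (hN : PSD N) :
    PSD (fun y z => M y z + N y z) := by
  refine ⟨fun y z => by beta_reduce; rw [hM.1 y z, hN.1 y z], fun f => ?_⟩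
  have h1 := hM.2 f
  have h2 := hN.2 f
  have : ∑ y, ∑ z, (M y z + N y z) * f y * f z =
      (∑ y, ∑ z, M y z * f y * f z) + ∑ y, ∑ z, N y z * f y * f z := by
    rw [← sum_add_distrib]
    refine sum_congr rfl fun y _ => ?_
    rw [← sum_add_distrib]
    refine sum_congr rfl fun z _ => ?_
    ring
  linarith

lemma PSD.smul {V : Type} [Fintype V] {M : V → V → ℝ} (hM : PSD M) {c : ℝ} (hc : 0 ≤ c) :
    PSD (fun y z => c * M y z) := by
  refine ⟨fun y z => by beta_reduce; rw [hM.1 y z], fun f => ?_⟩
  have h1 := hM.2 f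
  have : ∑ y, ∑ z, (c * M y z) * f y * f z = c * ∑ y, ∑ z, M y z * f y * f z := by
    rw [mul_sum]
    refine sum_congr rfl fun y _ => ?_
    rw [mul_sum]
    refine sum_congr rfl fun z _ => ?_
    ring
  rw [this]
  positivity

/-- The host: a `0/1` valued symmetric relation with all degrees `D`, all codegrees of edges `t`,
local graphs with all eigenvalues at least `-t/5`, and `h` homomorphic copies of `K_{2,3}` plus an
edge. -/
structure Host (V : Type) [Fintype V] [DecidableEq V] (e : V → V → ℝ) (n D t h : ℝ) : Prop where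
  zo : ∀ x y, e x y = 0 ∨ e x y = 1
  symm : ∀ x y, e x y = e y x
  irr : ∀ x, e x x = 0
  card : (Fintype.card V : ℝ) = n
  deg : ∀ x, ∑ y, e x y = D
  codeg : ∀ x y, e x y * ∑ z, e x z * e y z = t * e x y
  psd : ∀ x, PSD (fun y z => e x y * e x z * e y z + (if y = z then t / 5 * e x y else 0))
  hcount : ∑ u, ∑ v, ∑ a, ∑ b, ∑ c,
    e u a * e u b * e u c * e v a * e v b * e v c * e a b = h

lemma Host.nonneg {V : Type} [Fintype V] [DecidableEq V] {e : V → V → ℝ} {n D t h : ℝ}
    (H : Host V e n D t h) (x y : V) : 0 ≤ e x y := by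
  rcases H.zo x y with h | h <;> rw [h] <;> norm_num

lemma Host.sq {V : Type} [Fintype V] [DecidableEq V] {e : V → V → ℝ} {n D t h : ℝ}
    (H : Host V e n D t h) (x y : V) : e x y * e x y = e x y := by
  rcases H.zo x y with h | h <;> rw [h] <;> norm_num

lemma Host.psd' {V : Type} [Fintype V] [DecidableEq V] {e : V → V → ℝ} {n D t h : ℝ}
    (H : Host V e n D t h) (x : V) :
    PSD (fun y z => (if y = z then t * e x y else 0) - e x y * e x z * e y z) := by
  refine ⟨fun y z => ?_, fun f => ?_⟩
  · beta_reduce
    rw [H.symm y z]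
    by_cases h : y = z
    · subst h; ring
    · rw [if_neg h, if_neg (Ne.symm h)]; ring
  · have h1 : ∀ y, ∑ z, e x y * e x z * e y z = t * e x y := by
      intro y
      rw [← H.codeg x y, mul_sum]
      exact sum_congr rfl fun z _ => by ring
    have h2 : ∀ z, ∑ y, e x y * e x z * e y z = t * e x z := by
      intro z
      rw [← H.codeg x z, mul_sum]
      exact sum_congr rfl fun y _ => by rw [H.symm z y]; ring
    have key : ∑ y, ∑ z, ((if y = z then t * e x y else 0) - e x y * e x z * e y z) * f y * f z
        = (1 / 2) * ∑ y, ∑ z, e x y * e x z * e y z * (f y - f z) ^ 2 := by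
      have e1 : ∑ y, ∑ z, ((if y = z then t * e x y else 0) - e x y * e x z * e y z) * f y * f z
          = (∑ y, t * e x y * f y ^ 2) - ∑ y, ∑ z, e x y * e x z * e y z * (f y * f z) := by
        rw [← sum_sub_distrib]
        refine sum_congr rfl fun y _ => ?_
        have : ∀ z, ((if y = z then t * e x y else 0) - e x y * e x z * e y z) * f y * f z
            = (if y = z then t * e x y * f y ^ 2 else 0) - e x y * e x z * e y z * (f y * f z) := by
          intro z
          by_cases h : y = z
          · subst h; simp; ring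
          · simp [h]; ring
        rw [sum_congr rfl fun z _ => this z, sum_sub_distrib]
        simp
      have e2 : ∑ y, ∑ z, e x y * e x z * e y z * (f y - f z) ^ 2
          = (∑ y, ∑ z, e x y * e x z * e y z * f y ^ 2)
            + (∑ y, ∑ z, e x y * e x z * e y z * f z ^ 2)
            - 2 * ∑ y, ∑ z, e x y * e x z * e y z * (f y * f z) := by
        rw [mul_sum, ← sum_add_distrib, ← sum_sub_distrib]
        refine sum_congr rfl fun y _ => ?_
        rw [mul_sum, ← sum_add_distrib, ← sum_sub_distrib]
        refine sum_congr rfl fun z _ => ?_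
        ring
      have e3 : ∑ y, ∑ z, e x y * e x z * e y z * f y ^ 2 = ∑ y, t * e x y * f y ^ 2 := by
        refine sum_congr rfl fun y _ => ?_
        rw [← sum_mul, h1]
      have e4 : ∑ y, ∑ z, e x y * e x z * e y z * f z ^ 2 = ∑ y, t * e x y * f y ^ 2 := by
        rw [sum_comm]
        refine sum_congr rfl fun y _ => ?_
        rw [← sum_mul, h2]
      rw [e1, e2, e3, e4]
      ring
    rw [key]
    refine mul_nonneg (by norm_num) (sum_nonneg fun y _ => sum_nonneg fun z _ => ?_)
    have := H.nonneg x y
    have := H.nonneg x z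
    have := H.nonneg y z
    positivity

lemma sum_prod_mul {V W : Type} [Fintype V] [Fintype W] (F : V → ℝ) (G : W → ℝ) :
    ∑ p : V × W, F p.1 * G p.2 = (∑ v, F v) * ∑ w, G w := by
  rw [Fintype.sum_prod_type, sum_mul_sum]

/-- Tensor products of hosts are hosts. -/
lemma Host.prod {V W : Type} [Fintype V] [DecidableEq V] [Fintype W] [DecidableEq W]
    {e : V → V → ℝ} {e' : W → W → ℝ} {n D t h n' D' t' h' : ℝ}
    (H : Host V e n D t h) (H' : Host W e' n' D' t' h') :
    Host (V × W) (fun p q => e p.1 q.1 * e' p.2 q.2) (n * n') (D * D') (t * t') (h * h') where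
  zo p q := by
    rcases H.zo p.1 q.1 with h | h <;> rcases H'.zo p.2 q.2 with h' | h' <;> simp [h, h']
  symm p q := by rw [H.symm, H'.symm]
  irr p := by rw [H.irr]; ring
  card := by rw [Fintype.card_prod]; push_cast; rw [H.card, H'.card]
  deg p := by
    rw [Fintype.sum_prod_type, ← H.deg p.1, ← H'.deg p.2, sum_mul_sum]
  codeg p q := by
    have : ∑ z : V × W, (e p.1 z.1 * e' p.2 z.2) * (e q.1 z.1 * e' q.2 z.2)
        = (∑ z, e p.1 z * e q.1 z) * ∑ z, e' p.2 z * e' q.2 z := by
      rw [Fintype.sum_prod_type, sum_mul_sum]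
      exact sum_congr rfl fun y _ => sum_congr rfl fun z _ => by ring
    rw [this]
    have h1 := H.codeg p.1 q.1
    have h2 := H'.codeg p.2 q.2
    calc e p.1 q.1 * e' p.2 q.2 * ((∑ z, e p.1 z * e q.1 z) * ∑ z, e' p.2 z * e' q.2 z)
        = (e p.1 q.1 * ∑ z, e p.1 z * e q.1 z) * (e' p.2 q.2 * ∑ z, e' p.2 z * e' q.2 z) := by
          ring
      _ = _ := by rw [h1, h2]; ring
  psd p := by
    have h1 := ((H.psd p.1).kron (H'.psd p.2)).smul (c := 5 / 6) (by norm_num)
    have h2 := ((H.psd' p.1).kron (H'.psd' p.2)).smul (c := 1 / 6) (by norm_num)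
    have h3 := h1.add h2
    convert h3 using 3 with y z
    rcases y with ⟨y, y'⟩
    rcases z with ⟨z, z'⟩
    simp only [Prod.mk.injEq]
    by_cases hy : y = z
    · by_cases hy' : y' = z'
      · simp only [hy, hy', and_self, if_true]; ring
      · simp only [hy, hy', and_false, if_true, if_false]; ring
    · by_cases hy' : y' = z'
      · simp only [hy, hy', false_and, if_true, if_false]; ring
      · simp only [hy, hy', false_and, if_false]; ring
  hcount := by
    rw [← H.hcount, ← H'.hcount]
    rw [← sum_prod_mul]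
    refine sum_congr rfl fun u _ => ?_
    rw [← sum_prod_mul]
    refine sum_congr rfl fun v _ => ?_
    rw [← sum_prod_mul]
    refine sum_congr rfl fun a _ => ?_
    rw [← sum_prod_mul]
    refine sum_congr rfl fun b _ => ?_
    rw [← sum_prod_mul]
    refine sum_congr rfl fun c _ => ?_
    ring

end Pool.Agent.L5helper33.Folk
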