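import Pool.Agent.L5helper33.FolkDet

set_option autoImplicit false

namespace Pool.Agent.L5helper33.Folk

open Finset

variable {V : Type} {m : ℕ} [Fintype V] [DecidableEq V]

omit [Fintype V] [DecidableEq V] in
lemma tau_flip {e : V → V → ℝ} (hs : ∀ x y, e x y = e y x) {ω : V × V → ZMod m} (x y z : V) :
    tau e ω y x z = tau e ω x y z := by
  rw [← tau_swap hs y x z, tau_rot hs x y z]

omit [DecidableEq V] in
open Classical in
lemma KK_le {e : V → V → ℝ} (hs : ∀ x y, e x y = e y x) (h0 : ∀ x y, 0 ≤ e x y)
    (ω : V × V → ZMod m) :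
    KK e ω ≤ 6 * ∑ u, ∑ v, ∑ a, ∑ b, ∑ c, ∑ w,
      (if HH e ω u v a b c then (1 : ℝ) else 0) * tau e ω u c w := by
  have s1 : KK e ω ≤ 3 * ∑ x, ∑ y, ∑ z, tau e ω x y z * (if XX e ω x y then 1 else 0) := by
    have r1 : ∑ x, ∑ y, ∑ z, tau e ω x y z * (if XX e ω y z then 1 else 0) =
        ∑ x, ∑ y, ∑ z, tau e ω x y z * (if XX e ω x y then (1 : ℝ) else 0) := by
      rw [← rot_sum (fun x y z => tau e ω x y z * (if XX e ω x y then (1 : ℝ) else 0))]
      refine sum_congr rfl fun x _ => sum_congr rfl fun y _ => sum_congr rfl fun z _ => ?_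
      rw [tau_rot hs x y z]
    have r2 : ∑ x, ∑ y, ∑ z, tau e ω x y z * (if XX e ω x z then 1 else 0) =
        ∑ x, ∑ y, ∑ z, tau e ω x y z * (if XX e ω x y then (1 : ℝ) else 0) := by
      refine sum_congr rfl fun x _ => ?_
      rw [sum_comm]
      refine sum_congr rfl fun y _ => sum_congr rfl fun z _ => ?_
      rw [tau_swap hs x y z]
    have r3 : KK e ω ≤ ∑ x, ∑ y, ∑ z, (tau e ω x y z * (if XX e ω x y then 1 else 0) +
        tau e ω x y z * (if XX e ω y z then 1 else 0) +
        tau e ω x y z * (if XX e ω x z then 1 else 0)) := by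
      unfold KK
      refine sum_le_sum fun x _ => sum_le_sum fun y _ => sum_le_sum fun z _ => ?_
      rw [← mul_add, ← mul_add]
      refine mul_le_mul_of_nonneg_left ?_ (tau_nonneg h0 ω x y z)
      by_cases h1 : XX e ω x y <;> by_cases h2 : XX e ω y z <;> by_cases h3 : XX e ω x z <;>
        simp [h1, h2, h3]
    refine r3.trans (le_of_eq ?_)
    simp only [sum_add_distrib]
    rw [r1, r2]
    ring
  have s2 : ∀ x y, (if XX e ω x y then (1 : ℝ) else 0) ≤ ∑ u, ∑ v, ∑ a, ∑ b, ∑ c,
      (if HH e ω u v a b c then (1 : ℝ) else 0) *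
        ((if x = u then (if y = c then 1 else 0) else 0) +
          (if y = u then (if x = c then 1 else 0) else 0)) := by
    intro x y
    have nn : ∀ u v a b c, (0 : ℝ) ≤ (if HH e ω u v a b c then (1 : ℝ) else 0) *
        ((if x = u then (if y = c then 1 else 0) else 0) +
          (if y = u then (if x = c then 1 else 0) else 0)) := by
      intro u v a b c
      split_ifs <;> norm_num
    by_cases hX : XX e ω x y
    · rw [if_pos hX]
      obtain ⟨u, v, a, b, c, h1, h2⟩ := hX
      have big : (1 : ℝ) ≤ (if HH e ω u v a b c then (1 : ℝ) else 0) *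
        ((if x = u then (if y = c then 1 else 0) else 0) +
          (if y = u then (if x = c then 1 else 0) else 0)) := by
        rw [if_pos h1]
        rcases h2 with ⟨h3, h4⟩ | ⟨h3, h4⟩
        · rw [if_pos h3, if_pos h4]
          split_ifs <;> norm_num
        · rw [if_pos h3, if_pos h4]
          split_ifs <;> norm_num
      refine big.trans ?_
      refine (single_le_sum (f := fun c => (if HH e ω u v a b c then (1 : ℝ) else 0) *
        ((if x = u then (if y = c then 1 else 0) else 0) +
          (if y = u then (if x = c then 1 else 0) else 0))) (fun c _ => nn u v a b c)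
          (mem_univ c)).trans ?_
      refine (single_le_sum (f := fun b => ∑ c, (if HH e ω u v a b c then (1 : ℝ) else 0) *
        ((if x = u then (if y = c then 1 else 0) else 0) +
          (if y = u then (if x = c then 1 else 0) else 0)))
          (fun b _ => sum_nonneg fun c _ => nn u v a b c)
          (mem_univ b)).trans ?_
      refine (single_le_sum (f := fun a => ∑ b, ∑ c, (if HH e ω u v a b c then (1 : ℝ) else 0) *
        ((if x = u then (if y = c then 1 else 0) else 0) +
          (if y = u then (if x = c then 1 else 0) else 0)))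
          (fun a _ => sum_nonneg fun b _ => sum_nonneg fun c _ => nn u v a b c)
          (mem_univ a)).trans ?_
      refine (single_le_sum (f := fun v => ∑ a, ∑ b, ∑ c,
          (if HH e ω u v a b c then (1 : ℝ) else 0) *
        ((if x = u then (if y = c then 1 else 0) else 0) +
          (if y = u then (if x = c then 1 else 0) else 0)))
          (fun v _ => sum_nonneg fun a _ => sum_nonneg fun b _ => sum_nonneg fun c _ =>
            nn u v a b c) (mem_univ v)).trans ?_
      exact (single_le_sum (f := fun u => ∑ v, ∑ a, ∑ b, ∑ c,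
          (if HH e ω u v a b c then (1 : ℝ) else 0) *
        ((if x = u then (if y = c then 1 else 0) else 0) +
          (if y = u then (if x = c then 1 else 0) else 0)))
          (fun u _ => sum_nonneg fun v _ => sum_nonneg fun a _ => sum_nonneg fun b _ =>
            sum_nonneg fun c _ => nn u v a b c) (mem_univ u))
    · rw [if_neg hX]
      exact sum_nonneg fun u _ => sum_nonneg fun v _ => sum_nonneg fun a _ =>
        sum_nonneg fun b _ => sum_nonneg fun c _ => nn u v a b c
  have s3 : ∑ x, ∑ y, ∑ z, tau e ω x y z * (if XX e ω x y then 1 else 0) ≤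
      ∑ x, ∑ y, ∑ z, tau e ω x y z * ∑ u, ∑ v, ∑ a, ∑ b, ∑ c,
      (if HH e ω u v a b c then (1 : ℝ) else 0) *
        ((if x = u then (if y = c then 1 else 0) else 0) +
          (if y = u then (if x = c then 1 else 0) else 0)) :=
    sum_le_sum fun x _ => sum_le_sum fun y _ => sum_le_sum fun z _ =>
      mul_le_mul_of_nonneg_left (s2 x y) (tau_nonneg h0 ω x y z)
  have s4 : ∑ x, ∑ y, ∑ z, tau e ω x y z * ∑ u, ∑ v, ∑ a, ∑ b, ∑ c,
      (if HH e ω u v a b c then (1 : ℝ) else 0) *
        ((if x = u then (if y = c then 1 else 0) else 0) +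
          (if y = u then (if x = c then 1 else 0) else 0)) =
      2 * ∑ u, ∑ v, ∑ a, ∑ b, ∑ c, ∑ w,
      (if HH e ω u v a b c then (1 : ℝ) else 0) * tau e ω u c w := by
    have t1 : ∀ u v a b c, ∑ x, ∑ y, ∑ z, tau e ω x y z *
        ((if HH e ω u v a b c then (1 : ℝ) else 0) *
        ((if x = u then (if y = c then 1 else 0) else 0) +
          (if y = u then (if x = c then 1 else 0) else 0))) =
        2 * ∑ w, (if HH e ω u v a b c then (1 : ℝ) else 0) * tau e ω u c w := by
      intro u v a b c
      have t2 : ∀ x y, ∑ z, tau e ω x y z *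
        ((if HH e ω u v a b c then (1 : ℝ) else 0) *
        ((if x = u then (if y = c then 1 else 0) else 0) +
          (if y = u then (if x = c then 1 else 0) else 0))) =
          (if x = u then (if y = c then
            (∑ w, (if HH e ω u v a b c then (1 : ℝ) else 0) * tau e ω u c w) else 0) else 0) +
          (if y = u then (if x = c then
            (∑ w, (if HH e ω u v a b c then (1 : ℝ) else 0) * tau e ω u c w) else 0) else 0) := by
        intro x y
        have p1 : ∑ z, tau e ω x y z *
            ((if HH e ω u v a b c then (1 : ℝ) else 0) *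
            ((if x = u then (if y = c then 1 else 0) else 0) +
              (if y = u then (if x = c then 1 else 0) else 0))) =
            (∑ z, tau e ω x y z *
            ((if HH e ω u v a b c then (1 : ℝ) else 0) *
            (if x = u then (if y = c then 1 else 0) else 0))) +
            ∑ z, tau e ω x y z *
            ((if HH e ω u v a b c then (1 : ℝ) else 0) *
            (if y = u then (if x = c then 1 else 0) else 0)) := by
          rw [← sum_add_distrib]
          exact sum_congr rfl fun z _ => by ring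
        rw [p1]
        congr 1
        · by_cases h1 : x = u
          · by_cases h2 : y = c
            · rw [if_pos h1, if_pos h2, if_pos h1, if_pos h2, h1, h2]
              exact sum_congr rfl fun z _ => by ring
            · rw [if_pos h1, if_neg h2, if_pos h1, if_neg h2]; simp
          · rw [if_neg h1, if_neg h1]; simp
        · by_cases h1 : y = u
          · by_cases h2 : x = c
            · rw [if_pos h1, if_pos h2, if_pos h1, if_pos h2, h1, h2]
              exact sum_congr rfl fun z _ => by rw [tau_flip hs u c z]; ring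
            · rw [if_pos h1, if_neg h2, if_pos h1, if_neg h2]; simp
          · rw [if_neg h1, if_neg h1]; simp
      simp only [t2, sum_add_distrib]
      simp only [sum_ite_eq', mem_univ, if_true, ← mul_sum]
      have q1 : ∀ K : ℝ, ∑ x : V, ∑ y : V, (if x = u then (if y = c then K else 0) else 0) = K := by
        intro K
        rw [sum_eq_single u]
        · simp
        · intro x _ hx
          simp [hx]
        · intro hu; exact absurd (mem_univ _) hu
      rw [q1]
      ring
    -- move the sums
    have t3 : ∀ x y z, tau e ω x y z * ∑ u, ∑ v, ∑ a, ∑ b, ∑ c,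
      (if HH e ω u v a b c then (1 : ℝ) else 0) *
        ((if x = u then (if y = c then 1 else 0) else 0) +
          (if y = u then (if x = c then 1 else 0) else 0)) =
        ∑ q : V × V × V × V × V, tau e ω x y z *
        ((if HH e ω q.1 q.2.1 q.2.2.1 q.2.2.2.1 q.2.2.2.2 then (1 : ℝ) else 0) *
        ((if x = q.1 then (if y = q.2.2.2.2 then 1 else 0) else 0) +
          (if y = q.1 then (if x = q.2.2.2.2 then 1 else 0) else 0))) := by
      intro x y z
      simp only [Fintype.sum_prod_type, mul_sum]
    simp only [t3]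
    have t4 : ∑ x, ∑ y, ∑ z, ∑ q : V × V × V × V × V, tau e ω x y z *
        ((if HH e ω q.1 q.2.1 q.2.2.1 q.2.2.2.1 q.2.2.2.2 then (1 : ℝ) else 0) *
        ((if x = q.1 then (if y = q.2.2.2.2 then 1 else 0) else 0) +
          (if y = q.1 then (if x = q.2.2.2.2 then 1 else 0) else 0))) =
        ∑ q : V × V × V × V × V, ∑ x, ∑ y, ∑ z, tau e ω x y z *
        ((if HH e ω q.1 q.2.1 q.2.2.1 q.2.2.2.1 q.2.2.2.2 then (1 : ℝ) else 0) *
        ((if x = q.1 then (if y = q.2.2.2.2 then 1 else 0) else 0) +
          (if y = q.1 then (if x = q.2.2.2.2 then 1 else 0) else 0))) := by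
      rw [sum_comm (s := (univ : Finset (V × V × V × V × V)))]
      refine sum_congr rfl fun x _ => ?_
      rw [sum_comm (s := (univ : Finset (V × V × V × V × V)))]
      refine sum_congr rfl fun y _ => ?_
      rw [sum_comm]
    rw [t4]
    simp only [t1, Fintype.sum_prod_type, mul_sum]
  linarith

variable [NeZero m]

open Classical in
lemma KK_sum {e : V → V → ℝ} {n D t h : ℝ} (H : Host V e n D t h) :
    (m : ℝ) ^ 4 * ∑ ω : V × V → ZMod m, KK e ω ≤
      6 * h * t * (Fintype.card (V × V → ZMod m) : ℝ) := by
  set N : ℝ := (Fintype.card (V × V → ZMod m) : ℝ) with hN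
  have hm4 : (0 : ℝ) ≤ (m : ℝ) ^ 4 := by positivity
  have hNn : 0 ≤ N := Nat.cast_nonneg _
  have ne1 : ∀ {x y : V}, e x y = 1 → x ≠ y := by
    intro x y h1 h2
    rw [h2, H.irr] at h1
    norm_num at h1
  have zo1 : ∀ {a b}, e a b ≠ 1 → e a b = 0 := fun {a b} hab => (H.zo a b).resolve_right hab
  let E : V → V → V → V → V → ℝ := fun u v a b c =>
    e u a * e u b * e u c * e v a * e v b * e v c * e a b
  have En : ∀ u v a b c, 0 ≤ E u v a b c := by
    intro u v a b c
    have := H.nonneg
    simp only [E]
    have h1 := H.nonneg u a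
    have h2 := H.nonneg u b
    have h3 := H.nonneg u c
    have h4 := H.nonneg v a
    have h5 := H.nonneg v b
    have h6 := H.nonneg v c
    have h7 := H.nonneg a b
    positivity
  have t1 : ∀ u v a b c w, (m : ℝ) ^ 4 * ∑ ω : V × V → ZMod m,
      (if HH e ω u v a b c then (1 : ℝ) else 0) * tau e ω u c w ≤
      E u v a b c * (e u c * e u w * e c w) * N := by
    intro u v a b c w
    have rhs : 0 ≤ E u v a b c * (e u c * e u w * e c w) * N := by
      have h1 := En u v a b c
      have h2 := H.nonneg u c
      have h3 := H.nonneg u w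
      have h4 := H.nonneg c w
      positivity
    by_cases g1 : (u ≠ v ∧ c ≠ a ∧ c ≠ b) ∧ (e u a = 1 ∧ e u b = 1 ∧ e u c = 1 ∧ e v a = 1 ∧
      e v b = 1 ∧ e v c = 1 ∧ e a b = 1)
    · by_cases g2 : e u w = 1 ∧ e c w = 1
      · obtain ⟨⟨k1, k2, k3⟩, l1, l2, l3, l4, l5, l6, l7⟩ := g1
        obtain ⟨o1, o2⟩ := g2
        have key := four_eq (m := m) k1 (ne1 l7) (ne1 l1) (ne1 l2) (ne1 l3) (ne1 l4) (ne1 l5)
          (ne1 l6) k2 k3 (ne1 o1).symm (ne1 o2).symm
        have e1 : ∑ ω : V × V → ZMod m,
          (if HH e ω u v a b c then (1 : ℝ) else 0) * tau e ω u c w =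
          ∑ ω : V × V → ZMod m,
          ((if BH ω u v a b c then (1 : ℝ) else 0) * (if bal ω u c w then 1 else 0)) := by
          refine sum_congr rfl fun ω _ => ?_
          have e2 : HH e ω u v a b c ↔ BH ω u v a b c := by
            unfold HH
            constructor
            · intro h; exact h.2.2
            · intro h; exact ⟨⟨k1, k2, k3⟩, ⟨l1, l2, l3, l4, l5, l6, l7⟩, h⟩
          unfold tau
          rw [l3, o1, o2]
          by_cases hb : BH ω u v a b c
          · rw [if_pos hb, if_pos (e2.mpr hb)]; ring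
          · rw [if_neg hb, if_neg (fun h => hb (e2.mp h))]; ring
        rw [e1, key]
        simp only [E]
        rw [l1, l2, l3, l4, l5, l6, l7, o1, o2]
        simp [hN]
      · have e1 : ∑ ω : V × V → ZMod m,
          (if HH e ω u v a b c then (1 : ℝ) else 0) * tau e ω u c w = 0 := by
          refine sum_eq_zero fun ω _ => ?_
          unfold tau
          rw [not_and_or] at g2
          rcases g2 with h | h
          · rw [zo1 h]; ring
          · rw [zo1 h]; ring
        rw [e1, mul_zero]
        exact rhs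
    · have e1 : ∑ ω : V × V → ZMod m,
          (if HH e ω u v a b c then (1 : ℝ) else 0) * tau e ω u c w = 0 := by
        refine sum_eq_zero fun ω _ => ?_
        rw [if_neg, zero_mul]
        rintro ⟨q1, q2, _⟩
        exact g1 ⟨q1, q2⟩
      rw [e1, mul_zero]
      exact rhs
  have t2 : ∀ u v a b c, ∑ w, E u v a b c * (e u c * e u w * e c w) * N =
      E u v a b c * t * N := by
    intro u v a b c
    rw [← sum_mul, ← mul_sum]
    have h1 : ∑ w, e u c * e u w * e c w = t * e u c := by
      rw [← H.codeg u c, mul_sum]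
      exact sum_congr rfl fun z _ => by ring
    rw [h1]
    have h2 : E u v a b c * e u c = E u v a b c := by
      simp only [E]
      calc e u a * e u b * e u c * e v a * e v b * e v c * e a b * e u c =
          e u a * e u b * (e u c * e u c) * e v a * e v b * e v c * e a b := by ring
        _ = _ := by rw [H.sq]
    calc E u v a b c * (t * e u c) * N = (E u v a b c * e u c) * t * N := by ring
      _ = _ := by rw [h2]
  have t3 : ∑ ω : V × V → ZMod m, KK e ω ≤ ∑ ω : V × V → ZMod m,
      6 * ∑ u, ∑ v, ∑ a, ∑ b, ∑ c, ∑ w,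
      (if HH e ω u v a b c then (1 : ℝ) else 0) * tau e ω u c w :=
    sum_le_sum fun ω _ => KK_le H.symm H.nonneg ω
  have t4 : ∑ ω : V × V → ZMod m,
      6 * ∑ u, ∑ v, ∑ a, ∑ b, ∑ c, ∑ w,
      (if HH e ω u v a b c then (1 : ℝ) else 0) * tau e ω u c w =
      6 * ∑ u, ∑ v, ∑ a, ∑ b, ∑ c, ∑ w, ∑ ω : V × V → ZMod m,
      (if HH e ω u v a b c then (1 : ℝ) else 0) * tau e ω u c w := by
    rw [← mul_sum]
    congr 1
    rw [sum_comm]
    refine sum_congr rfl fun u _ => ?_
    rw [sum_comm]
    refine sum_congr rfl fun v _ => ?_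
    rw [sum_comm]
    refine sum_congr rfl fun a _ => ?_
    rw [sum_comm]
    refine sum_congr rfl fun b _ => ?_
    rw [sum_comm]
    refine sum_congr rfl fun c _ => ?_
    rw [sum_comm]
  rw [t4] at t3
  have t5 := mul_le_mul_of_nonneg_left t3 hm4
  refine t5.trans ?_
  have t6 : (m : ℝ) ^ 4 * (6 * ∑ u, ∑ v, ∑ a, ∑ b, ∑ c, ∑ w, ∑ ω : V × V → ZMod m,
      (if HH e ω u v a b c then (1 : ℝ) else 0) * tau e ω u c w) =
      6 * ∑ u, ∑ v, ∑ a, ∑ b, ∑ c, ∑ w, ((m : ℝ) ^ 4 * ∑ ω : V × V → ZMod m,
      (if HH e ω u v a b c then (1 : ℝ) else 0) * tau e ω u c w) := by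
    simp only [← mul_sum]
    ring
  rw [t6]
  have t7 : ∑ u, ∑ v, ∑ a, ∑ b, ∑ c, ∑ w, ((m : ℝ) ^ 4 * ∑ ω : V × V → ZMod m,
      (if HH e ω u v a b c then (1 : ℝ) else 0) * tau e ω u c w) ≤
      ∑ u, ∑ v, ∑ a, ∑ b, ∑ c, ∑ w, E u v a b c * (e u c * e u w * e c w) * N :=
    sum_le_sum fun u _ => sum_le_sum fun v _ => sum_le_sum fun a _ => sum_le_sum fun b _ =>
      sum_le_sum fun c _ => sum_le_sum fun w _ => t1 u v a b c w
  have t8 : ∑ u, ∑ v, ∑ a, ∑ b, ∑ c, ∑ w, E u v a b c * (e u c * e u w * e c w) * N =
      h * t * N := by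
    simp only [t2, ← sum_mul]
    rw [← H.hcount]
  rw [t8] at t7
  linarith

end Pool.Agent.L5helper33.Folk
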