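import Pool.Agent.L5helper33.FolkBase
import Pool.Agent.L5helper33.FolkKill
import Pool.Agent.L5helper33.FolkExp

set_option autoImplicit false

namespace Pool.Agent.L5helper33.Folk

open Finset

variable {V : Type} {m : ℕ} [Fintype V] [DecidableEq V] [NeZero m]

lemma pm_mul' {a b : ℝ} (ha : a = 1 ∨ a = -1) (hb : b = 1 ∨ b = -1) : a * b ≤ 1 := by
  rcases ha with rfl | rfl <;> rcases hb with rfl | rfl <;> norm_num

/-- A monochromatic triangle, as an ordered triple. -/
def MT {W : Type} (G : SimpleGraph W) (c : Sym2 W → Bool) (p q r : W) : Prop :=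
  G.Adj p q ∧ G.Adj q r ∧ G.Adj p r ∧ c s(p, q) = c s(q, r) ∧ c s(q, r) = c s(p, r)

/-- A triangle, as an ordered triple. -/
def TT {W : Type} (G : SimpleGraph W) (p q r : W) : Prop :=
  G.Adj p q ∧ G.Adj q r ∧ G.Adj p r

open Classical in
lemma mono_count {e : V → V → ℝ} {n D t h : ℝ} (H : Host V e n D t h) (ω : V × V → ZMod m)
    (hA : ∀ (x : V) (f : V → ℝ), (∀ y, f y = 1 ∨ f y = -1) →
      1 / 30 * (D * t / m) ≤ ∑ y, ∑ z, tau e ω x y z * (f y * f z + 1 / 3))
    (c : Sym2 (V × ZMod m) → Bool) :
    n * D * t / 10 ≤ 4 * m * KK e ω + 4 * ∑ p : V × ZMod m, ∑ q : V × ZMod m, ∑ r : V × ZMod m,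
      (if MT (cover e H.symm H.irr ω) c p q r then (1 : ℝ) else 0) := by
  have hm : (m : ℝ) ≠ 0 := Nat.cast_ne_zero.mpr (NeZero.ne m)
  set G := cover e H.symm H.irr ω with hG
  let s : V → ZMod m → V → ℝ := fun x g y =>
    if G.Adj (x, g) (y, g + al ω x y) then
      (if c s((x, g), (y, g + al ω x y)) = true then 1 else -1) else 1
  have hs : ∀ x g y, s x g y = 1 ∨ s x g y = -1 := by
    intro x g y
    simp only [s]
    split_ifs <;> simp
  let kl : V → V → V → ℝ := fun x y z =>
    (if XX e ω x y ∨ XX e ω y z ∨ XX e ω x z then 1 else 0)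
  let mo : V → V → V → ZMod m → ℝ := fun x y z g =>
    (if MT G c (x, g) (y, g + al ω x y) (z, g + al ω x z) then 1 else 0)
  have mo0 : ∀ x y z g, 0 ≤ mo x y z g := by
    intro x y z g
    simp only [mo]
    split_ifs <;> norm_num
  set T : ℝ := ∑ x, ∑ y, ∑ z, tau e ω x y z with hT
  set S : ℝ := ∑ x, ∑ y, ∑ z, ∑ g : ZMod m, tau e ω x y z * (s x g y * s x g z) with hS
  -- pointwise
  have pt : ∀ x y z, ∀ g : ZMod m, tau e ω x y z * (s x g y * s x g z) +
      tau e ω x y z * (s y (g + al ω x y) z * s y (g + al ω x y) x) +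
      tau e ω x y z * (s z (g + al ω x z) x * s z (g + al ω x z) y) ≤
      tau e ω x y z * (-1 + 4 * kl x y z) + 4 * (tau e ω x y z * mo x y z g) := by
    intro x y z g
    by_cases ht : tau e ω x y z = 0
    · rw [ht]; simp
    have hb : bal ω x y z := by
      by_contra hb
      apply ht
      unfold tau
      rw [if_neg hb, mul_zero]
    have hxy : e x y = 1 := by
      rcases H.zo x y with h | h
      · exfalso; apply ht; unfold tau; rw [h]; ring
      · exact h
    have hxz : e x z = 1 := by
      rcases H.zo x z with h | h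
      · exfalso; apply ht; unfold tau; rw [h]; ring
      · exact h
    have hyz : e y z = 1 := by
      rcases H.zo y z with h | h
      · exfalso; apply ht; unfold tau; rw [h]; ring
      · exact h
    have e7 : tau e ω x y z * (-1 + 4 * kl x y z) + 4 * (tau e ω x y z * mo x y z g) =
        tau e ω x y z * (-1 + 4 * kl x y z + 4 * mo x y z g) := by ring
    rw [← mul_add, ← mul_add, e7]
    refine mul_le_mul_of_nonneg_left ?_ (tau_nonneg H.nonneg ω x y z)
    by_cases hk : XX e ω x y ∨ XX e ω y z ∨ XX e ω x z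
    · have hk' : kl x y z = 1 := by simp only [kl]; rw [if_pos hk]
      rw [hk']
      have h1 := pm_mul' (hs x g y) (hs x g z)
      have h2 := pm_mul' (hs y (g + al ω x y) z) (hs y (g + al ω x y) x)
      have h3 := pm_mul' (hs z (g + al ω x z) x) (hs z (g + al ω x z) y)
      have h4 := mo0 x y z g
      linarith
    · have hk' : kl x y z = 0 := by simp only [kl]; rw [if_neg hk]
      rw [hk']
      push Not at hk
      obtain ⟨k1, k2, k3⟩ := hk
      have a1 : G.Adj (x, g) (y, g + al ω x y) := ⟨hxy, rfl, k1⟩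
      have a2 : G.Adj (x, g) (z, g + al ω x z) := ⟨hxz, rfl, k3⟩
      have e3 : g + al ω x y + al ω y z = g + al ω x z := by
        unfold bal at hb
        rw [← hb]; ring
      have a3 : G.Adj (y, g + al ω x y) (z, g + al ω x z) := ⟨hyz, e3.symm, k2⟩
      have e4 : g + al ω x y + al ω y x = g := by rw [al_anti ω x y]; ring
      have e5 : g + al ω x z + al ω z x = g := by rw [al_anti ω x z]; ring
      have e6 : g + al ω x z + al ω z y = g + al ω x y := by rw [al_anti ω y z, ← e3]; ring
      have c1 : s((y, g + al ω x y), (x, g)) = s((x, g), (y, g + al ω x y)) := Sym2.eq_swap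
      have c2 : s((z, g + al ω x z), (x, g)) = s((x, g), (z, g + al ω x z)) := Sym2.eq_swap
      have c3 : s((z, g + al ω x z), (y, g + al ω x y)) =
        s((y, g + al ω x y), (z, g + al ω x z)) := Sym2.eq_swap
      have s1 : s x g y = if c s((x, g), (y, g + al ω x y)) = true then 1 else -1 := by
        simp only [s]; rw [if_pos a1]
      have s2 : s x g z = if c s((x, g), (z, g + al ω x z)) = true then 1 else -1 := by
        simp only [s]; rw [if_pos a2]
      have s3 : s y (g + al ω x y) z =
          if c s((y, g + al ω x y), (z, g + al ω x z)) = true then 1 else -1 := by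
        simp only [s, e3]; rw [if_pos a3]
      have s4 : s y (g + al ω x y) x =
          if c s((x, g), (y, g + al ω x y)) = true then 1 else -1 := by
        simp only [s, e4]; rw [if_pos a1.symm, c1]
      have s5 : s z (g + al ω x z) x =
          if c s((x, g), (z, g + al ω x z)) = true then 1 else -1 := by
        simp only [s, e5]; rw [if_pos a2.symm, c2]
      have s6 : s z (g + al ω x z) y =
          if c s((y, g + al ω x y), (z, g + al ω x z)) = true then 1 else -1 := by
        simp only [s, e6]; rw [if_pos a3.symm, c3]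
      rw [s1, s2, s3, s4, s5, s6]
      by_cases hmt : MT G c (x, g) (y, g + al ω x y) (z, g + al ω x z)
      · have : mo x y z g = 1 := by simp only [mo]; rw [if_pos hmt]
        rw [this]
        split_ifs <;> norm_num
      · have : mo x y z g = 0 := by simp only [mo]; rw [if_neg hmt]
        rw [this]
        have hn : ¬ (c s((x, g), (y, g + al ω x y)) =
          c s((y, g + al ω x y), (z, g + al ω x z)) ∧
          c s((y, g + al ω x y), (z, g + al ω x z)) = c s((x, g), (z, g + al ω x z))) :=
          fun hh => hmt ⟨a1, a3, a2, hh.1, hh.2⟩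
        revert hn
        cases c s((x, g), (y, g + al ω x y)) <;>
          cases c s((y, g + al ω x y), (z, g + al ω x z)) <;>
          cases c s((x, g), (z, g + al ω x z)) <;> simp
  have e1 := cover_sum H.symm ω s
  have e2 := cover_sum' H.symm ω s
  have hsum : ∑ x, ∑ y, ∑ z, ∑ g : ZMod m, (tau e ω x y z * (s x g y * s x g z) +
      tau e ω x y z * (s y (g + al ω x y) z * s y (g + al ω x y) x) +
      tau e ω x y z * (s z (g + al ω x z) x * s z (g + al ω x z) y)) ≤
      ∑ x, ∑ y, ∑ z, ∑ g : ZMod m, (tau e ω x y z * (-1 + 4 * kl x y z) +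
        4 * (tau e ω x y z * mo x y z g)) :=
    sum_le_sum fun x _ => sum_le_sum fun y _ => sum_le_sum fun z _ => sum_le_sum fun g _ =>
      pt x y z g
  have hL : ∑ x, ∑ y, ∑ z, ∑ g : ZMod m, (tau e ω x y z * (s x g y * s x g z) +
      tau e ω x y z * (s y (g + al ω x y) z * s y (g + al ω x y) x) +
      tau e ω x y z * (s z (g + al ω x z) x * s z (g + al ω x z) y)) = 3 * S := by
    simp only [sum_add_distrib]
    rw [e1, e2]
    ring
  have hR : ∑ x, ∑ y, ∑ z, ∑ g : ZMod m, (tau e ω x y z * (-1 + 4 * kl x y z) +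
        4 * (tau e ω x y z * mo x y z g)) =
      - (m * T) + 4 * m * KK e ω +
      4 * ∑ x, ∑ y, ∑ z, ∑ g : ZMod m, tau e ω x y z * mo x y z g := by
    have : ∀ x y z, ∑ g : ZMod m, tau e ω x y z * (-1 + 4 * kl x y z) =
        - m * tau e ω x y z + 4 * m * (tau e ω x y z * kl x y z) := by
      intro x y z
      rw [sum_const, card_univ, ZMod.card, nsmul_eq_mul]
      ring
    simp only [this, sum_add_distrib, ← mul_sum]
    rw [← hT]
    have : KK e ω = ∑ x, ∑ y, ∑ z, tau e ω x y z * kl x y z := rfl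
    rw [this]
    ring
  have hM : ∑ x, ∑ y, ∑ z, ∑ g : ZMod m, tau e ω x y z * mo x y z g ≤
      ∑ p : V × ZMod m, ∑ q : V × ZMod m, ∑ r : V × ZMod m,
      (if MT G c p q r then (1 : ℝ) else 0) := by
    have t1 : ∀ x y z, tau e ω x y z ≤ 1 := by
      intro x y z
      unfold tau
      rcases H.zo x y with h | h <;> rcases H.zo x z with h' | h' <;>
        rcases H.zo y z with h'' | h'' <;> rw [h, h', h''] <;> split_ifs <;> norm_num
    have ind0 : ∀ p q r, (0 : ℝ) ≤ (if MT G c p q r then (1 : ℝ) else 0) := by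
      intro p q r
      split_ifs <;> norm_num
    calc ∑ x, ∑ y, ∑ z, ∑ g : ZMod m, tau e ω x y z * mo x y z g
        ≤ ∑ x, ∑ y, ∑ z, ∑ g : ZMod m, mo x y z g := by
          refine sum_le_sum fun x _ => sum_le_sum fun y _ => sum_le_sum fun z _ =>
            sum_le_sum fun g _ => ?_
          calc tau e ω x y z * mo x y z g ≤ 1 * mo x y z g :=
                mul_le_mul_of_nonneg_right (t1 x y z) (mo0 x y z g)
            _ = _ := one_mul _
      _ ≤ ∑ x, ∑ y, ∑ z, ∑ g : ZMod m, ∑ g' : ZMod m, ∑ g'' : ZMod m,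
          (if MT G c (x, g) (y, g') (z, g'') then (1 : ℝ) else 0) := by
          refine sum_le_sum fun x _ => sum_le_sum fun y _ => sum_le_sum fun z _ =>
            sum_le_sum fun g _ => ?_
          refine (single_le_sum (f := fun g'' =>
            (if MT G c (x, g) (y, g + al ω x y) (z, g'') then (1 : ℝ) else 0))
            (fun g'' _ => ind0 _ _ _) (mem_univ (g + al ω x z))).trans ?_
          exact single_le_sum (f := fun g' => ∑ g'' : ZMod m,
            (if MT G c (x, g) (y, g') (z, g'') then (1 : ℝ) else 0))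
            (fun g' _ => sum_nonneg fun g'' _ => ind0 _ _ _) (mem_univ (g + al ω x y))
      _ = _ := by
          simp only [Fintype.sum_prod_type]
          refine sum_congr rfl fun x _ => ?_
          -- ∑ y ∑ z ∑ g ∑ g' ∑ g'' = ∑ g ∑ y ∑ g' ∑ z ∑ g''
          have s1 : ∀ y, ∑ z, ∑ g : ZMod m, ∑ g' : ZMod m, ∑ g'' : ZMod m,
              (if MT G c (x, g) (y, g') (z, g'') then (1 : ℝ) else 0) =
              ∑ g : ZMod m, ∑ g' : ZMod m, ∑ z, ∑ g'' : ZMod m,
              (if MT G c (x, g) (y, g') (z, g'') then (1 : ℝ) else 0) := by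
            intro y
            rw [sum_comm]
            refine sum_congr rfl fun g _ => ?_
            rw [sum_comm]
          rw [sum_congr rfl fun y _ => s1 y, sum_comm]
  have hA' : n * D * t / 30 ≤ S + 1 / 3 * (m * T) := by
    have h1 : ∀ x, ∀ g : ZMod m, 1 / 30 * (D * t / m) ≤
        ∑ y, ∑ z, tau e ω x y z * (s x g y * s x g z + 1 / 3) := fun x g => hA x (s x g) (hs x g)
    have h2 : ∑ x : V, ∑ g : ZMod m, 1 / 30 * (D * t / m) ≤
        ∑ x, ∑ g : ZMod m, ∑ y, ∑ z, tau e ω x y z * (s x g y * s x g z + 1 / 3) :=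
      sum_le_sum fun x _ => sum_le_sum fun g _ => h1 x g
    have h3 : ∑ x : V, ∑ g : ZMod m, 1 / 30 * (D * t / m) = n * D * t / 30 := by
      rw [sum_const, sum_const, card_univ, card_univ, ZMod.card, nsmul_eq_mul, nsmul_eq_mul,
        H.card]
      field_simp
    have h4 : ∑ x, ∑ g : ZMod m, ∑ y, ∑ z, tau e ω x y z * (s x g y * s x g z + 1 / 3) =
        S + 1 / 3 * (m * T) := by
      have h5 : ∀ x, ∑ g : ZMod m, ∑ y, ∑ z, tau e ω x y z * (s x g y * s x g z + 1 / 3) =
          (∑ y, ∑ z, ∑ g : ZMod m, tau e ω x y z * (s x g y * s x g z)) +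
            1 / 3 * (m * ∑ y, ∑ z, tau e ω x y z) := by
        intro x
        rw [sum_comm, mul_sum, mul_sum, ← sum_add_distrib]
        refine sum_congr rfl fun y _ => ?_
        rw [sum_comm, mul_sum, mul_sum, ← sum_add_distrib]
        refine sum_congr rfl fun z _ => ?_
        simp only [mul_add, sum_add_distrib]
        rw [sum_const, card_univ, ZMod.card, nsmul_eq_mul]
        ring
      rw [sum_congr rfl fun x _ => h5 x, sum_add_distrib, ← hS, ← mul_sum, ← mul_sum]
    rw [h3, h4] at h2
    exact h2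
  rw [hL, hR] at hsum
  linarith

open Classical in
lemma total_count {e : V → V → ℝ} {n D t h : ℝ} (H : Host V e n D t h) (ω : V × V → ZMod m) :
    ∑ p : V × ZMod m, ∑ q : V × ZMod m, ∑ r : V × ZMod m,
      (if TT (cover e H.symm H.irr ω) p q r then (1 : ℝ) else 0) ≤
      m * ∑ x, ∑ y, ∑ z, tau e ω x y z := by
  set G := cover e H.symm H.irr ω with hG
  have h1 : ∀ (x y z : V) (g g' g'' : ZMod m),
      (if TT G (x, g) (y, g') (z, g'') then (1 : ℝ) else 0) ≤
      (if g' = g + al ω x y then (if g'' = g + al ω x z then tau e ω x y z else 0) else 0) := by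
    intro x y z g g' g''
    by_cases ht : TT G (x, g) (y, g') (z, g'')
    · obtain ⟨t1, t2, t3⟩ := id ht
      rw [if_pos ht]
      have a1 : g' = g + al ω x y := t1.2.1
      have a2 : g'' = g' + al ω y z := t2.2.1
      have a3 : g'' = g + al ω x z := t3.2.1
      rw [if_pos a1, if_pos a3]
      have hb : bal ω x y z := by
        unfold bal
        rw [a3, a1] at a2
        have : g + (al ω x y + al ω y z) = g + al ω x z := by rw [a2]; ring
        exact add_left_cancel this
      unfold tau
      have b1 : e x y = 1 := t1.1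
      have b2 : e y z = 1 := t2.1
      have b3 : e x z = 1 := t3.1
      rw [b1, b2, b3, if_pos hb]
      norm_num
    · rw [if_neg ht]
      have := tau_nonneg H.nonneg ω x y z
      split_ifs
      · exact this
      · exact le_refl _
      · exact le_refl _
  have h2 : ∑ p : V × ZMod m, ∑ q : V × ZMod m, ∑ r : V × ZMod m,
      (if TT G p q r then (1 : ℝ) else 0) ≤
      ∑ x : V, ∑ g : ZMod m, ∑ y : V, ∑ g' : ZMod m, ∑ z : V, ∑ g'' : ZMod m,
      (if g' = g + al ω x y then (if g'' = g + al ω x z then tau e ω x y z else 0) else 0) := by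
    simp only [Fintype.sum_prod_type]
    exact sum_le_sum fun x _ => sum_le_sum fun g _ => sum_le_sum fun y _ => sum_le_sum fun g' _ =>
      sum_le_sum fun z _ => sum_le_sum fun g'' _ => h1 x y z g g' g''
  refine h2.trans (le_of_eq ?_)
  have h3 : ∀ (x : V) (g : ZMod m) (y : V), ∑ g' : ZMod m, ∑ z : V, ∑ g'' : ZMod m,
      (if g' = g + al ω x y then (if g'' = g + al ω x z then tau e ω x y z else 0) else 0) =
      ∑ z, tau e ω x y z := by
    intro x g y
    rw [sum_comm]
    refine sum_congr rfl fun z _ => ?_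
    rw [sum_eq_single (g + al ω x y)]
    · simp
    · intro b _ hb
      simp [hb]
    · intro hh; exact absurd (mem_univ _) hh
  simp only [h3]
  rw [mul_sum]
  refine sum_congr rfl fun x _ => ?_
  rw [sum_const, card_univ, ZMod.card, nsmul_eq_mul]

lemma one_eq {u a b : V} (hab : a ≠ b) (hua : u ≠ a) (hub : u ≠ b) :
    (m : ℝ) * ∑ ω : V × V → ZMod m, (if bal ω u a b then (1 : ℝ) else 0) =
      (Fintype.card (V × V → ZMod m) : ℝ) := by
  have s1 : (m : ℝ) * ∑ ω : V × V → ZMod m, (1 : ℝ) * (if bal ω u a b then 1 else 0) =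
      ∑ ω : V × V → ZMod m, (1 : ℝ) := by
    refine elim_sum (u, b) (fun _ => 1) (fun ω => bal ω u a b)
      (fun ω => ω (b, u) + (al ω u a + al ω a b)) ?_ (fun _ _ => rfl) ?_
    · intro ω
      unfold bal
      have : al ω u b = ω (u, b) - ω (b, u) := rfl
      rw [this]
      constructor
      · intro h; rw [h]; ring
      · intro h; rw [h]; ring
    · intro ω x
      rw [al_single, al_single, Pi.add_apply, Pi.single_eq_of_ne', add_zero]
      all_goals simp [Prod.ext_iff]; tauto
  simp only [one_mul] at s1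
  rw [s1, sum_const, card_univ, nsmul_eq_mul, mul_one]

lemma tot_sum {e : V → V → ℝ} {n D t h : ℝ} (H : Host V e n D t h) :
    (m : ℝ) * ∑ ω : V × V → ZMod m, ∑ x, ∑ y, ∑ z, tau e ω x y z =
      n * D * t * (Fintype.card (V × V → ZMod m) : ℝ) := by
  set N : ℝ := (Fintype.card (V × V → ZMod m) : ℝ) with hN
  have ne1 : ∀ {x y : V}, e x y = 1 → x ≠ y := by
    intro x y h1 h2
    rw [h2, H.irr] at h1
    norm_num at h1
  have t1 : ∀ x y z, (m : ℝ) * ∑ ω : V × V → ZMod m, tau e ω x y z =
      e x y * e x z * e y z * N := by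
    intro x y z
    have : ∑ ω : V × V → ZMod m, tau e ω x y z = (e x y * e x z * e y z) *
        ∑ ω : V × V → ZMod m, (if bal ω x y z then (1 : ℝ) else 0) := by
      rw [mul_sum]; rfl
    rw [this]
    rcases H.zo x y with h1 | h1
    · rw [h1]; ring
    rcases H.zo x z with h2 | h2
    · rw [h2]; ring
    rcases H.zo y z with h3 | h3
    · rw [h3]; ring
    have key := one_eq (m := m) (ne1 h3) (ne1 h1) (ne1 h2)
    rw [h1, h2, h3]
    simp only [one_mul]
    exact key
  have t2 : ∑ ω : V × V → ZMod m, ∑ x, ∑ y, ∑ z, tau e ω x y z =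
      ∑ x, ∑ y, ∑ z, ∑ ω : V × V → ZMod m, tau e ω x y z := by
    rw [sum_comm]
    refine sum_congr rfl fun x _ => ?_
    rw [sum_comm]
    refine sum_congr rfl fun y _ => ?_
    rw [sum_comm]
  rw [t2, mul_sum]
  have t3 : ∀ x, (m : ℝ) * ∑ y, ∑ z, ∑ ω : V × V → ZMod m, tau e ω x y z = D * t * N := by
    intro x
    rw [mul_sum]
    have : ∀ y, (m : ℝ) * ∑ z, ∑ ω : V × V → ZMod m, tau e ω x y z = t * e x y * N := by
      intro y
      rw [mul_sum, sum_congr rfl fun z _ => t1 x y z, ← sum_mul, ← H.codeg x y, mul_sum]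
      congr 1
      exact sum_congr rfl fun z _ => by ring
    rw [sum_congr rfl fun y _ => this y, ← sum_mul, ← mul_sum, H.deg]
    ring
  rw [sum_congr rfl fun x _ => t3 x, sum_const, card_univ, nsmul_eq_mul, H.card]
  ring

end Pool.Agent.L5helper33.Folk
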