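import Pool.Agent.L5helper13.TQ.Defs

set_option autoImplicit false

namespace Pool.Agent.L5helper13.TQ

open MvPolynomial

/-- TQ4 -/
theorem abstract_main (k : Type) [Field k] [CharZero k] (V : Type) [AddCommGroup V] [Module k V]
    (T : Type) [CommGroup T] (l : T → V →ₗ[k] V) (B : T → V →ₗ[k] V →ₗ[k] V)
    (hsym : ∀ t x y, B t x y = B t y x) (h1 : ∀ x, l 1 x = x)
    (hl : ∀ s t x, l (s * t) x = l s (l t x))
    (h2 : ∀ s t x, B (s * t) x x = l s (B t x x) + B s (l t x) (l t x))
    (h3 : ∀ s t x, B s (l t x) (B t x x) = 0)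
    (h4 : ∀ s t x, B s (B t x x) (B t x x) = 0)
    (E : (T → V) →ₗ[k] V) (E1 : ∀ (A : V →ₗ[k] V) (f : T → V), E (fun t => A (f t)) = A (E f))
    (E2 : ∀ v, E (fun _ => v) = v)
    (E3 : ∀ x y s, E (fun t => l (t * s)⁻¹ (B (t * s) x y)) = E (fun t => l t⁻¹ (B t x y)))
    (E4 : ∀ x y, E (fun t => l t (B t⁻¹ x y)) = E (fun t => l t⁻¹ (B t x y))) :
    ∃ M : V →ₗ[k] V →ₗ[k] V, (∀ x y, M x y = M y x) ∧ (∀ x, M x (M x x) = 0) ∧
      (∀ x, M (M x x) (M x x) = 0) ∧
      ∀ s x, (l s x + B s x x) + M (l s x + B s x x) (l s x + B s x x) = l s (x + M x x) := by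
  classical
  let M : V →ₗ[k] V →ₗ[k] V := LinearMap.mk₂ k (fun x y => E (fun t => l t⁻¹ (B t x y)))
    (by
      intro x x' y
      rw [← map_add]
      congr 1
      funext t
      simp)
    (by
      intro c x y
      rw [← map_smul]
      congr 1
      funext t
      simp)
    (by
      intro x y y'
      rw [← map_add]
      congr 1
      funext t
      simp)
    (by
      intro c x y
      rw [← map_smul]
      congr 1
      funext t
      simp)
  have hM : ∀ x y, M x y = E (fun t => l t⁻¹ (B t x y)) := fun x y => rfl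
  have hMs : ∀ x y, M x y = M y x := by
    intro x y
    rw [hM, hM]
    congr 1
    funext t
    rw [hsym]
  have two : ∀ v : V, v + v = 0 → v = 0 := by
    intro v hv
    have : (2 : k) • v = 0 := by rw [two_smul]; exact hv
    rcases smul_eq_zero.1 this with h | h
    · exact absurd h two_ne_zero
    · exact h
  have hE0 : E (fun _ => (0 : V)) = 0 := E2 0
  -- (A)
  have hA : ∀ s x, M (l s x) (l s x) = l s (M x x) - B s x x := by
    intro s x
    have e1 : ∀ t, l t⁻¹ (B t (l s x) (l s x)) = l s (l (t * s)⁻¹ (B (t * s) x x)) - B s x x := by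
      intro t
      have q := h2 t s x
      have q2 : B t (l s x) (l s x) = B (t * s) x x - l t (B s x x) := by
        rw [q]; abel
      rw [q2, map_sub, ← hl t⁻¹ t, inv_mul_cancel, h1, ← hl s]
      congr 2
      rw [mul_inv_rev, ← mul_assoc, mul_inv_cancel, one_mul]
    rw [hM]
    have e2 : (fun t => l t⁻¹ (B t (l s x) (l s x))) =
        (fun t => l s (l (t * s)⁻¹ (B (t * s) x x))) - (fun _ => B s x x) := by
      funext t
      rw [Pi.sub_apply, e1 t]
    rw [e2, map_sub, E2, E1 (l s) (fun t => l (t * s)⁻¹ (B (t * s) x x)), E3, ← hM]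
  -- (C)
  have hC : ∀ s x, M (l s x) (B s x x) = 0 := by
    intro s x
    rw [hM]
    have : (fun t => l t⁻¹ (B t (l s x) (B s x x))) = fun _ => (0 : V) := by
      funext t
      rw [h3, map_zero]
    rw [this, hE0]
  -- (D)
  have hD : ∀ s x, M (B s x x) (B s x x) = 0 := by
    intro s x
    rw [hM]
    have : (fun t => l t⁻¹ (B t (B s x x) (B s x x))) = fun _ => (0 : V) := by
      funext t
      rw [h4, map_zero]
    rw [this, hE0]
  have hB1 : ∀ x, B 1 x x = 0 := by
    intro x
    have q := h2 1 1 x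
    rw [mul_one, h1, h1] at q
    exact (left_eq_add.1 q)
  have hN : ∀ s x, M x (l s (B s⁻¹ x x)) = 0 := by
    intro s x
    have q := h2 s s⁻¹ x
    rw [mul_inv_cancel, hB1] at q
    have q2 : l s (B s⁻¹ x x) = - B s (l s⁻¹ x) (l s⁻¹ x) := eq_neg_of_add_eq_zero_left q.symm
    have q3 := hC s (l s⁻¹ x)
    rw [← hl, mul_inv_cancel, h1] at q3
    rw [q2, map_neg, q3, neg_zero]
  have hMM : ∀ x, M x (M x x) = 0 := by
    intro x
    have e : M x x = E (fun t => l t (B t⁻¹ x x)) := by rw [hM, E4]
    rw [e, ← E1 (M x) (fun t => l t (B t⁻¹ x x))]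
    have : (fun t => M x (l t (B t⁻¹ x x))) = fun _ => (0 : V) := by
      funext t
      exact hN t x
    rw [this, hE0]
  have hP : ∀ x y, M y (M x x) + (M x (M x y) + M x (M x y)) = 0 := by
    intro x y
    have a := hMM (x + y)
    have b := hMM (x - y)
    have c := hMM y
    have d := hMM x
    have f := hMs y x
    simp only [map_add, LinearMap.add_apply, map_sub, LinearMap.sub_apply, f, c, d] at a b
    apply two
    have := congrArg₂ (fun u v => u - v) a b
    simp only [sub_zero] at this
    rw [← this]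
    abel
  have hMMM : ∀ x, M (M x x) (M x x) = 0 := by
    intro x
    have a := hP x (M x x)
    rw [hMM, map_zero, add_zero, add_zero] at a
    exact a
  refine ⟨M, hMs, hMM, hMMM, ?_⟩
  intro s x
  have a := hA s x
  have c := hC s x
  have d := hD s x
  have c2 : M (B s x x) (l s x) = 0 := by rw [hMs]; exact c
  simp only [map_add, LinearMap.add_apply, a, c, c2, d]
  abel

end Pool.Agent.L5helper13.TQ
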