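import Mathlib

/-!
# Turán numbers of hypergraphs: definitions and basic inequalities
-/

open Filter Topology Finset

namespace L5H33.TS

/-- `S` contains no edge of `H`. -/
def Indep {V : Type} (H : Finset (Finset V)) (S : Finset V) : Prop :=
  ∀ e ∈ H, ¬ e ⊆ S

/-- `H` is an `r`-graph on `V` all of whose independent sets have fewer than `k` elements. -/
def IsTuran {V : Type} (k r : ℕ) (H : Finset (Finset V)) : Prop :=
  (∀ e ∈ H, e.card = r) ∧ ∀ S : Finset V, Indep H S → S.card < k

/-- `T(n,k,r)`: the least number of edges of an `r`-graph on `n` vertices with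
independence number less than `k`. -/
noncomputable def turanNumber (n k r : ℕ) : ℕ :=
  sInf {m : ℕ | ∃ H : Finset (Finset (Fin n)), IsTuran k r H ∧ H.card = m}

theorem exists_isTuran (n k r : ℕ) (hk : r < k) :
    ∃ H : Finset (Finset (Fin n)), IsTuran k r H ∧ H.card = n.choose r := by
  refine ⟨(univ : Finset (Fin n)).powersetCard r, ⟨fun e he => (mem_powersetCard.1 he).2, ?_⟩, by simp⟩
  intro S hS
  by_contra hc
  push Not at hc
  obtain ⟨e, he, hec⟩ := exists_subset_card_eq (hk.le.trans hc)
  exact hS e (mem_powersetCard.2 ⟨subset_univ _, hec⟩) he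

theorem turanNumber_le_choose (n k r : ℕ) (hk : r < k) : turanNumber n k r ≤ n.choose r := by
  obtain ⟨H, h1, h2⟩ := exists_isTuran n k r hk
  exact Nat.sInf_le ⟨H, h1, h2⟩

theorem exists_min (n k r : ℕ) (hk : r < k) :
    ∃ H : Finset (Finset (Fin n)), IsTuran k r H ∧ H.card = turanNumber n k r := by
  have : turanNumber n k r ∈ {m : ℕ | ∃ H : Finset (Finset (Fin n)), IsTuran k r H ∧ H.card = m} := by
    apply Nat.sInf_mem
    obtain ⟨H, h1, h2⟩ := exists_isTuran n k r hk
    exact ⟨_, H, h1, h2⟩
  exact this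

theorem turanNumber_le_of_isTuran {V : Type} [Fintype V] [DecidableEq V] {n k r : ℕ}
    (hV : Fintype.card V = n) (H : Finset (Finset V)) (hH : IsTuran k r H) :
    turanNumber n k r ≤ H.card := by
  classical
  let e : V ≃ Fin n := Fintype.equivFinOfCardEq hV
  refine Nat.sInf_le ⟨H.map (mapEmbedding e.toEmbedding).toEmbedding, ⟨?_, ?_⟩, by simp⟩
  · intro f hf
    obtain ⟨g, hg, rfl⟩ := mem_map.1 hf
    simp [hH.1 g hg]
  · intro S hS
    have := hH.2 (S.map e.symm.toEmbedding) (by
      intro g hg hgS
      apply hS (g.map e.toEmbedding) (mem_map.2 ⟨g, hg, rfl⟩)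
      intro x hx
      obtain ⟨y, hy, rfl⟩ := mem_map.1 hx
      obtain ⟨z, hz, hz2⟩ := mem_map.1 (hgS hy)
      have : e.toEmbedding y = z := by
        rw [← hz2]; simp
      rw [this]; exact hz)
    simpa using this

/-- Deleting a vertex: the averaging inequality of Katona, Nemetz and Simonovits. -/
theorem turanNumber_succ (n k r : ℕ) (hk : r < k) :
    (n + 1) * turanNumber n k r ≤ (n + 1 - r) * turanNumber (n + 1) k r := by
  classical
  obtain ⟨H, hH, hc⟩ := exists_min (n + 1) k r hk
  -- edges avoiding `v`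
  have key : ∀ v : Fin (n + 1), turanNumber n k r ≤ (H.filter (fun e => v ∉ e)).card := by
    intro v
    let f : Fin n ↪ Fin (n + 1) := (Fin.succAboveEmb v)
    let H' : Finset (Finset (Fin n)) := univ.filter (fun e => e.map f ∈ H)
    have hT : IsTuran k r H' := by
      refine ⟨?_, ?_⟩
      · intro e he
        have := hH.1 _ (mem_filter.1 he).2
        simpa using this
      · intro S hS
        have := hH.2 (S.map f) (by
          intro g hg hgS
          obtain ⟨u, hu, hu2⟩ := subset_map_iff.1 hgS
          apply hS u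
          · exact mem_filter.2 ⟨mem_univ _, by rw [← hu2]; exact hg⟩
          · exact hu)
        simpa using this
    have h1 := turanNumber_le_of_isTuran (n := n) (by simp) H' hT
    refine h1.trans ?_
    have h2 : (H'.map (mapEmbedding f).toEmbedding) ⊆ H.filter (fun e => v ∉ e) := by
      intro e he
      obtain ⟨g, hg, rfl⟩ := mem_map.1 he
      refine mem_filter.2 ⟨(mem_filter.1 hg).2, ?_⟩
      intro hv
      obtain ⟨y, hy, hy2⟩ := mem_map.1 hv
      exact Fin.succAbove_ne v y hy2
    calc H'.card = (H'.map (mapEmbedding f).toEmbedding).card := by rw [card_map]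
      _ ≤ _ := card_le_card h2
  have hsum : ∑ v : Fin (n + 1), (H.filter (fun e => v ∉ e)).card = (n + 1 - r) * H.card := by
    have h1 : ∑ v : Fin (n + 1), (H.filter (fun e => v ∉ e)).card
        = ∑ e ∈ H, ((univ : Finset (Fin (n + 1))).filter (fun v => v ∉ e)).card := by
      simp only [card_filter]
      rw [sum_comm]
    rw [h1]
    have h2 : ∀ e ∈ H, ((univ : Finset (Fin (n + 1))).filter (fun v => v ∉ e)).card = n + 1 - r := by
      intro e he
      have : (univ : Finset (Fin (n + 1))).filter (fun v => v ∉ e) = eᶜ := by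
        ext v; simp
      rw [this, card_compl, Fintype.card_fin, hH.1 e he]
    rw [sum_congr rfl h2, sum_const, smul_eq_mul, mul_comm]
  calc (n + 1) * turanNumber n k r = ∑ v : Fin (n + 1), turanNumber n k r := by simp
    _ ≤ ∑ v : Fin (n + 1), (H.filter (fun e => v ∉ e)).card := sum_le_sum (fun v _ => key v)
    _ = (n + 1 - r) * H.card := hsum
    _ = _ := by rw [hc]

/-- The edge density `T(n,k,r) / C(n,r)`. -/
noncomputable def ratio (k r n : ℕ) : ℝ := (turanNumber n k r : ℝ) / (n.choose r : ℝ)

theorem ratio_nonneg (k r n : ℕ) : 0 ≤ ratio k r n := by unfold ratio; positivity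

theorem ratio_le_one (k r n : ℕ) (hk : r < k) : ratio k r n ≤ 1 := by
  unfold ratio
  apply div_le_one_of_le₀
  · exact_mod_cast turanNumber_le_choose n k r hk
  · positivity

theorem ratio_mono (k r : ℕ) (hk : r < k) : Monotone (ratio k r) := by
  apply monotone_nat_of_le_succ
  intro n
  unfold ratio
  by_cases hn : r ≤ n
  · have h1 := turanNumber_succ n k r hk
    have h2 : (n + 1) * n.choose r = (n + 1).choose r * (n + 1 - r) := by
      rw [← Nat.choose_mul_succ_eq]
      ring
    have hc1 : (0 : ℝ) < n.choose r := by exact_mod_cast Nat.choose_pos hn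
    have hc2 : (0 : ℝ) < (n + 1).choose r := by exact_mod_cast Nat.choose_pos (by omega)
    rw [div_le_div_iff₀ hc1 hc2]
    have h3 : (turanNumber n k r) * (n + 1).choose r * ((n + 1 - r) * (n+1))
        ≤ turanNumber (n + 1) k r * n.choose r * ((n + 1 - r) * (n+1)) := by
      calc (turanNumber n k r) * (n + 1).choose r * ((n + 1 - r) * (n+1))
          = ((n + 1) * turanNumber n k r) * ((n+1).choose r * (n + 1 - r)) := by ring
        _ ≤ ((n + 1 - r) * turanNumber (n + 1) k r) * ((n+1).choose r * (n + 1 - r)) :=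
            Nat.mul_le_mul_right _ h1
        _ = ((n + 1 - r) * turanNumber (n + 1) k r) * ((n + 1) * n.choose r) := by rw [h2]
        _ = _ := by ring
    have h4 : 0 < (n + 1 - r) * (n + 1) := Nat.mul_pos (by omega) (by omega)
    exact_mod_cast Nat.le_of_mul_le_mul_right h3 h4
  · push Not at hn
    rw [Nat.choose_eq_zero_of_lt hn]
    simp
    positivity

/-- The Turán density `t(k,r)`, as the limit of `T(n,k,r) / C(n,r)`. -/
noncomputable def turanDensity (k r : ℕ) : ℝ := limUnder atTop (ratio k r)

theorem tendsto_turanDensity (k r : ℕ) (hk : r < k) :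
    Tendsto (ratio k r) atTop (𝓝 (turanDensity k r)) := by
  have h : Tendsto (ratio k r) atTop (𝓝 (⨆ n, ratio k r n)) :=
    tendsto_atTop_ciSup (ratio_mono k r hk) ⟨1, by rintro _ ⟨n, rfl⟩; exact ratio_le_one k r n hk⟩
  exact tendsto_nhds_limUnder ⟨_, h⟩

theorem turanNumber_antitone (n r k k' : ℕ) (hk : r < k) (h : k ≤ k') :
    turanNumber n k' r ≤ turanNumber n k r := by
  obtain ⟨H, hH, hc⟩ := exists_min n k r hk
  exact Nat.sInf_le ⟨H, ⟨hH.1, fun S hS => (hH.2 S hS).trans_le h⟩, hc⟩

theorem turanDensity_antitone (r k k' : ℕ) (hk : r < k) (h : k ≤ k') :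
    turanDensity k' r ≤ turanDensity k r := by
  refine le_of_tendsto_of_tendsto' (tendsto_turanDensity k' r (hk.trans_le h))
    (tendsto_turanDensity k r hk) ?_
  intro n
  unfold ratio
  gcongr
  exact turanNumber_antitone n r k k' hk h

theorem turanDensity_nonneg (k r : ℕ) (hk : r < k) : 0 ≤ turanDensity k r :=
  ge_of_tendsto' (tendsto_turanDensity k r hk) (fun n => ratio_nonneg k r n)

end L5H33.TS
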