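import Mathlib

/-!
# Greedy coverings
-/

open Finset

namespace L5H33.TS

theorem greedy_step {X Y : Type} (A : Finset X) (B : Finset Y)
    (R : X → Y → Prop) [∀ x y, Decidable (R x y)] (d : ℕ)
    (hd : ∀ x ∈ A, d ≤ (B.filter (R x)).card) (hB : 0 < B.card) :
    ∃ y ∈ B, ((A.filter (fun x => ¬ R x y)).card : ℝ) ≤ A.card * (1 - d / B.card) := by
  classical
  by_contra hcon
  push Not at hcon
  have hBR : (0 : ℝ) < B.card := by exact_mod_cast hB
  have h1 : ∑ y ∈ B, ((A.filter (fun x => ¬ R x y)).card : ℝ) > ∑ y ∈ B, (A.card * (1 - d / B.card) : ℝ) := by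
    apply sum_lt_sum_of_nonempty (card_pos.1 hB)
    intro y hy
    exact hcon y hy
  have h2 : ∑ y ∈ B, ((A.filter (fun x => ¬ R x y)).card : ℝ)
      = ∑ x ∈ A, ((B.filter (fun y => ¬ R x y)).card : ℝ) := by
    simp only [card_filter]
    push_cast
    rw [sum_comm]
  have h3 : ∑ x ∈ A, ((B.filter (fun y => ¬ R x y)).card : ℝ) ≤ ∑ x ∈ A, ((B.card : ℝ) - d) := by
    apply sum_le_sum
    intro x hx
    have h4 := card_filter_add_card_filter_not (s := B) (R x)
    have h5 := hd x hx
    have h6 : ((B.filter (R x)).card : ℝ) + ((B.filter (fun y => ¬ R x y)).card : ℝ) = B.card := by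
      exact_mod_cast h4
    have h7 : (d : ℝ) ≤ ((B.filter (R x)).card : ℝ) := by exact_mod_cast h5
    linarith
  rw [sum_const, nsmul_eq_mul] at h1 h3
  have h8 : (B.card : ℝ) * (A.card * (1 - d / B.card)) = A.card * (B.card - d) := by
    field_simp
  linarith

theorem greedy {X Y : Type} (A : Finset X) (B : Finset Y)
    (R : X → Y → Prop) [∀ x y, Decidable (R x y)] (d : ℕ)
    (hd : ∀ x ∈ A, d ≤ (B.filter (R x)).card) (hB : 0 < B.card) (hdB : d ≤ B.card) (t : ℕ) :
    ∃ G ⊆ B, G.card ≤ t ∧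
      ((A.filter (fun x => ∀ y ∈ G, ¬ R x y)).card : ℝ) ≤ A.card * (1 - d / B.card) ^ t := by
  classical
  induction t with
  | zero => exact ⟨∅, by simp, by simp, by simp⟩
  | succ t ih =>
    obtain ⟨G, hG, hGc, hGA⟩ := ih
    obtain ⟨y, hy, hyA⟩ := greedy_step (A.filter (fun x => ∀ y ∈ G, ¬ R x y)) B R d
      (fun x hx => hd x (mem_filter.1 hx).1) hB
    refine ⟨insert y G, insert_subset hy hG, (card_insert_le _ _).trans (by omega), ?_⟩
    have h1 : A.filter (fun x => ∀ z ∈ insert y G, ¬ R x z)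
        = (A.filter (fun x => ∀ y ∈ G, ¬ R x y)).filter (fun x => ¬ R x y) := by
      ext x
      simp only [mem_filter, mem_insert]
      constructor
      · rintro ⟨h1, h2⟩
        exact ⟨⟨h1, fun z hz => h2 z (Or.inr hz)⟩, h2 y (Or.inl rfl)⟩
      · rintro ⟨⟨h1, h2⟩, h3⟩
        refine ⟨h1, ?_⟩
        rintro z (rfl | hz)
        · exact h3
        · exact h2 z hz
    rw [h1]
    have hx : (0 : ℝ) ≤ 1 - d / B.card := by
      have hBR : (0 : ℝ) < B.card := by exact_mod_cast hB
      rw [sub_nonneg]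
      apply div_le_one_of_le₀
      · exact_mod_cast hdB
      · positivity
    calc _ ≤ _ := hyA
      _ ≤ (A.card * (1 - d / B.card) ^ t) * (1 - d / B.card) := by gcongr
      _ = _ := by ring

theorem exists_cover {X Y : Type} (A : Finset X) (B : Finset Y)
    (R : X → Y → Prop) [∀ x y, Decidable (R x y)] (d : ℕ) (hd0 : 0 < d)
    (hd : ∀ x ∈ A, d ≤ (B.filter (R x)).card) (hdB : d ≤ B.card) :
    ∃ G ⊆ B, (G.card : ℝ) ≤ (B.card / d) * Real.log A.card + 1 ∧
      ∀ x ∈ A, ∃ y ∈ G, R x y := by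
  classical
  have hB : 0 < B.card := hd0.trans_le hdB
  have hBR : (0 : ℝ) < B.card := by exact_mod_cast hB
  have hdR : (0 : ℝ) < d := by exact_mod_cast hd0
  rcases A.eq_empty_or_nonempty with rfl | hA
  · refine ⟨∅, by simp, by simp, by simp⟩
  have hAR : (1 : ℝ) ≤ A.card := by exact_mod_cast card_pos.2 hA
  set s : ℝ := (B.card / d) * Real.log A.card with hs
  have hs0 : 0 ≤ s := by
    have := Real.log_nonneg hAR
    positivity
  obtain ⟨G, hG, hGc, hGA⟩ := greedy A B R d hd hB hdB (⌊s⌋₊ + 1)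
  refine ⟨G, hG, ?_, ?_⟩
  · calc (G.card : ℝ) ≤ ((⌊s⌋₊ + 1 : ℕ) : ℝ) := by exact_mod_cast hGc
      _ = ⌊s⌋₊ + 1 := by push_cast; ring
      _ ≤ s + 1 := by gcongr; exact Nat.floor_le hs0
  · have hlt : ((A.filter (fun x => ∀ y ∈ G, ¬ R x y)).card : ℝ) < 1 := by
      refine hGA.trans_lt ?_
      have hx : (0 : ℝ) ≤ 1 - d / B.card := by
        rw [sub_nonneg]
        apply div_le_one_of_le₀
        · exact_mod_cast hdB
        · positivity
      have h1 : (1 - (d : ℝ) / B.card) ^ (⌊s⌋₊ + 1) ≤ Real.exp (-((d : ℝ) / B.card) * (⌊s⌋₊ + 1)) := by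
        have h2 : (1 - (d : ℝ) / B.card) ≤ Real.exp (-((d : ℝ) / B.card)) := by
          have := Real.add_one_le_exp (-((d : ℝ) / B.card))
          linarith
        calc (1 - (d : ℝ) / B.card) ^ (⌊s⌋₊ + 1) ≤ (Real.exp (-((d : ℝ) / B.card))) ^ (⌊s⌋₊ + 1) := by
              gcongr
          _ = _ := by
              rw [← Real.exp_nat_mul]
              congr 1
              push_cast
              ring
      have h3 : Real.exp (-((d : ℝ) / B.card) * (⌊s⌋₊ + 1)) < Real.exp (- Real.log A.card) := by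
        apply Real.exp_lt_exp.2
        have h4 : s < ⌊s⌋₊ + 1 := Nat.lt_floor_add_one s
        have h5 : ((d : ℝ) / B.card) * s = Real.log A.card := by
          rw [hs]; field_simp
        have h6 : ((d : ℝ) / B.card) * s < ((d : ℝ) / B.card) * (⌊s⌋₊ + 1) := by gcongr
        linarith
      have h7 : Real.exp (- Real.log A.card) = (A.card : ℝ)⁻¹ := by
        rw [Real.exp_neg, Real.exp_log (by linarith)]
      calc (A.card : ℝ) * (1 - d / B.card) ^ (⌊s⌋₊ + 1)
          ≤ A.card * Real.exp (-((d : ℝ) / B.card) * (⌊s⌋₊ + 1)) := by gcongr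
        _ < A.card * Real.exp (- Real.log A.card) := by
            apply mul_lt_mul_of_pos_left h3 (by linarith)
        _ = 1 := by rw [h7]; field_simp
    have h0 : (A.filter (fun x => ∀ y ∈ G, ¬ R x y)).card = 0 := by
      have : (A.filter (fun x => ∀ y ∈ G, ¬ R x y)).card < 1 := by exact_mod_cast hlt
      omega
    intro x hx
    by_contra hcon
    push Not at hcon
    have : x ∈ A.filter (fun x => ∀ y ∈ G, ¬ R x y) := mem_filter.2 ⟨hx, hcon⟩
    rw [card_eq_zero.1 h0] at this
    simp at this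

/-- A small family of `r`-sets such that every `D`-set contains a member. -/
theorem exists_family {P : Type} [Fintype P] [DecidableEq P] (D r : ℕ) (h1 : r ≤ D)
    (h2 : D ≤ Fintype.card P) :
    ∃ F : Finset (Finset P), (∀ e ∈ F, e.card = r) ∧
      (∀ S : Finset P, D ≤ S.card → ∃ e ∈ F, e ⊆ S) ∧
      (F.card : ℝ) ≤ ((Fintype.card P).choose r / D.choose r) *
        Real.log ((Fintype.card P).choose D) + 1 := by
  classical
  obtain ⟨G, hG, hGc, hGA⟩ := exists_cover ((univ : Finset P).powersetCard D)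
    ((univ : Finset P).powersetCard r) (fun x y => y ⊆ x) (D.choose r) (Nat.choose_pos h1) (by
      intro x hx
      have hx2 := (mem_powersetCard.1 hx).2
      have h3 : ((univ : Finset P).powersetCard r).filter (fun y => y ⊆ x) = x.powersetCard r := by
        ext y
        simp only [mem_filter, mem_powersetCard, subset_univ, true_and]
        tauto
      rw [h3, card_powersetCard, hx2]) (by
      rw [card_powersetCard, card_univ]
      exact Nat.choose_le_choose r h2)
  refine ⟨G, fun e he => (mem_powersetCard.1 (hG he)).2, ?_, ?_⟩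
  · intro S hS
    obtain ⟨S', hS', hS'c⟩ := exists_subset_card_eq hS
    obtain ⟨y, hy, hyS⟩ := hGA S' (mem_powersetCard.2 ⟨subset_univ _, hS'c⟩)
    exact ⟨y, hy, hyS.trans hS'⟩
  · simpa [card_powersetCard, card_univ] using hGc

end L5H33.TS
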