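import Pool.Agent.L5helper33.TSBase
import Pool.Agent.L5helper33.TSGreedy

/-!
# The construction: transversal edges and edges made of coincident pairs
-/

open Finset

namespace L5H33.TS

/-- The vertices: `m` super-parts, each made of `q` parts of size `b`. -/
abbrev Vx (m q b : ℕ) : Type := (Fin m × Fin q) × Fin b

/-- `u` disjoint pairs of coincident elements. -/
theorem exists_pairs {P B : Type} [DecidableEq P] [DecidableEq B] (u : ℕ) :
    ∀ A : Finset (P × B), (A.image Prod.fst).card + 2 * u ≤ A.card + 1 →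
      ∃ Q : Finset (Finset (P × B)), Q.card = u ∧
        (∀ p ∈ Q, ∃ x y : P × B, x ∈ A ∧ y ∈ A ∧ x ≠ y ∧ x.1 = y.1 ∧ p = {x, y}) ∧
        (Q.biUnion id).card = 2 * u ∧ Q.biUnion id ⊆ A := by
  induction u with
  | zero =>
    intro A _
    exact ⟨∅, by simp, by simp, by simp, by simp⟩
  | succ u ih =>
    intro A hA
    have h1 : (A.image Prod.fst).card < A.card := by omega
    obtain ⟨x, hx, y, hy, hxy, hxy1⟩ := exists_ne_map_eq_of_card_lt_of_maps_to h1
      (f := Prod.fst) (fun a ha => mem_image_of_mem _ ha)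
    have h2 : ((A \ {x, y}).image Prod.fst).card ≤ (A.image Prod.fst).card :=
      card_le_card (image_subset_image sdiff_subset)
    have hsub : ({x, y} : Finset (P × B)) ⊆ A := by
      intro z hz
      rcases mem_insert.1 hz with rfl | hz
      · exact hx
      · rw [mem_singleton.1 hz]; exact hy
    have h3 : (A \ {x, y}).card + 2 = A.card := by
      have := card_sdiff_add_card_eq_card hsub
      rwa [card_pair hxy] at this
    obtain ⟨Q, hQ1, hQ2, hQ3, hQ4⟩ := ih (A \ {x, y}) (by omega)
    have hnot : ({x, y} : Finset (P × B)) ∉ Q := by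
      intro hmem
      have h4 : ({x, y} : Finset (P × B)) ⊆ Q.biUnion id := subset_biUnion_of_mem id hmem
      have h5 := hQ4 (h4 (mem_insert_self x {y}))
      simp at h5
    refine ⟨insert {x, y} Q, by rw [card_insert_of_notMem hnot, hQ1], ?_, ?_, ?_⟩
    · intro p hp
      rcases mem_insert.1 hp with rfl | hp
      · exact ⟨x, y, hx, hy, hxy, hxy1, rfl⟩
      · obtain ⟨a, b, ha, hb, hab, hab1, rfl⟩ := hQ2 p hp
        exact ⟨a, b, (mem_sdiff.1 ha).1, (mem_sdiff.1 hb).1, hab, hab1, rfl⟩
    · rw [biUnion_insert, card_union_of_disjoint, hQ3]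
      · simp [card_pair hxy]; ring
      · rw [id_def]
        apply disjoint_of_subset_right hQ4
        exact disjoint_sdiff
    · rw [biUnion_insert]
      exact union_subset (by simpa using hsub) (hQ4.trans sdiff_subset)

/-- The coincident pairs of the super-part `j`. -/
def pairs (m q b : ℕ) (j : Fin m) : Finset (Finset (Vx m q b)) :=
  (univ : Finset (Fin q)).biUnion (fun c =>
    ((univ : Finset (Fin b)).powersetCard 2).image (fun s => s.image (fun z => ((j, c), z))))

theorem card_pairs_le (m q b : ℕ) (j : Fin m) : (pairs m q b j).card ≤ q * b.choose 2 := by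
  unfold pairs
  refine card_biUnion_le.trans ?_
  calc ∑ c : Fin q, (((univ : Finset (Fin b)).powersetCard 2).image
        (fun s => s.image (fun z => (((j, c), z) : Vx m q b)))).card
      ≤ ∑ c : Fin q, b.choose 2 := by
        apply sum_le_sum
        intro c _
        refine card_image_le.trans ?_
        simp
    _ = q * b.choose 2 := by simp

theorem mem_pairs {m q b : ℕ} {j : Fin m} {x y : Vx m q b} (hx : x.1.1 = j) (hxy : x ≠ y)
    (h : x.1 = y.1) : ({x, y} : Finset (Vx m q b)) ∈ pairs m q b j := by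
  obtain ⟨⟨j', c⟩, z⟩ := x
  obtain ⟨p, w⟩ := y
  simp only at hx h
  subst hx
  subst h
  have hzw : z ≠ w := by
    rintro rfl
    exact hxy rfl
  unfold pairs
  refine mem_biUnion.2 ⟨c, mem_univ _, mem_image.2 ⟨{z, w}, ?_, ?_⟩⟩
  · exact mem_powersetCard.2 ⟨subset_univ _, card_pair hzw⟩
  · simp [image_insert]

/-- The super-part `j`. -/
def superPart (m q b : ℕ) (j : Fin m) : Finset (Vx m q b) := univ.filter (fun x => x.1.1 = j)

theorem card_superPart (m q b : ℕ) (j : Fin m) : (superPart m q b j).card = q * b := by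
  have h : superPart m q b j
      = ((univ : Finset (Fin q × Fin b))).map ⟨fun x => ((j, x.1), x.2), by
          rintro ⟨a, b⟩ ⟨c, d⟩ h
          simp only [Prod.mk.injEq, true_and] at h
          exact Prod.ext h.1 h.2⟩ := by
    ext ⟨⟨j', c⟩, z⟩
    simp only [superPart, mem_filter, mem_univ, true_and, mem_map, Function.Embedding.coeFn_mk,
      Prod.mk.injEq, Prod.exists]
    constructor
    · rintro rfl; exact ⟨c, z, ⟨rfl, rfl⟩, rfl⟩
    · rintro ⟨a, b, ⟨h1, h2⟩, h3⟩; exact h1.symm
  rw [h, card_map]
  simp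

/-- Edges inside a super-part that contain `u` disjoint coincident pairs, plus `v` more elements. -/
def H2 (m q b u v : ℕ) : Finset (Finset (Vx m q b)) :=
  (univ : Finset (Fin m)).biUnion (fun j =>
    (((pairs m q b j).powersetCard u ×ˢ (superPart m q b j).powersetCard v).image
      (fun a => a.1.biUnion id ∪ a.2)).filter (fun e => e.card = 2 * u + v))

theorem card_H2_le (m q b u v : ℕ) :
    (H2 m q b u v).card ≤ m * ((q * b.choose 2).choose u * (q * b).choose v) := by
  unfold H2
  refine card_biUnion_le.trans ?_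
  calc _ ≤ ∑ j : Fin m, ((q * b.choose 2).choose u * (q * b).choose v) := by
        apply sum_le_sum
        intro j _
        refine (card_filter_le _ _).trans (card_image_le.trans ?_)
        rw [card_product, card_powersetCard, card_powersetCard, card_superPart]
        exact Nat.mul_le_mul_right _ (Nat.choose_le_choose u (card_pairs_le m q b j))
    _ = _ := by simp

/-- Transversal edges with type in `F`. -/
def H1 (m q b : ℕ) (F : Finset (Finset (Fin m × Fin q))) : Finset (Finset (Vx m q b)) :=
  F.biUnion (fun f => (f.pi (fun _ => (univ : Finset (Fin b)))).image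
    (fun g => f.attach.image (fun p => (p.1, g p.1 p.2))))

theorem card_H1_le (m q b r : ℕ) (F : Finset (Finset (Fin m × Fin q))) (hF : ∀ f ∈ F, f.card = r) :
    (H1 m q b F).card ≤ F.card * b ^ r := by
  unfold H1
  refine card_biUnion_le.trans ?_
  calc _ ≤ ∑ f ∈ F, b ^ r := by
        apply sum_le_sum
        intro f hf
        refine card_image_le.trans ?_
        rw [card_pi]
        simp [hF f hf]
    _ = _ := by simp

theorem H1_card (m q b r : ℕ) (F : Finset (Finset (Fin m × Fin q))) (hF : ∀ f ∈ F, f.card = r)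
    (e : Finset (Vx m q b)) (he : e ∈ H1 m q b F) : e.card = r := by
  unfold H1 at he
  obtain ⟨f, hf, he⟩ := mem_biUnion.1 he
  obtain ⟨g, hg, rfl⟩ := mem_image.1 he
  rw [card_image_of_injective, card_attach, hF f hf]
  rintro ⟨p, hp⟩ ⟨p', hp'⟩ h
  simp only [Prod.mk.injEq] at h
  exact Subtype.ext h.1

theorem H1_cover (m q b : ℕ) (F : Finset (Finset (Fin m × Fin q))) (f : Finset (Fin m × Fin q))
    (hf : f ∈ F) (S : Finset (Vx m q b)) (hS : f ⊆ S.image Prod.fst) :
    ∃ e ∈ H1 m q b F, e ⊆ S := by
  have h1 : ∀ p, p ∈ f → ∃ z : Fin b, (p, z) ∈ S := by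
    intro p hp
    obtain ⟨⟨p', z⟩, hx, hx2⟩ := mem_image.1 (hS hp)
    simp only at hx2
    subst hx2
    exact ⟨z, hx⟩
  choose g hg using h1
  refine ⟨f.attach.image (fun p => (p.1, g p.1 p.2)), ?_, ?_⟩
  · refine mem_biUnion.2 ⟨f, hf, mem_image.2 ⟨g, ?_, rfl⟩⟩
    simp
  · intro x hx
    obtain ⟨⟨p, hp⟩, _, rfl⟩ := mem_image.1 hx
    exact hg p hp

theorem H2_cover (m q b u v : ℕ) (hv : v ≤ 1) (j : Fin m) (A : Finset (Vx m q b))
    (hAj : ∀ x ∈ A, x.1.1 = j)
    (hA : (A.image Prod.fst).card + 2 * u < A.card) :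
    ∃ e ∈ H2 m q b u v, e ⊆ A := by
  obtain ⟨Q, hQ1, hQ2, hQ3, hQ4⟩ := exists_pairs u A (by omega)
  have h1 : v ≤ (A \ Q.biUnion id).card := by
    rw [card_sdiff_of_subset hQ4, hQ3]
    omega
  obtain ⟨w, hw, hwc⟩ := exists_subset_card_eq h1
  have hdisj : Disjoint (Q.biUnion id) w := disjoint_of_subset_right hw disjoint_sdiff
  refine ⟨Q.biUnion id ∪ w, ?_, union_subset hQ4 (hw.trans sdiff_subset)⟩
  refine mem_biUnion.2 ⟨j, mem_univ _, mem_filter.2 ⟨mem_image.2 ⟨(Q, w), ?_, rfl⟩, ?_⟩⟩
  · refine mem_product.2 ⟨mem_powersetCard.2 ⟨?_, hQ1⟩, mem_powersetCard.2 ⟨?_, hwc⟩⟩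
    · intro p hp
      obtain ⟨x, y, hx, hy, hxy, hxy1, rfl⟩ := hQ2 p hp
      exact mem_pairs (hAj x hx) hxy hxy1
    · intro x hx
      exact mem_filter.2 ⟨mem_univ _, hAj x (mem_sdiff.1 (hw hx)).1⟩
  · rw [card_union_of_disjoint hdisj, hQ3, hwc]

/-- The whole construction. -/
theorem construction (m q b u v D a : ℕ) (hv : v ≤ 1) (hD : D + 2 * u * m ≤ a + 1)
    (F : Finset (Finset (Fin m × Fin q))) (hF : ∀ f ∈ F, f.card = 2 * u + v)
    (hFD : ∀ S : Finset (Fin m × Fin q), D ≤ S.card → ∃ f ∈ F, f ⊆ S) :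
    turanNumber (m * q * b) (a + 1) (2 * u + v)
      ≤ F.card * b ^ (2 * u + v) + m * ((q * b.choose 2).choose u * (q * b).choose v) := by
  classical
  have hT : IsTuran (a + 1) (2 * u + v) (H1 m q b F ∪ H2 m q b u v) := by
    refine ⟨?_, ?_⟩
    · intro e he
      rcases mem_union.1 he with he | he
      · exact H1_card m q b _ F hF e he
      · obtain ⟨j, _, he⟩ := mem_biUnion.1 he
        exact (mem_filter.1 he).2
    · intro S hS
      by_contra hcon
      push Not at hcon
      have hno : ¬ ∃ e ∈ H1 m q b F ∪ H2 m q b u v, e ⊆ S := by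
        rintro ⟨e, he, heS⟩
        exact hS e he heS
      apply hno
      by_cases hc : D ≤ (S.image Prod.fst).card
      · obtain ⟨f, hf, hfS⟩ := hFD _ hc
        obtain ⟨e, he, heS⟩ := H1_cover m q b F f hf S hfS
        exact ⟨e, mem_union_left _ he, heS⟩
      · push Not at hc
        by_contra hcon2
        have hj : ∀ j : Fin m, (S.filter (fun x => x.1.1 = j)).card
            ≤ ((S.image Prod.fst).filter (fun p => p.1 = j)).card + 2 * u := by
          intro j
          by_contra h5
          push Not at h5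
          apply hcon2
          have h6 : (S.filter (fun x => x.1.1 = j)).image Prod.fst
              ⊆ (S.image Prod.fst).filter (fun p => p.1 = j) := by
            intro p hp
            obtain ⟨x, hx, rfl⟩ := mem_image.1 hp
            exact mem_filter.2 ⟨mem_image_of_mem _ (mem_filter.1 hx).1, (mem_filter.1 hx).2⟩
          have h7 := card_le_card h6
          obtain ⟨e, he, heS⟩ := H2_cover m q b u v hv j (S.filter (fun x => x.1.1 = j))
            (fun x hx => (mem_filter.1 hx).2) (by omega)
          exact ⟨e, mem_union_right _ he, heS.trans (filter_subset _ _)⟩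
        have hs1 : S.card = ∑ j : Fin m, (S.filter (fun x => x.1.1 = j)).card :=
          card_eq_sum_card_fiberwise (fun x _ => mem_univ _)
        have hs2 : (S.image Prod.fst).card
            = ∑ j : Fin m, ((S.image Prod.fst).filter (fun p => p.1 = j)).card :=
          card_eq_sum_card_fiberwise (fun x _ => mem_univ _)
        have hs3 : S.card ≤ (S.image Prod.fst).card + m * (2 * u) := by
          rw [hs1, hs2]
          calc _ ≤ ∑ j : Fin m, (((S.image Prod.fst).filter (fun p => p.1 = j)).card + 2 * u) :=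
                sum_le_sum (fun j _ => hj j)
            _ = _ := by rw [sum_add_distrib]; simp
        have : m * (2 * u) = 2 * u * m := by ring
        omega
  have h1 := turanNumber_le_of_isTuran (V := Vx m q b) (n := m * q * b) (by simp) _ hT
  refine h1.trans ((card_union_le _ _).trans ?_)
  exact Nat.add_le_add (card_H1_le m q b _ F hF) (card_H2_le m q b u v)

end L5H33.TS
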