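import Pool.Agent.L5helper33.TSMain

/-!
# `t_*(r) ≤ log r + log log r + 11/2`
-/

open Filter Topology Finset

namespace L5H33.TS

theorem tStar_le_param (u v N : ℕ) (hu : 1 ≤ u) (hv : v ≤ 1) (hN : 2 ≤ N) :
    tStar (2 * u + v) ≤ (1 + Real.log (3 * (N : ℝ) ^ 2 / (N - 1))) *
      ((N : ℝ) / (N - 1)) ^ (2 * u + v - 1) + 1 / 3 := by
  set r := 2 * u + v with hr
  have hr1 : 1 ≤ r := by omega
  have huR : (0 : ℝ) < u := by exact_mod_cast hu
  have hNR : (0 : ℝ) < N := by exact_mod_cast (show 0 < N by omega)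
  have hN1R : (0 : ℝ) < (N : ℝ) - 1 := by
    have : (2 : ℝ) ≤ N := by exact_mod_cast hN
    linarith
  have hseq : Tendsto (fun m : ℕ => 2 * u * N * m) atTop atTop :=
    tendsto_mul_atTop' (by positivity)
  have h1 : Tendsto (fun m : ℕ => rescaled r (2 * u * N * m)) atTop (𝓝 (tStar r)) :=
    (tendsto_tStar r hr1).comp hseq
  have h2 : Tendsto (fun m : ℕ => (1 + Real.log (3 * (N : ℝ) ^ 2 / (N - 1))) *
        ((((2 * u * N : ℝ) * m + 0) / ((2 * u * (N - 1) : ℝ) * m + (2 - r))) ^ (r - 1) *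
          (((2 * u * (N - 1) : ℝ) * m + 1) / ((2 * u * (N - 1) : ℝ) * m + (2 - r))))
      + 1 / ((2 * u * N * m : ℕ) : ℝ) + 1 / 3) atTop
      (𝓝 ((1 + Real.log (3 * (N : ℝ) ^ 2 / (N - 1))) *
        (((2 * u * N : ℝ) / (2 * u * (N - 1) : ℝ)) ^ (r - 1) *
          ((2 * u * (N - 1) : ℝ) / (2 * u * (N - 1) : ℝ))) + 0 + 1 / 3)) := by
    have hc : (2 * u * (N - 1) : ℝ) ≠ 0 := by positivity
    refine Tendsto.add (Tendsto.add (Tendsto.const_mul _ (Tendsto.mul (Tendsto.pow ?_ _) ?_)) ?_)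
      tendsto_const_nhds
    · exact tendsto_frac _ _ _ _ hc
    · exact tendsto_frac _ _ _ _ hc
    · have h3 : Tendsto (fun n : ℕ => 1 / (n : ℝ)) atTop (𝓝 0) := tendsto_one_div_atTop_nhds_zero_nat
      exact h3.comp hseq
  have h3 : (1 + Real.log (3 * (N : ℝ) ^ 2 / (N - 1))) *
        (((2 * u * N : ℝ) / (2 * u * (N - 1) : ℝ)) ^ (r - 1) *
          ((2 * u * (N - 1) : ℝ) / (2 * u * (N - 1) : ℝ))) + 0 + 1 / 3
      = (1 + Real.log (3 * (N : ℝ) ^ 2 / (N - 1))) * ((N : ℝ) / (N - 1)) ^ (r - 1) + 1 / 3 := by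
    have hc : (2 * u * (N - 1) : ℝ) ≠ 0 := by positivity
    rw [div_self hc, mul_div_mul_left (N : ℝ) ((N : ℝ) - 1) (show (2 * u : ℝ) ≠ 0 by positivity)]
    ring
  rw [h3] at h2
  refine le_of_tendsto_of_tendsto h1 h2 ?_
  filter_upwards [eventually_ge_atTop 1] with m hm
  refine (rescaled_bound u v N m hu hv hN hm).trans (le_of_eq ?_)
  have hmR : (0 : ℝ) < m := by exact_mod_cast hm
  have h2u : 2 * u ≤ 2 * u * (N - 1) * m := by
    calc 2 * u = 2 * u * 1 * 1 := by ring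
      _ ≤ 2 * u * (N - 1) * m := by
          have : 1 ≤ N - 1 := by omega
          gcongr
  have h4 : ((2 * u * (N - 1) * m + 1 + 1 - r : ℕ) : ℝ) = (2 * u * (N - 1) : ℝ) * m + (2 - r) := by
    rw [Nat.cast_sub (by omega)]
    push_cast [Nat.cast_sub (show 1 ≤ N by omega)]
    ring
  have h5 : ((2 * u * (N - 1) * m + 1 : ℕ) : ℝ) = (2 * u * (N - 1) : ℝ) * m + 1 := by
    push_cast [Nat.cast_sub (show 1 ≤ N by omega)]
    ring
  have h6 : ((2 * u * N * m : ℕ) : ℝ) = (2 * u * N : ℝ) * m + 0 := by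
    push_cast
    ring
  rw [← hr, h4, h5]
  rw [h6]
  have h7 : ((2 * u * (N - 1) : ℝ) * m + (2 - r)) ^ r
      = ((2 * u * (N - 1) : ℝ) * m + (2 - r)) ^ (r - 1) * ((2 * u * (N - 1) : ℝ) * m + (2 - r)) := by
    rw [← pow_succ]; congr 1; omega
  rw [h7, div_pow]
  rw [div_mul_div_comm]

theorem tStar_le_log (r : ℕ) (hr : 3 ≤ r) :
    tStar r ≤ Real.log r + Real.log (Real.log r) + 11 / 2 := by
  set L := Real.log r with hL
  have hrR : (3 : ℝ) ≤ r := by exact_mod_cast hr
  have hlog3 : (1 : ℝ) < Real.log 3 := by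
    rw [Real.lt_log_iff_exp_lt (by norm_num)]
    have := Real.exp_one_lt_d9
    linarith
  have hL1 : 1 < L := hlog3.trans_le (Real.log_le_log (by norm_num) hrR)
  set s : ℝ := (r - 1) * (L + 3) with hs
  have hs8 : 8 ≤ s := by
    rw [hs]; nlinarith
  set N := ⌈s⌉₊ + 1 with hNdef
  have hceil1 : s ≤ (⌈s⌉₊ : ℝ) := Nat.le_ceil s
  have hceil2 : (⌈s⌉₊ : ℝ) < s + 1 := Nat.ceil_lt_add_one (by linarith)
  have hNR : (N : ℝ) = ⌈s⌉₊ + 1 := by rw [hNdef]; push_cast; ring
  have hN : 2 ≤ N := by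
    have : 0 < ⌈s⌉₊ := Nat.ceil_pos.2 (by linarith)
    omega
  set c : ℝ := (⌈s⌉₊ : ℝ) with hc
  have hc8 : 8 ≤ c := hs8.trans hceil1
  obtain ⟨u, v, hu, hv, huv⟩ : ∃ u v, 1 ≤ u ∧ v ≤ 1 ∧ r = 2 * u + v :=
    ⟨r / 2, r % 2, by omega, by omega, by omega⟩
  have h1 := tStar_le_param u v N hu hv hN
  rw [← huv, hNR] at h1
  have e1 : (c + 1 - 1) = c := by ring
  rw [e1] at h1
  -- the power
  have h2 : ((c + 1) / c) ^ (r - 1) ≤ (L + 3) / (L + 2) := by
    have h3 : (c + 1) / c ≤ Real.exp (1 / c) := by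
      have := Real.add_one_le_exp (1 / c)
      calc (c + 1) / c = 1 / c + 1 := by field_simp; ring
        _ ≤ _ := this
    have h4 : ((r - 1 : ℕ) : ℝ) = r - 1 := by
      rw [Nat.cast_sub (by omega)]; simp
    calc ((c + 1) / c) ^ (r - 1) ≤ (Real.exp (1 / c)) ^ (r - 1) := by gcongr
      _ = Real.exp ((r - 1) / c) := by
          rw [← Real.exp_nat_mul, h4]; congr 1; field_simp
      _ ≤ Real.exp (1 / (L + 3)) := by
          apply Real.exp_le_exp.2
          rw [div_le_div_iff₀ (by linarith) (by linarith)]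
          linarith
      _ ≤ (L + 3) / (L + 2) := by
          have h5 := Real.add_one_le_exp (-(1 / (L + 3)))
          rw [Real.exp_neg] at h5
          have h6 : -(1 / (L + 3)) + 1 = (L + 2) / (L + 3) := by field_simp; ring
          rw [h6] at h5
          have h7 : 0 < (L + 2) / (L + 3) := by positivity
          have h8 := inv_anti₀ h7 h5
          rw [inv_inv, inv_div] at h8
          exact h8
  -- the logarithm
  have h3 : Real.log (3 * (c + 1) ^ 2 / c) ≤ Real.log 3 + L + Real.log (L + 3) := by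
    have h4 : 3 * (c + 1) ^ 2 / c ≤ 3 * (r * (L + 3)) := by
      rw [div_le_iff₀ (by linarith)]
      have h5 : c ≤ r * (L + 3) - L - 2 := by
        have : s = r * (L + 3) - (L + 3) := by rw [hs]; ring
        linarith
      nlinarith
    calc Real.log (3 * (c + 1) ^ 2 / c) ≤ Real.log (3 * (r * (L + 3))) :=
          Real.log_le_log (by positivity) h4
      _ = _ := by
          rw [Real.log_mul (by norm_num) (by positivity), Real.log_mul (by positivity) (by positivity)]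
          ring
  set A : ℝ := 1 + (Real.log 3 + L + Real.log (L + 3)) with hA
  have hlogL3 : 0 ≤ Real.log (L + 3) := Real.log_nonneg (by linarith)
  have hApos : 0 ≤ A := by rw [hA]; linarith
  have hbase : 0 ≤ ((c + 1) / c) ^ (r - 1) := by positivity
  have h4 : (1 + Real.log (3 * (c + 1) ^ 2 / c)) * ((c + 1) / c) ^ (r - 1) ≤ A * ((L + 3) / (L + 2)) := by
    apply mul_le_mul _ h2 hbase hApos
    rw [hA]; linarith
  -- numerical estimates
  have hlog3' : Real.log 3 ≤ 1.0988 := by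
    rw [Real.log_le_iff_le_exp (by norm_num)]
    have h5 : Real.exp 1.0988 = Real.exp 1 * Real.exp 0.0988 := by
      rw [← Real.exp_add]; norm_num
    rw [h5]
    have h6 := Real.exp_one_gt_d9
    have h7 := Real.quadratic_le_exp_of_nonneg (show (0 : ℝ) ≤ 0.0988 by norm_num)
    nlinarith
  have hlog4 : Real.log 4 ≤ 1.3863 := by
    have : Real.log 4 = 2 * Real.log 2 := by
      rw [show (4 : ℝ) = 2 ^ 2 by norm_num, Real.log_pow]; norm_num
    rw [this]
    have := Real.log_two_lt_d9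
    linarith
  have hlogA : Real.log (L + 3) ≤ Real.log L + Real.log 4 := by
    rw [← Real.log_mul (by linarith) (by norm_num)]
    apply Real.log_le_log (by linarith)
    linarith
  have hlogB : Real.log (L + 3) ≤ (L + 3) / 4 - 1 + Real.log 4 := by
    have h5 := Real.log_le_sub_one_of_pos (show 0 < (L + 3) / 4 by linarith)
    rw [Real.log_div (by linarith) (by norm_num)] at h5
    linarith
  have h5 : A * ((L + 3) / (L + 2)) ≤ A + 3 / 2 := by
    have h6 : A * ((L + 3) / (L + 2)) = A + A / (L + 2) := by field_simp; ring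
    rw [h6]
    have h7 : A / (L + 2) ≤ 3 / 2 := by
      rw [div_le_iff₀ (by linarith), hA]
      linarith
    linarith
  have h6 : tStar r ≤ A + 3 / 2 + 1 / 3 := by linarith
  rw [hA] at h6
  linarith

end L5H33.TS
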