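import Pool.Agent.L5helper33.TSConstr

/-!
# Limits: the Turán density and the rescaled Turán density
-/

open Filter Topology Finset

namespace L5H33.TS

theorem tendsto_pow_div_choose (r : ℕ) :
    Tendsto (fun n : ℕ => ((n : ℝ) ^ r / r.factorial) / (n.choose r : ℝ)) atTop (𝓝 1) := by
  have h := (isEquivalent_choose r).symm
  have hz : ∀ᶠ n : ℕ in atTop, ((n.choose r : ℕ) : ℝ) ≠ 0 := by
    filter_upwards [eventually_ge_atTop r] with n hn
    exact_mod_cast (Nat.choose_pos hn).ne'
  exact (Asymptotics.isEquivalent_iff_tendsto_one hz).1 h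

theorem tendsto_mul_atTop' {l : ℕ} (hl : 0 < l) : Tendsto (fun b : ℕ => l * b) atTop atTop := by
  apply tendsto_atTop_mono (f := fun b : ℕ => b) _ tendsto_id
  intro b
  exact Nat.le_mul_of_pos_left b hl

theorem density_le_of_bound (l k r : ℕ) (hl : 0 < l) (hk : r < k) (A : ℝ)
    (h : ∀ b : ℕ, (turanNumber (l * b) k r : ℝ) ≤ A * (b : ℝ) ^ r) :
    turanDensity k r ≤ A * r.factorial / (l : ℝ) ^ r := by
  have h1 : Tendsto (fun b : ℕ => ratio k r (l * b)) atTop (𝓝 (turanDensity k r)) :=
    (tendsto_turanDensity k r hk).comp (tendsto_mul_atTop' hl)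
  have h2 : Tendsto (fun b : ℕ => (A * r.factorial / (l : ℝ) ^ r) *
      ((((l * b : ℕ) : ℝ) ^ r / r.factorial) / ((l * b).choose r : ℝ))) atTop
      (𝓝 ((A * r.factorial / (l : ℝ) ^ r) * 1)) :=
    ((tendsto_pow_div_choose r).comp (tendsto_mul_atTop' hl)).const_mul _
  rw [mul_one] at h2
  refine le_of_tendsto_of_tendsto' h1 h2 ?_
  intro b
  unfold ratio
  have hlR : (0 : ℝ) < l := by exact_mod_cast hl
  have hf : (0 : ℝ) < r.factorial := by exact_mod_cast r.factorial_pos
  have h3 : (A * r.factorial / (l : ℝ) ^ r) *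
      ((((l * b : ℕ) : ℝ) ^ r / r.factorial) / ((l * b).choose r : ℝ))
      = (A * (b : ℝ) ^ r) / ((l * b).choose r : ℝ) := by
    push_cast
    rw [mul_pow]
    have : (l : ℝ) ^ r ≠ 0 := by positivity
    field_simp
  rw [h3]
  have := h b
  gcongr

/-- The blow-up into disjoint copies. -/
theorem turanNumber_blocks (m b a r : ℕ) (hr : r < a + 1) :
    turanNumber (m * b) (m * a + 1) r ≤ m * turanNumber b (a + 1) r := by
  classical
  obtain ⟨H, hH, hc⟩ := exists_min b (a + 1) r hr
  let G : Finset (Finset (Fin m × Fin b)) := (univ : Finset (Fin m)).biUnion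
    (fun j => H.image (fun e => e.image (fun z => (j, z))))
  have hinj : ∀ j : Fin m, Function.Injective (fun z : Fin b => (j, z)) := by
    intro j x y h
    exact (Prod.mk.injEq _ _ _ _ ▸ h : (j = j ∧ x = y)).2
  have hG : IsTuran (m * a + 1) r G := by
    refine ⟨?_, ?_⟩
    · intro e he
      obtain ⟨j, _, he⟩ := mem_biUnion.1 he
      obtain ⟨f, hf, rfl⟩ := mem_image.1 he
      rw [card_image_of_injective _ (hinj j)]
      exact hH.1 f hf
    · intro S hS
      by_contra hcon
      push Not at hcon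
      have hj : ∀ j : Fin m, (S.filter (fun x => x.1 = j)).card ≤ a := by
        intro j
        have h1 := hH.2 ((S.filter (fun x => x.1 = j)).image Prod.snd) (by
          intro e he heS
          apply hS (e.image (fun z => (j, z)))
          · exact mem_biUnion.2 ⟨j, mem_univ _, mem_image_of_mem _ he⟩
          · intro x hx
            obtain ⟨z, hz, rfl⟩ := mem_image.1 hx
            obtain ⟨y, hy, hy2⟩ := mem_image.1 (heS hz)
            have hy3 := mem_filter.1 hy
            have : y = (j, z) := Prod.ext hy3.2 hy2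
            rw [← this]
            exact hy3.1)
        rw [card_image_of_injOn] at h1
        · omega
        · intro x hx y hy hxy
          have hx3 := (mem_filter.1 hx).2
          have hy3 := (mem_filter.1 hy).2
          exact Prod.ext (hx3.trans hy3.symm) hxy
      have hs1 : S.card = ∑ j : Fin m, (S.filter (fun x => x.1 = j)).card :=
        card_eq_sum_card_fiberwise (fun x _ => mem_univ _)
      have hs2 : S.card ≤ m * a := by
        rw [hs1]
        calc _ ≤ ∑ j : Fin m, a := sum_le_sum (fun j _ => hj j)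
          _ = _ := by simp
      omega
  have h1 := turanNumber_le_of_isTuran (V := Fin m × Fin b) (n := m * b) (by simp) G hG
  refine h1.trans ?_
  calc G.card ≤ ∑ j : Fin m, (H.image (fun e => e.image (fun z => (j, z)))).card := card_biUnion_le
    _ ≤ ∑ j : Fin m, H.card := sum_le_sum (fun j _ => card_image_le)
    _ = _ := by simp [hc]

theorem tendsto_choose_div_choose (m r : ℕ) (hm : 0 < m) :
    Tendsto (fun b : ℕ => (b.choose r : ℝ) / ((m * b).choose r : ℝ)) atTop (𝓝 (1 / (m : ℝ) ^ r)) := by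
  have h1 : Tendsto (fun b : ℕ => (((b : ℝ) ^ r / r.factorial) / (b.choose r : ℝ))⁻¹ *
      (((((m * b : ℕ) : ℝ) ^ r / r.factorial) / ((m * b).choose r : ℝ))) * (1 / (m : ℝ) ^ r))
      atTop (𝓝 ((1 : ℝ)⁻¹ * 1 * (1 / (m : ℝ) ^ r))) :=
    (((tendsto_pow_div_choose r).inv₀ one_ne_zero).mul
      ((tendsto_pow_div_choose r).comp (tendsto_mul_atTop' hm))).mul_const _
  rw [inv_one, one_mul, one_mul] at h1
  refine h1.congr' ?_
  filter_upwards [eventually_ge_atTop (r + 1)] with b hb
  have hmR : (0 : ℝ) < m := by exact_mod_cast hm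
  have hbR : (0 : ℝ) < b := by exact_mod_cast (show 0 < b by omega)
  have hc : (0 : ℝ) < b.choose r := by exact_mod_cast Nat.choose_pos (by omega)
  have hf : (0 : ℝ) < r.factorial := by exact_mod_cast r.factorial_pos
  have hc2 : (0 : ℝ) < (m * b).choose r := by
    exact_mod_cast Nat.choose_pos ((show r ≤ b by omega).trans (Nat.le_mul_of_pos_left b hm))
  push_cast
  rw [mul_pow]
  field_simp

theorem density_blocks (m a r : ℕ) (hm : 0 < m) (hr : r < a + 1) (hr1 : 1 ≤ r) :
    (m : ℝ) ^ (r - 1) * turanDensity (m * a + 1) r ≤ turanDensity (a + 1) r := by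
  have hmR : (0 : ℝ) < m := by exact_mod_cast hm
  have hk : r < m * a + 1 := by
    have : a ≤ m * a := Nat.le_mul_of_pos_left a hm
    omega
  have h1 : Tendsto (fun b : ℕ => ratio (m * a + 1) r (m * b)) atTop
      (𝓝 (turanDensity (m * a + 1) r)) :=
    (tendsto_turanDensity _ r hk).comp (tendsto_mul_atTop' hm)
  have h2 : Tendsto (fun b : ℕ => (m : ℝ) * (ratio (a + 1) r b *
      ((b.choose r : ℝ) / ((m * b).choose r : ℝ)))) atTop
      (𝓝 (m * (turanDensity (a + 1) r * (1 / (m : ℝ) ^ r)))) :=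
    ((tendsto_turanDensity _ r hr).mul (tendsto_choose_div_choose m r hm)).const_mul _
  have h3 : turanDensity (m * a + 1) r ≤ m * (turanDensity (a + 1) r * (1 / (m : ℝ) ^ r)) := by
    refine le_of_tendsto_of_tendsto h1 h2 ?_
    filter_upwards [eventually_ge_atTop r] with b hb
    unfold ratio
    have hc : (0 : ℝ) < b.choose r := by exact_mod_cast Nat.choose_pos hb
    have hc2 : (0 : ℝ) < (m * b).choose r := by
      exact_mod_cast Nat.choose_pos (hb.trans (Nat.le_mul_of_pos_left b hm))
    have h4 : (turanNumber (m * b) (m * a + 1) r : ℝ) ≤ m * turanNumber b (a + 1) r := by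
      exact_mod_cast turanNumber_blocks m b a r hr
    have h5 : (m : ℝ) * ((turanNumber b (a + 1) r : ℝ) / (b.choose r : ℝ) *
        ((b.choose r : ℝ) / ((m * b).choose r : ℝ)))
        = (m * turanNumber b (a + 1) r) / ((m * b).choose r : ℝ) := by
      field_simp
    rw [h5]
    gcongr
  obtain ⟨s, rfl⟩ : ∃ s, r = s + 1 := ⟨r - 1, by omega⟩
  rw [Nat.add_sub_cancel]
  calc (m : ℝ) ^ s * turanDensity (m * a + 1) (s + 1)
      ≤ (m : ℝ) ^ s * (m * (turanDensity (a + 1) (s + 1) * (1 / (m : ℝ) ^ (s + 1)))) := by gcongr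
    _ = turanDensity (a + 1) (s + 1) := by
        rw [pow_succ]
        field_simp

/-- The rescaled Turán density `t_*(α+1,r)`. -/
noncomputable def rescaled (r a : ℕ) : ℝ := (a : ℝ) ^ (r - 1) / r.factorial * turanDensity (a + 1) r

/-- `t_*(r)`, the limit of `t_*(k,r)` as `k → ∞`. -/
noncomputable def tStar (r : ℕ) : ℝ := limUnder atTop (rescaled r)

theorem rescaled_nonneg (r a : ℕ) (hr : r < a + 1) : 0 ≤ rescaled r a := by
  unfold rescaled
  have := turanDensity_nonneg (a + 1) r hr
  positivity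

theorem rescaled_blocks (m a r : ℕ) (hm : 0 < m) (hr : r < a + 1) (hr1 : 1 ≤ r) :
    rescaled r (m * a) ≤ rescaled r a := by
  unfold rescaled
  have h := density_blocks m a r hm hr hr1
  have hf : (0 : ℝ) < r.factorial := by exact_mod_cast r.factorial_pos
  push_cast
  rw [mul_pow]
  calc (m : ℝ) ^ (r - 1) * (a : ℝ) ^ (r - 1) / r.factorial * turanDensity (m * a + 1) r
      = (a : ℝ) ^ (r - 1) / r.factorial * ((m : ℝ) ^ (r - 1) * turanDensity (m * a + 1) r) := by ring
    _ ≤ (a : ℝ) ^ (r - 1) / r.factorial * turanDensity (a + 1) r := by gcongr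

theorem rescaled_le (a a' r : ℕ) (hr : r < a + 1) (hr1 : 1 ≤ r) (h : a ≤ a') :
    rescaled r a' ≤ (((a' / a : ℕ) + 1 : ℝ) / (a' / a : ℕ)) ^ (r - 1) * rescaled r a := by
  have ha : 0 < a := by omega
  set m := a' / a with hm
  have hm0 : 0 < m := Nat.div_pos h ha
  have h1 : m * a ≤ a' := Nat.div_mul_le_self a' a
  have h2 : a' ≤ (m + 1) * a := by
    have := Nat.lt_div_mul_add (a := a') ha
    rw [← hm] at this
    nlinarith
  have hmR : (0 : ℝ) < m := by exact_mod_cast hm0
  have haR : (0 : ℝ) < a := by exact_mod_cast ha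
  have h3 : rescaled r (m * a) ≤ rescaled r a := rescaled_blocks m a r hm0 hr hr1
  have h4 : rescaled r a' ≤ (((m : ℝ) + 1) / m) ^ (r - 1) * rescaled r (m * a) := by
    unfold rescaled
    have hlt : r < m * a + 1 := by
      have : a ≤ m * a := Nat.le_mul_of_pos_left a hm0
      omega
    have h5 : turanDensity (a' + 1) r ≤ turanDensity (m * a + 1) r :=
      turanDensity_antitone r _ _ hlt (by omega)
    have h6 : 0 ≤ turanDensity (m * a + 1) r := turanDensity_nonneg _ r hlt
    have h6' : 0 ≤ turanDensity (a' + 1) r := turanDensity_nonneg _ r (by omega)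
    have h7 : (a' : ℝ) ≤ (((m : ℝ) + 1) / m) * ((m * a : ℕ) : ℝ) := by
      push_cast
      have : (a' : ℝ) ≤ (m + 1) * a := by exact_mod_cast h2
      calc (a' : ℝ) ≤ (m + 1) * a := this
        _ = _ := by field_simp
    calc (a' : ℝ) ^ (r - 1) / r.factorial * turanDensity (a' + 1) r
        ≤ ((((m : ℝ) + 1) / m) * ((m * a : ℕ) : ℝ)) ^ (r - 1) / r.factorial
          * turanDensity (m * a + 1) r := by gcongr
      _ = _ := by rw [mul_pow]; ring
  refine h4.trans ?_
  gcongr

theorem tendsto_tStar (r : ℕ) (hr1 : 1 ≤ r) : Tendsto (rescaled r) atTop (𝓝 (tStar r)) := by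
  set L : ℝ := sInf (rescaled r '' {a | r ≤ a}) with hL
  have hbdd : BddBelow (rescaled r '' {a | r ≤ a}) := by
    refine ⟨0, ?_⟩
    rintro _ ⟨a, ha, rfl⟩
    exact rescaled_nonneg r a (by simp only [Set.mem_ofPred_eq] at ha; omega)
  have hne : (rescaled r '' {a | r ≤ a}).Nonempty := ⟨_, r, by simp, rfl⟩
  have h : Tendsto (rescaled r) atTop (𝓝 L) := by
    rw [tendsto_order]
    constructor
    · intro x hx
      filter_upwards [eventually_ge_atTop r] with a ha
      exact hx.trans_le (csInf_le hbdd ⟨a, ha, rfl⟩)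
    · intro x hx
      obtain ⟨_, ⟨a, ha, rfl⟩, hax⟩ := exists_lt_of_csInf_lt hne hx
      simp only [Set.mem_ofPred_eq] at ha
      have h1 : Tendsto (fun m : ℕ => (((m : ℝ) + 1) / m) ^ (r - 1) * rescaled r a) atTop
          (𝓝 (1 ^ (r - 1) * rescaled r a)) := by
        apply Tendsto.mul_const
        apply Tendsto.pow
        have h2 : Tendsto (fun m : ℕ => 1 + ((m : ℝ))⁻¹) atTop (𝓝 (1 + 0)) :=
          tendsto_const_nhds.add tendsto_inv_atTop_nhds_zero_nat
        rw [add_zero] at h2
        refine h2.congr' ?_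
        filter_upwards [eventually_gt_atTop 0] with m hm
        have : (0 : ℝ) < m := by exact_mod_cast hm
        field_simp
      rw [one_pow, one_mul] at h1
      have h2 : Tendsto (fun a' : ℕ => a' / a) atTop atTop :=
        Nat.tendsto_div_const_atTop (by omega)
      have h3 := (h1.comp h2).eventually_lt_const hax
      filter_upwards [h3, eventually_ge_atTop a] with a' h4 h5
      exact (rescaled_le a a' r (by omega) hr1 h5).trans_lt h4
  exact tendsto_nhds_limUnder ⟨L, h⟩

end L5H33.TS
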