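import Pool.Agent.L5helper33.TSLim

/-!
# The upper bound for the rescaled Turán density
-/

open Filter Topology Finset

namespace L5H33.TS

/-- `u^u / (3^u u!) ≤ 1/3`. -/
theorem pow_self_le (u : ℕ) (hu : 1 ≤ u) : (u : ℝ) ^ u ≤ 3 ^ (u - 1) * u.factorial := by
  induction u, hu using Nat.le_induction with
  | base => simp
  | succ u hu ih =>
    have huR : (0 : ℝ) < u := by exact_mod_cast hu
    have h1 : ((u : ℝ) + 1) ^ u ≤ 3 * (u : ℝ) ^ u := by
      have h2 : ((u : ℝ) + 1) = u * (1 + 1 / u) := by field_simp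
      rw [h2, mul_pow, mul_comm]
      have h3 : (1 + 1 / (u : ℝ)) ^ u ≤ 3 := by
        have h4 : (1 + 1 / (u : ℝ)) ≤ Real.exp (1 / u) := by
          have := Real.add_one_le_exp (1 / (u : ℝ))
          linarith
        calc (1 + 1 / (u : ℝ)) ^ u ≤ (Real.exp (1 / u)) ^ u := by gcongr
          _ = Real.exp 1 := by
              rw [← Real.exp_nat_mul]
              congr 1
              field_simp
          _ ≤ 3 := by
              have := Real.exp_one_lt_d9
              linarith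
      gcongr
    have h5 : 3 ^ (u + 1 - 1) = (3 : ℝ) ^ (u - 1) * 3 := by
      rw [← pow_succ]
      congr 1
      omega
    rw [h5, Nat.factorial_succ]
    push_cast
    calc ((u : ℝ) + 1) ^ (u + 1) = (u + 1) * ((u : ℝ) + 1) ^ u := by ring
      _ ≤ (u + 1) * (3 * (u : ℝ) ^ u) := by gcongr
      _ ≤ (u + 1) * (3 * (3 ^ (u - 1) * u.factorial)) := by gcongr
      _ = _ := by ring

theorem tendsto_frac (a b c d : ℝ) (hc : c ≠ 0) :
    Tendsto (fun m : ℕ => (a * m + b) / (c * m + d)) atTop (𝓝 (a / c)) := by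
  have h1 : Tendsto (fun m : ℕ => (a + b * (m : ℝ)⁻¹) / (c + d * (m : ℝ)⁻¹)) atTop
      (𝓝 ((a + b * 0) / (c + d * 0))) := by
    apply Tendsto.div
    · exact tendsto_const_nhds.add (tendsto_inv_atTop_nhds_zero_nat.const_mul b)
    · exact tendsto_const_nhds.add (tendsto_inv_atTop_nhds_zero_nat.const_mul d)
    · simpa using hc
  rw [mul_zero, mul_zero, add_zero, add_zero] at h1
  refine h1.congr' ?_
  filter_upwards [eventually_gt_atTop 0] with m hm
  have hmR : (m : ℝ) ≠ 0 := by exact_mod_cast hm.ne'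
  have h2 : a * m + b = m * (a + b * (m : ℝ)⁻¹) := by field_simp
  have h3 : c * m + d = m * (c + d * (m : ℝ)⁻¹) := by field_simp
  rw [h2, h3, mul_div_mul_left _ _ hmR]

/-- `C(l, D) ≤ (e l / D)^D`. -/
theorem log_choose_le (l D : ℕ) (hD : 0 < D) (hl : D ≤ l) :
    Real.log (l.choose D) ≤ D * (1 + Real.log ((l : ℝ) / D)) := by
  have hDR : (0 : ℝ) < D := by exact_mod_cast hD
  have hlR : (0 : ℝ) < l := by exact_mod_cast hD.trans_le hl
  have hf : (0 : ℝ) < D.factorial := by exact_mod_cast D.factorial_pos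
  have h1 : ((l.choose D : ℕ) : ℝ) ≤ (l : ℝ) ^ D / D.factorial := Nat.choose_le_pow_div D l
  have h2 : (D : ℝ) ^ D / D.factorial ≤ Real.exp D := Real.pow_div_factorial_le_exp _ hDR.le D
  have h3 : (l : ℝ) ^ D / D.factorial ≤ ((l : ℝ) / D) ^ D * Real.exp D := by
    calc (l : ℝ) ^ D / D.factorial = ((l : ℝ) / D) ^ D * ((D : ℝ) ^ D / D.factorial) := by
          rw [div_pow]; field_simp
      _ ≤ _ := by gcongr
  have hc : (0 : ℝ) < (l.choose D : ℕ) := by exact_mod_cast Nat.choose_pos hl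
  calc Real.log (l.choose D) ≤ Real.log (((l : ℝ) / D) ^ D * Real.exp D) :=
        Real.log_le_log hc (h1.trans h3)
    _ = _ := by
        rw [Real.log_mul (by positivity) (Real.exp_pos _).ne', Real.log_exp, Real.log_pow]
        ring

/-- The first part of the bound: `C(l,r)/C(D,r)` times the entropy. -/
theorem family_bound (l D r : ℕ) (hr : 0 < r) (hD : r ≤ D) (hl : D ≤ l) :
    ((l.choose r : ℝ) / D.choose r) * Real.log (l.choose D)
      ≤ (l : ℝ) ^ r * (D * (1 + Real.log ((l : ℝ) / D))) / ((D + 1 - r : ℕ) : ℝ) ^ r := by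
  have hD0 : 0 < D := by omega
  have hx : 0 < D + 1 - r := by omega
  have hxR : (0 : ℝ) < ((D + 1 - r : ℕ) : ℝ) := by exact_mod_cast hx
  have hf : (0 : ℝ) < r.factorial := by exact_mod_cast r.factorial_pos
  have hcD : (0 : ℝ) < (D.choose r : ℕ) := by exact_mod_cast Nat.choose_pos hD
  have h1 : ((l.choose r : ℕ) : ℝ) ≤ (l : ℝ) ^ r / r.factorial := Nat.choose_le_pow_div r l
  have h2 : (((D + 1 - r : ℕ) : ℝ)) ^ r ≤ r.factorial * (D.choose r : ℕ) := by
    have h3 := Nat.pow_sub_le_descFactorial D r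
    rw [Nat.descFactorial_eq_factorial_mul_choose] at h3
    exact_mod_cast h3
  have hlog0 : 0 ≤ Real.log (l.choose D) := by
    apply Real.log_nonneg
    exact_mod_cast Nat.choose_pos hl
  have hlog := log_choose_le l D hD0 hl
  have h4 : (l.choose r : ℝ) / D.choose r ≤ (l : ℝ) ^ r / ((D + 1 - r : ℕ) : ℝ) ^ r := by
    rw [div_le_div_iff₀ hcD (by positivity)]
    calc (l.choose r : ℝ) * ((D + 1 - r : ℕ) : ℝ) ^ r
        ≤ ((l : ℝ) ^ r / r.factorial) * (r.factorial * (D.choose r : ℕ)) := by gcongr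
      _ = _ := by field_simp
  calc ((l.choose r : ℝ) / D.choose r) * Real.log (l.choose D)
      ≤ ((l : ℝ) ^ r / ((D + 1 - r : ℕ) : ℝ) ^ r) * (D * (1 + Real.log ((l : ℝ) / D))) := by
        gcongr
    _ = _ := by ring

/-- The bound for `t_*(α+1, r)` for special values of `α`. -/
theorem rescaled_bound (u v N m : ℕ) (hu : 1 ≤ u) (hv : v ≤ 1) (hN : 2 ≤ N) (hm : 1 ≤ m) :
    rescaled (2 * u + v) (2 * u * N * m) ≤
      (1 + Real.log (3 * (N : ℝ) ^ 2 / (N - 1))) *
        (((2 * u * N * m : ℕ) : ℝ) ^ (2 * u + v - 1) * ((2 * u * (N - 1) * m + 1 : ℕ) : ℝ)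
          / ((2 * u * (N - 1) * m + 1 + 1 - (2 * u + v) : ℕ) : ℝ) ^ (2 * u + v))
      + 1 / ((2 * u * N * m : ℕ) : ℝ) + 1 / 3 := by
  classical
  set r := 2 * u + v with hr
  set a := 2 * u * N * m with ha
  set q := 6 * u * N ^ 2 with hq
  set D := 2 * u * (N - 1) * m + 1 with hD
  have hN1 : 1 ≤ N - 1 := by omega
  have hua : 1 ≤ 2 * u * (N - 1) * m := by
    have : 0 < 2 * u * (N - 1) * m := by positivity
    omega
  have h2u : 2 * u ≤ 2 * u * (N - 1) * m := by
    calc 2 * u = 2 * u * 1 * 1 := by ring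
      _ ≤ 2 * u * (N - 1) * m := by gcongr
  have hrD : r ≤ D := by omega
  have hDa : D + 2 * u * m = a + 1 := by
    obtain ⟨M, rfl⟩ : ∃ M, N = M + 1 := ⟨N - 1, by omega⟩
    simp only [hD, ha, Nat.add_sub_cancel]
    ring
  have ham : a ≤ m * q := by
    calc a = (m * (6 * u * N)) * N / (3 * N) := by
            rw [ha]
            apply (Nat.div_eq_of_eq_mul_right (by positivity) _).symm
            ring
      _ ≤ m * q := by
            apply Nat.div_le_of_le_mul
            calc m * (6 * u * N) * N = m * q * 1 := by rw [hq]; ring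
              _ ≤ m * q * (3 * N) := Nat.mul_le_mul_left _ (by omega)
              _ = 3 * N * (m * q) := by ring
  have hDl : D ≤ m * q := by
    have : 2 * u * m ≥ 1 := by
      have : 0 < 2 * u * m := by positivity
      omega
    omega
  have hrpos : 1 ≤ r := by omega
  have h2um : 0 < 2 * u * m := by positivity
  have hra : r < a + 1 := by omega
  obtain ⟨F, hF1, hF2, hF3⟩ := exists_family (P := Fin m × Fin q) D r hrD (by simpa using hDl)
  have hcardP : Fintype.card (Fin m × Fin q) = m * q := by simp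
  rw [hcardP] at hF3
  have hqpos : 0 < q := by positivity
  have hmq : 0 < m * q := by positivity
  have hmqR : (0 : ℝ) < ((m * q : ℕ) : ℝ) := by exact_mod_cast hmq
  have hf : (0 : ℝ) < r.factorial := by exact_mod_cast r.factorial_pos
  have hfu : (0 : ℝ) < u.factorial := by exact_mod_cast u.factorial_pos
  have huR : (0 : ℝ) < u := by exact_mod_cast hu
  have hNR : (0 : ℝ) < N := by exact_mod_cast (show 0 < N by omega)
  have hN1R : (0 : ℝ) < (N : ℝ) - 1 := by
    have : (2 : ℝ) ≤ N := by exact_mod_cast hN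
    linarith
  have hmR : (0 : ℝ) < m := by exact_mod_cast hm
  have haR : (0 : ℝ) < (a : ℝ) := by
    have : 0 < a := by omega
    exact_mod_cast this
  -- the number of edges
  set A : ℝ := F.card + m * (((q : ℝ) / 2) ^ u / u.factorial * (q : ℝ) ^ v) with hA
  have hbound : ∀ b : ℕ, (turanNumber (m * q * b) (a + 1) r : ℝ) ≤ A * (b : ℝ) ^ r := by
    intro b
    have h1 := construction m q b u v D a hv (by omega) F hF1 hF2
    have h2 : (((q * b.choose 2).choose u : ℕ) : ℝ) ≤ ((q : ℝ) * (b : ℝ) ^ 2 / 2) ^ u / u.factorial := by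
      refine (Nat.choose_le_pow_div u _).trans ?_
      gcongr
      push_cast
      have h3 : ((b.choose 2 : ℕ) : ℝ) ≤ (b : ℝ) ^ 2 / (2 : ℕ).factorial := Nat.choose_le_pow_div 2 b
      have h4 : ((2 : ℕ).factorial : ℝ) = 2 := by norm_num [Nat.factorial]
      rw [h4] at h3
      calc (q : ℝ) * ((b.choose 2 : ℕ) : ℝ) ≤ (q : ℝ) * ((b : ℝ) ^ 2 / 2) := by gcongr
        _ = _ := by ring
    have h5 : (((q * b).choose v : ℕ) : ℝ) ≤ ((q : ℝ) * b) ^ v := by
      have := Nat.choose_le_pow (q * b) v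
      exact_mod_cast this
    have h6 : (turanNumber (m * q * b) (a + 1) r : ℝ)
        ≤ F.card * (b : ℝ) ^ r + m * ((((q * b.choose 2).choose u : ℕ) : ℝ) * (((q * b).choose v : ℕ) : ℝ)) := by
      exact_mod_cast h1
    refine h6.trans ?_
    calc F.card * (b : ℝ) ^ r + m * ((((q * b.choose 2).choose u : ℕ) : ℝ) * (((q * b).choose v : ℕ) : ℝ))
        ≤ F.card * (b : ℝ) ^ r + m * ((((q : ℝ) * (b : ℝ) ^ 2 / 2) ^ u / u.factorial) * ((q : ℝ) * b) ^ v) := by
          gcongr
      _ = A * (b : ℝ) ^ r := by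
          rw [hA, hr, pow_add, pow_mul]
          have : ((q : ℝ) * (b : ℝ) ^ 2 / 2) ^ u = ((q : ℝ) / 2) ^ u * ((b : ℝ) ^ 2) ^ u := by
            rw [← mul_pow]; congr 1; ring
          rw [this, mul_pow]
          ring
  have hdens := density_le_of_bound (m * q) (a + 1) r hmq hra A hbound
  -- `rescaled`
  have hresc : rescaled r a ≤ (a : ℝ) ^ (r - 1) * A / ((m * q : ℕ) : ℝ) ^ r := by
    unfold rescaled
    calc (a : ℝ) ^ (r - 1) / r.factorial * turanDensity (a + 1) r
        ≤ (a : ℝ) ^ (r - 1) / r.factorial * (A * r.factorial / ((m * q : ℕ) : ℝ) ^ r) := by gcongr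
      _ = _ := by field_simp
  -- the first part
  set Lam : ℝ := 1 + Real.log (3 * (N : ℝ) ^ 2 / (N - 1)) with hLam
  set x : ℝ := ((D + 1 - r : ℕ) : ℝ) with hx
  have hxpos : 0 < x := by
    have : 0 < D + 1 - r := by omega
    rw [hx]
    exact_mod_cast this
  have hDR : (0 : ℝ) < D := by
    have : 0 < D := by omega
    exact_mod_cast this
  have hlogle : Real.log (((m * q : ℕ) : ℝ) / D) ≤ Real.log (3 * (N : ℝ) ^ 2 / (N - 1)) := by
    apply Real.log_le_log (by positivity)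
    rw [div_le_div_iff₀ hDR hN1R]
    have h1 : (D : ℝ) = 2 * u * (N - 1) * m + 1 := by
      rw [hD]
      push_cast [Nat.cast_sub (show 1 ≤ N by omega)]
      ring
    have h2 : ((m * q : ℕ) : ℝ) = 6 * u * N ^ 2 * m := by
      rw [hq]; push_cast; ring
    rw [h1, h2]
    have : 0 ≤ 3 * (N : ℝ) ^ 2 := by positivity
    nlinarith
  have hFb : (F.card : ℝ) ≤ ((m * q : ℕ) : ℝ) ^ r * (D * Lam) / x ^ r + 1 := by
    refine hF3.trans ?_
    have h1 := family_bound (m * q) D r hrpos hrD hDl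
    have h2 : ((m * q : ℕ) : ℝ) ^ r * (D * (1 + Real.log (((m * q : ℕ) : ℝ) / D))) / x ^ r
        ≤ ((m * q : ℕ) : ℝ) ^ r * (D * Lam) / x ^ r := by
      have h3 : 1 + Real.log (((m * q : ℕ) : ℝ) / D) ≤ Lam := by
        rw [hLam]; linarith
      gcongr
    linarith
  have hpart1 : (a : ℝ) ^ (r - 1) * F.card / ((m * q : ℕ) : ℝ) ^ r
      ≤ Lam * ((a : ℝ) ^ (r - 1) * D / x ^ r) + 1 / a := by
    calc (a : ℝ) ^ (r - 1) * F.card / ((m * q : ℕ) : ℝ) ^ r
        ≤ (a : ℝ) ^ (r - 1) * (((m * q : ℕ) : ℝ) ^ r * (D * Lam) / x ^ r + 1) / ((m * q : ℕ) : ℝ) ^ r := by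
          gcongr
      _ = Lam * ((a : ℝ) ^ (r - 1) * D / x ^ r) + (a : ℝ) ^ (r - 1) / ((m * q : ℕ) : ℝ) ^ r := by
          field_simp
      _ ≤ Lam * ((a : ℝ) ^ (r - 1) * D / x ^ r) + 1 / a := by
          refine add_le_add le_rfl ?_
          rw [div_le_div_iff₀ (by positivity) haR, one_mul, ← pow_succ, Nat.sub_add_cancel hrpos]
          have : (a : ℝ) ≤ ((m * q : ℕ) : ℝ) := by exact_mod_cast ham
          gcongr
  -- the second part
  have hpart2 : (a : ℝ) ^ (r - 1) * (m * (((q : ℝ) / 2) ^ u / u.factorial * (q : ℝ) ^ v))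
      / ((m * q : ℕ) : ℝ) ^ r ≤ 1 / 3 := by
    have h1 : (u : ℝ) ^ u / (3 ^ u * u.factorial) ≤ 1 / 3 := by
      rw [div_le_div_iff₀ (by positivity) (by norm_num)]
      have h2 := pow_self_le u hu
      have h3 : (3 : ℝ) ^ u = 3 ^ (u - 1) * 3 := by
        rw [← pow_succ]; congr 1; omega
      rw [h3]
      nlinarith
    have h4 : (a : ℝ) ^ (r - 1) * (m * (((q : ℝ) / 2) ^ u / u.factorial * (q : ℝ) ^ v))
      / ((m * q : ℕ) : ℝ) ^ r = ((2 * u * N : ℝ)) ^ (r - 1) / ((2 : ℝ) ^ u * q ^ u * u.factorial) := by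
      have ha2 : (a : ℝ) = (2 * u * N) * m := by rw [ha]; push_cast; ring
      have hqR : (q : ℝ) ≠ 0 := by
        have : (0 : ℝ) < q := by exact_mod_cast hqpos
        exact this.ne'
      have h5 : (m : ℝ) ^ r = m ^ (r - 1) * m := by
        rw [← pow_succ]; congr 1; omega
      have h6 : (q : ℝ) ^ r = q ^ u * q ^ u * q ^ v := by
        rw [← pow_add, ← pow_add]; congr 1; omega
      have h8 : (((m * q : ℕ) : ℝ)) ^ r = (m ^ (r - 1) * m) * (q ^ u * q ^ u * q ^ v) := by
        push_cast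
        rw [mul_pow, h5, h6]
      have h9 : (a : ℝ) ^ (r - 1) = (2 * u * N : ℝ) ^ (r - 1) * m ^ (r - 1) := by
        rw [ha2, mul_pow]
      rw [h8, h9, div_pow]
      set X : ℝ := (2 * u * N : ℝ) ^ (r - 1) with hX
      have h10 : (m : ℝ) ^ (r - 1) ≠ 0 := by positivity
      set Y : ℝ := (m : ℝ) ^ (r - 1) with hY
      field_simp
    rw [h4]
    have hqR : (q : ℝ) = 6 * u * N ^ 2 := by rw [hq]; push_cast; ring
    have h7 : (2 : ℝ) ^ u * q ^ u = (3 * u ) ^ u * ((2 * N) ^ (2 * u)) := by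
      rw [pow_mul, ← mul_pow, ← mul_pow, hqR]
      congr 1
      ring
    have h2N : (1 : ℝ) ≤ 2 * u * N := by
      have h8 : (1 : ℝ) ≤ u := by exact_mod_cast hu
      have h9 : (2 : ℝ) ≤ N := by exact_mod_cast hN
      nlinarith
    calc (2 * (u : ℝ) * N) ^ (r - 1) / (2 ^ u * (q : ℝ) ^ u * u.factorial)
        ≤ (2 * (u : ℝ) * N) ^ (2 * u) / (2 ^ u * (q : ℝ) ^ u * u.factorial) := by
          gcongr
          omega
      _ = (u : ℝ) ^ u / (3 ^ u * u.factorial) := by
          rw [h7]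
          have h8 : (2 * (u : ℝ) * N) ^ (2 * u) = u ^ u * u ^ u * (2 * N) ^ (2 * u) := by
            have : (2 * (u : ℝ) * N) = u * (2 * N) := by ring
            rw [this, mul_pow, ← pow_add]
            congr 2
            omega
          rw [h8, mul_pow 3 (u : ℝ) u]
          field_simp
      _ ≤ 1 / 3 := h1
  calc rescaled r a ≤ (a : ℝ) ^ (r - 1) * A / ((m * q : ℕ) : ℝ) ^ r := hresc
    _ = (a : ℝ) ^ (r - 1) * F.card / ((m * q : ℕ) : ℝ) ^ r
        + (a : ℝ) ^ (r - 1) * (m * (((q : ℝ) / 2) ^ u / u.factorial * (q : ℝ) ^ v))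
      / ((m * q : ℕ) : ℝ) ^ r := by rw [hA]; ring
    _ ≤ (Lam * ((a : ℝ) ^ (r - 1) * D / x ^ r) + 1 / a) + 1 / 3 := add_le_add hpart1 hpart2
    _ = _ := by ring

end L5H33.TS
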